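import Pool.Agent.H7.Artin.Order

/-!
# Abbreviations for the statement on alternating and symmetric groups
-/

namespace Pool.Agent.H72.Exact

/-- `G` is an alternating group `A_n` with `n ≥ 18`, or a symmetric group `S_n` with `n ≥ 11`. -/
def IsAltSym (n : ℕ) (G : Type) [Group G] : Prop :=
  (18 ≤ n ∧ Nonempty (G ≃* alternatingGroup (Fin n))) ∨
    (11 ≤ n ∧ Nonempty (G ≃* Equiv.Perm (Fin n)))

/-- The exact bound: `n - 2` if `n` is prime and `n - 1` if it is not. -/
def critDegree (n : ℕ) : ℕ := if n.Prime then n - 2 else n - 1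

/-- `θ` is the character of a finite dimensional complex representation of `G`. -/
def IsCharacter {G : Type} [Group G] (θ : G → ℂ) : Prop :=
  ∃ (V : Type) (_ : AddCommGroup V) (_ : Module ℂ V) (_ : FiniteDimensional ℂ V)
    (ρ : Representation ℂ G V), ρ.character = θ

end Pool.Agent.H72.Exact
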