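import Pool.Agent.H72.Exact.Ex5
import Pool.Agent.H7.Artin.Alt

/-!
The class function `exF` is not a character, on the symmetric and on the alternating group.
-/

open Finset Equiv Equiv.Perm Module

namespace Pool.Agent.H72.Exact

open Pool.Agent.H7.Artin

set_option linter.unusedSectionVars false

variable {α : Type} [Fintype α] [DecidableEq α] {q : ℕ} [hq : Fact q.Prime]

theorem PS_cycle (hn : Fintype.card α < 2 * q) {c : Perm α} (h1 : c ≠ 1) (hc : c ^ q = 1) :
    PS q c = {c} := by
  classical
  ext y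
  rw [mem_PS, mem_singleton]
  constructor
  · rintro ⟨hy1, hyq, ha⟩
    obtain ⟨a, rfl⟩ := mem_of_agree hn hy1 hyq ha
    have h2 := pow_mod_orderOf c a
    rw [ex_order h1 hc] at h2
    have h3 : 0 < a % q := by
      by_contra h4
      have h5 : a % q = 0 := by omega
      rw [h5, pow_zero] at h2
      exact hy1 h2.symm
    have h4 : (c ^ a).support = c.support := by
      rw [← h2]
      exact supp_pow hn h1 hc h3 (Nat.mod_lt _ hq.out.pos)
    ext x
    by_cases hx : x ∈ (c ^ a).support
    · rw [ha x hx]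
    · have hx' : x ∉ c.support := by rwa [h4] at hx
      rw [notMem_support.1 hx, notMem_support.1 hx']
  · rintro rfl
    exact ⟨h1, hc, fun x _ => rfl⟩

theorem fix_count (g : Perm α) :
    (univ.filter fun x => g x = x).card + #g.support = Fintype.card α := by
  have h2 : (univ.filter fun x => g x = x) = g.supportᶜ := by
    ext y
    rw [Finset.mem_filter, Finset.mem_compl, mem_support, not_not]
    exact ⟨fun h => h.2, fun h => ⟨Finset.mem_univ _, h⟩⟩
  rw [h2, card_compl]
  have := Finset.card_le_univ g.support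
  omega

theorem exF_of_pow (hn : Fintype.card α < 2 * q) {c : Perm α} (hc : c ^ q = 1) :
    exF q c = (Fintype.card α : ℂ) - 1 := by
  by_cases h1 : c = 1
  · rw [h1, exF_one]
  · have h2 := fix_count c
    rw [ex_card hn h1 hc] at h2
    unfold exF
    rw [PS_cycle hn h1 hc, card_singleton, ← h2]
    push_cast
    ring

theorem exF_three (hn : Fintype.card α < 2 * q) (h5 : 5 ≤ q) {t : Perm α}
    (ht : t.IsThreeCycle) : exF q t = (Fintype.card α : ℂ) - 4 := by
  have h1 : PS q t = ∅ := by
    rw [Finset.eq_empty_iff_forall_notMem]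
    intro y hy
    rw [mem_PS] at hy
    obtain ⟨hy1, hyq, ha⟩ := hy
    have h2 := ex_card hn hy1 hyq
    have h3 : y.support ⊆ t.support := by
      intro x hx
      rw [mem_support, ha x hx]
      exact mem_support.1 hx
    have h4 := card_le_card h3
    rw [ht.card_support] at h4
    omega
  have h2 := fix_count t
  rw [ht.card_support] at h2
  unfold exF
  rw [h1, card_empty, ← h2]
  push_cast
  ring

theorem exists_cycle (hqn : q ≤ Fintype.card α) : ∃ c : Perm α, c ≠ 1 ∧ c ^ q = 1 := by
  have : NeZero q := ⟨hq.out.ne_zero⟩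
  have hemb : Fintype.card (ZMod q) ≤ Fintype.card α := by rw [ZMod.card]; exact hqn
  obtain ⟨ι⟩ := Function.Embedding.nonempty_of_card_le hemb
  refine ⟨Pool.Agent.H7.HB.rot ι (Multiplicative.ofAdd 1), ?_, ?_⟩
  · intro h
    have h1 := Pool.Agent.H7.HB.rot_card ι _ (Pool.Agent.H7.HB.ofAdd_one_ne q)
    rw [h, support_one, card_empty] at h1
    exact hq.out.ne_zero h1.symm
  · rw [← map_pow, Pool.Agent.H7.HB.mulZ_pow, map_one]

/-- the restriction to the alternating group -/
noncomputable def exFA (q : ℕ) (g : alternatingGroup α) : ℂ := exF q (g : Perm α)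

theorem isHeilbronn_exFA [Nonempty α] (hn : Fintype.card α < 2 * q) (hq2 : q ≠ 2)
    (hM : ∀ b : ℕ, q + 1 ≠ 2 ^ b) : IsHeilbronn (exFA q : alternatingGroup α → ℂ) :=
  HeilToHeilbronn ((isHeilbronn_exF hn hq2 hM).heil.comp (alternatingGroup α).subtype)

theorem eq_one_of_charE (hn : Fintype.card α < 2 * q) {V : Type} [AddCommGroup V] [Module ℂ V]
    [FiniteDimensional ℂ V] (ρ : Representation ℂ (alternatingGroup α) V)
    (hρ : ρ.character = exFA q) {c : alternatingGroup α} (hc : c ^ q = 1) : ρ c = 1 := by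
  classical
  let C := Subgroup.zpowers c
  let _ : Fintype C := Fintype.ofFinite C
  let σ : Representation ℂ C V := ρ.comp C.subtype
  have hdim : (finrank ℂ V : ℂ) = (Fintype.card α : ℂ) - 1 := by
    rw [← Representation.char_one ρ, hρ]
    exact exF_one
  have hpow : ∀ h : C, (h : alternatingGroup α) ^ q = 1 := by
    rintro ⟨h, hh⟩
    obtain ⟨k, rfl⟩ := Subgroup.mem_zpowers_iff.1 hh
    change (c ^ k) ^ q = 1
    rw [← zpow_natCast, ← zpow_mul, mul_comm, zpow_mul, zpow_natCast, hc, one_zpow]
  have hchar : ∀ h : C, σ.character h = finrank ℂ V := by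
    intro h
    have : σ.character h = ρ.character (h : alternatingGroup α) := rfl
    rw [this, hρ]
    change exF q ((h : alternatingGroup α) : Equiv.Perm α) = _
    rw [exF_of_pow hn, hdim]
    have := congrArg Subtype.val (hpow h)
    exact this
  exact eq_one_of_char_const σ hchar ⟨c, Subgroup.mem_zpowers c⟩

theorem exFA_not_character (hn : Fintype.card α < 2 * q) (h5 : 5 ≤ q)
    (hqn : q ≤ Fintype.card α) {V : Type} [AddCommGroup V]
    [Module ℂ V] [FiniteDimensional ℂ V]
    (ρ : Representation ℂ (alternatingGroup α) V) : ρ.character ≠ exFA q := by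
  classical
  intro hρ
  obtain ⟨c, hc1, hcq⟩ := exists_cycle (q := q) (α := α) hqn
  have hqo : Odd q := hq.out.odd_of_ne_two (by omega)
  obtain ⟨x, hx⟩ : (c.support).Nonempty := by
    rw [Finset.nonempty_iff_ne_empty, Ne, Perm.support_eq_empty_iff]
    exact hc1
  let s : Perm α := swap x (c x)
  let d : Perm α := s * c⁻¹ * s⁻¹
  have hdq : d ^ q = 1 := by
    change (s * c⁻¹ * s⁻¹) ^ q = 1
    rw [conj_pow, inv_pow, hcq]
    simp
  have hcs : sign c = 1 := Pool.Agent.H7.HB.sign_of_order_odd hqo hcq
  have hds : sign d = 1 := Pool.Agent.H7.HB.sign_of_order_odd hqo hdq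
  let ca : alternatingGroup α := ⟨c, mem_alternatingGroup.2 hcs⟩
  let da : alternatingGroup α := ⟨d, mem_alternatingGroup.2 hds⟩
  have hρc : ρ ca = 1 := eq_one_of_charE hn ρ hρ (Subtype.ext hcq)
  have hρd : ρ da = 1 := eq_one_of_charE hn ρ hρ (Subtype.ext hdq)
  have hρt : ρ (ca * da) = 1 := by rw [map_mul, hρc, hρd, one_mul]
  let t : Perm α := c * d
  have hx1 : c x ≠ x := mem_support.1 hx
  have hx2 : c (c x) ≠ c x := fun h => hx1 (c.injective h)
  have hx3 : c (c x) ≠ x := by
    intro h
    have h1 : (c ^ 2) x = x := by rw [pow_two, Perm.mul_apply, h]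
    have h2 := ex_fix hn hc1 hcq hx h1
    have h4 := orderOf_dvd_of_pow_eq_one h2
    rw [ex_order hc1 hcq] at h4
    have := Nat.le_of_dvd (by norm_num) h4
    omega
  have ht : t = swap (c x) (c (c x)) * swap x (c x) := by
    have h1 : c * s * c⁻¹ = swap (c x) (c (c x)) := by
      rw [← swap_apply_apply]
    have h2 : t = c * s * c⁻¹ * s⁻¹ := by
      change c * (s * c⁻¹ * s⁻¹) = _
      group
    rw [h2, h1, show s⁻¹ = s from swap_inv _ _]
  have ht3 : t.IsThreeCycle := by
    rw [ht, swap_comm x (c x)]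
    exact isThreeCycle_swap_mul_swap_same hx2.symm hx1 hx3
  have hval : exF q t = exF q (1 : Perm α) := by
    have h1 : exF q t = exFA q (ca * da) := rfl
    have h2 : exF q (1 : Perm α) = exFA q (1 : alternatingGroup α) := rfl
    rw [h1, h2, ← hρ]
    unfold Representation.character
    rw [hρt, ρ.map_one]
  rw [exF_three hn h5 ht3, exF_one] at hval
  have h7 : (3 : ℂ) = 0 := by linear_combination -hval
  norm_num at h7

theorem exF_not_character (hn : Fintype.card α < 2 * q) (h5 : 5 ≤ q)
    (hqn : q ≤ Fintype.card α) {V : Type} [AddCommGroup V]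
    [Module ℂ V] [FiniteDimensional ℂ V]
    (ρ : Representation ℂ (Perm α) V) : ρ.character ≠ exF q := by
  intro hρ
  refine exFA_not_character hn h5 hqn (ρ.comp (alternatingGroup α).subtype) ?_
  funext g
  change ρ.character (g : Perm α) = _
  rw [hρ]
  rfl

end Pool.Agent.H72.Exact
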