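import Pool.Agent.H72.Exact.AltUp
import Pool.Agent.H72.Exact.Ex6

/-!
Heilbronn class functions of small degree on symmetric and alternating groups, and the orders of
Artin L-functions: exact bounds.
-/

open NumberField IsDedekindDomain Module Filter Topology
open scoped Pointwise

namespace Pool.Agent.H72.Exact

open Pool.Agent.H7.Artin Pool.Agent.H7

set_option linter.unusedSectionVars false

/-- Heilbronn class functions of small degree on symmetric groups. -/
theorem isHeilbronn_symmetric' {n : ℕ} (hn : 10 ≤ n) (θ : Equiv.Perm (Fin n) → ℂ)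
    (hθ : IsHeilbronn θ) (r : ℕ) (hr : θ 1 = r) (hrn : r + 2 ≤ n) (hp : n.Prime → r + 3 ≤ n) :
    ∃ a b : ℕ, ∀ g, θ g = (a : ℂ) + b * ((Equiv.Perm.sign g : ℤ) : ℂ) := by
  obtain ⟨a, b, hab⟩ := main' (r := r) hθ.heil hr (by rw [Fintype.card_fin]; exact hn)
    (by rw [Fintype.card_fin]; exact hrn) (by rw [Fintype.card_fin]; exact hp)
  exact ⟨a, b, fun g => by rw [hab g]; rfl⟩

section

variable {G : Type} [Group G] [Fintype G]

/-- Symmetric groups. -/
theorem addFn_symmetric' {n : ℕ} (hn : 10 ≤ n) (e : G ≃* Equiv.Perm (Fin n)) (A : AddFn G)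
    (hmon : ∀ (H : Subgroup G) (ψ : H →* ℂˣ), 0 ≤ A.ord (indSpace H ψ) (indRep H ψ))
    (hreg : A.ord (G → ℂ) (ltr G) + 2 ≤ n) (hregp : n.Prime → A.ord (G → ℂ) (ltr G) + 3 ≤ n)
    {V : Type} [AddCommGroup V] [Module ℂ V]
    [FiniteDimensional ℂ V] (ρ : Representation ℂ G V) [ρ.IsIrreducible] :
    0 ≤ A.ord V ρ ∧ (finrank ℂ V ≠ 1 → A.ord V ρ = 0) := by
  classical
  obtain ⟨θ, hθ, hord⟩ := heil_of_addFn A hmon
  obtain ⟨r, hr⟩ := hθ.exists_deg
  have hregord := ord_regular A hord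
  rw [hr] at hregord
  have h1 : (A.ord (G → ℂ) (ltr G) : ℤ) = r := by exact_mod_cast hregord
  rw [h1] at hreg hregp
  have hrn : r + 2 ≤ n := by exact_mod_cast hreg
  have hrp : n.Prime → r + 3 ≤ n := fun h => by exact_mod_cast hregp h
  -- transport to Perm (Fin n)
  have hθ' := hθ.comp e.symm.toMonoidHom
  obtain ⟨a, b, hab⟩ := main' (r := r) hθ' (by
    change θ (e.symm 1) = r
    rw [map_one, hr]) (by rw [Fintype.card_fin]; exact hn) (by rw [Fintype.card_fin]; exact hrn)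
    (by rw [Fintype.card_fin]; exact hrp)
  have hform : ∀ g : G, θ g = (a : ℂ) * (((1 : G →* ℂˣ) g : ℂˣ) : ℂ)
      + b * (((HB.sgnC.comp e.toMonoidHom) g : ℂˣ) : ℂ) := by
    intro g
    have := hab (e g)
    change θ (e.symm (e g)) = _ at this
    rw [MulEquiv.symm_apply_apply] at this
    rw [this]
    simp
  have hip : ip θ ρ.character = (a : ℂ) * ip (fun g => (((1 : G →* ℂˣ) g : ℂˣ) : ℂ)) ρ.character
      + b * ip (fun g => (((HB.sgnC.comp e.toMonoidHom) g : ℂˣ) : ℂ)) ρ.character := by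
    unfold ip
    simp_rw [hform]
    simp only [add_mul, Finset.sum_add_distrib, mul_add, Finset.mul_sum]
    congr 1 <;>
    · refine Finset.sum_congr rfl fun g _ => ?_
      ring
  have hval := hord V ρ
  rw [hip, ip_lin, ip_lin] at hval
  have hvalZ : A.ord V ρ = (a : ℤ) * finrank ℂ (Representation.IntertwiningMap ρ
      (linRep (1 : G →* ℂˣ))) + b * finrank ℂ (Representation.IntertwiningMap ρ
      (linRep (HB.sgnC.comp e.toMonoidHom))) := by exact_mod_cast hval
  refine ⟨?_, fun hV => ?_⟩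
  · rw [hvalZ]
    positivity
  · rw [hvalZ, finrank_intertwining_zero _ ρ hV, finrank_intertwining_zero _ ρ hV]
    simp

/-- Heilbronn class functions of small degree on alternating groups. -/
theorem heil_alternating' {n : ℕ} (hn : 18 ≤ n) {G : Type} [Group G]
    (e : G ≃* alternatingGroup (Fin n)) (θ : G → ℂ) (hθ : HB.Heil θ) {r : ℕ} (hr : θ 1 = r)
    (hrn : r + 2 ≤ n) (hp : n.Prime → r + 3 ≤ n) (g : G) : θ g = r := by
  classical
  let T : Equiv.Perm (Fin n) → ℂ := fun x =>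
    if h : x ∈ alternatingGroup (Fin n) then θ (e.symm ⟨x, h⟩) else 0
  have hT1 : ∀ x : alternatingGroup (Fin n), T x = θ (e.symm x) := by
    intro x
    change (if h : (x : Equiv.Perm (Fin n)) ∈ alternatingGroup (Fin n) then _ else _) = _
    rw [dif_pos x.2]
  have hT : HB.HeilA T := by
    unfold HB.HeilA
    have h1 : (fun x : alternatingGroup (Fin n) => T x) = fun x => θ (e.symm x) := funext hT1
    rw [h1]
    exact hθ.comp e.symm.toMonoidHom
  have h2 := mainA' (T := T) (r := r) hT (by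
    have := hT1 1
    rw [map_one] at this
    change T ((1 : alternatingGroup (Fin n)) : Equiv.Perm (Fin n)) = r
    rw [this, hr]) (by rw [Fintype.card_fin]; exact hn) (by rw [Fintype.card_fin]; exact hrn)
    (by rw [Fintype.card_fin]; exact hp) (g := (e g : Equiv.Perm (Fin n))) (Equiv.Perm.mem_alternatingGroup.1 (e g).2)
  rw [hT1, MulEquiv.symm_apply_apply] at h2
  exact h2

theorem isHeilbronn_alternating' {n : ℕ} (hn : 18 ≤ n) (θ : alternatingGroup (Fin n) → ℂ)
    (hθ : IsHeilbronn θ) (r : ℕ) (hr : θ 1 = r) (hrn : r + 2 ≤ n) (hp : n.Prime → r + 3 ≤ n)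
    (g : alternatingGroup (Fin n)) :
    θ g = r :=
  heil_alternating' hn (MulEquiv.refl _) θ hθ.heil hr hrn hp g

theorem addFn_alternating' {n : ℕ} (hn : 18 ≤ n)
    (e : G ≃* alternatingGroup (Fin n)) (A : AddFn G)
    (hmon : ∀ (H : Subgroup G) (ψ : H →* ℂˣ), 0 ≤ A.ord (indSpace H ψ) (indRep H ψ))
    (hreg : A.ord (G → ℂ) (ltr G) + 2 ≤ n) (hregp : n.Prime → A.ord (G → ℂ) (ltr G) + 3 ≤ n)
    {V : Type} [AddCommGroup V] [Module ℂ V]
    [FiniteDimensional ℂ V] (ρ : Representation ℂ G V) [ρ.IsIrreducible] (hρ : ∃ g, ρ g ≠ 1) :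
    A.ord V ρ = 0 := by
  classical
  obtain ⟨θ, hθ, hord⟩ := heil_of_addFn A hmon
  obtain ⟨r, hr⟩ := hθ.exists_deg
  have hregord := ord_regular A hord
  rw [hr] at hregord
  have h1 : (A.ord (G → ℂ) (ltr G) : ℤ) = r := by exact_mod_cast hregord
  rw [h1] at hreg hregp
  have hrn : r + 2 ≤ n := by exact_mod_cast hreg
  have hrp : n.Prime → r + 3 ≤ n := fun h => by exact_mod_cast hregp h
  have hconst := heil_alternating' hn e θ hθ hr hrn hrp
  have hip : ip θ ρ.character = (r : ℂ) * ip (fun g => (((1 : G →* ℂˣ) g : ℂˣ) : ℂ))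
      ρ.character := by
    unfold ip
    simp_rw [hconst]
    rw [mul_left_comm]
    congr 1
    rw [Finset.mul_sum]
    refine Finset.sum_congr rfl fun g _ => ?_
    simp
  have hval := hord V ρ
  rw [hip, ip_lin, finrank_intertwining_trivial ρ hρ] at hval
  have : (A.ord V ρ : ℂ) = 0 := by rw [hval]; simp
  exact_mod_cast this

end

section

variable (K L : Type) [Field K] [NumberField K] [Field L] [NumberField L] [Algebra K L]
  [IsGalois K L]

/-- The L-function part of the theorem for symmetric groups. -/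
theorem symmetric_order' {n : ℕ} (hn : 10 ≤ n) (e : Gal(L/K) ≃* Equiv.Perm (Fin n))
    (hcont : ∀ (V : Type) [AddCommGroup V] [Module ℂ V] [FiniteDimensional ℂ V]
      (ρ : Representation ℂ Gal(L/K) V), ∃ F : ℂ → ℂ, IsContinuation K L ρ F) (s₀ : ℂ)
    (hmono : ∀ (H : Subgroup Gal(L/K)) (ψ : H →* ℂˣ) (V : Type) [AddCommGroup V] [Module ℂ V]
      [FiniteDimensional ℂ V] (ρ : Representation ℂ Gal(L/K) V) (F : ℂ → ℂ),
      ρ.character = indChar H ψ → IsContinuation K L ρ F → 0 ≤ meromorphicOrderAt F s₀)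
    (Z : ℂ → ℂ) (hZ : IsContinuation K L (ltr Gal(L/K)) Z)
    (hord : meromorphicOrderAt Z s₀ + 2 ≤ ((n : ℤ) : WithTop ℤ))
    (hordp : n.Prime → meromorphicOrderAt Z s₀ + 3 ≤ ((n : ℤ) : WithTop ℤ))
    {V : Type} [AddCommGroup V] [Module ℂ V] [FiniteDimensional ℂ V]
    (ρ : Representation ℂ Gal(L/K) V) [ρ.IsIrreducible] (F : ℂ → ℂ)
    (hF : IsContinuation K L ρ F) :
    0 ≤ meromorphicOrderAt F s₀ ∧ (finrank ℂ V ≠ 1 → meromorphicOrderAt F s₀ = 0) := by
  classical
  have key := addFn_symmetric' hn e (ordFn K L hcont s₀) (fun H ψ => by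
    obtain ⟨F, hF⟩ := hcont _ (indRep H ψ)
    have h1 := hmono H ψ _ (indRep H ψ) F (funext (indRep_character H ψ)) hF
    rw [ordFn_spec K L hcont s₀ _ F hF] at h1
    exact_mod_cast h1) (by
    rw [ordFn_spec K L hcont s₀ _ Z hZ] at hord
    exact WithTop.coe_le_coe.1 hord) (fun hp => by
    have hord3 := hordp hp
    rw [ordFn_spec K L hcont s₀ _ Z hZ] at hord3
    exact WithTop.coe_le_coe.1 hord3) ρ
  rw [ordFn_spec K L hcont s₀ ρ F hF]
  refine ⟨by exact_mod_cast key.1, fun hV => ?_⟩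
  rw [key.2 hV]
  rfl

theorem alternating_order' {n : ℕ} (hn : 18 ≤ n)
    (e : Gal(L/K) ≃* alternatingGroup (Fin n))
    (hcont : ∀ (V : Type) [AddCommGroup V] [Module ℂ V] [FiniteDimensional ℂ V]
      (ρ : Representation ℂ Gal(L/K) V), ∃ F : ℂ → ℂ, IsContinuation K L ρ F) (s₀ : ℂ)
    (hmono : ∀ (H : Subgroup Gal(L/K)) (ψ : H →* ℂˣ) (V : Type) [AddCommGroup V] [Module ℂ V]
      [FiniteDimensional ℂ V] (ρ : Representation ℂ Gal(L/K) V) (F : ℂ → ℂ),
      ρ.character = indChar H ψ → IsContinuation K L ρ F → 0 ≤ meromorphicOrderAt F s₀)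
    (Z : ℂ → ℂ) (hZ : IsContinuation K L (ltr Gal(L/K)) Z)
    (hord : meromorphicOrderAt Z s₀ + 2 ≤ ((n : ℤ) : WithTop ℤ))
    (hordp : n.Prime → meromorphicOrderAt Z s₀ + 3 ≤ ((n : ℤ) : WithTop ℤ))
    {V : Type} [AddCommGroup V] [Module ℂ V] [FiniteDimensional ℂ V]
    (ρ : Representation ℂ Gal(L/K) V) [ρ.IsIrreducible] (hρ : ∃ g, ρ g ≠ 1) (F : ℂ → ℂ)
    (hF : IsContinuation K L ρ F) : meromorphicOrderAt F s₀ = 0 := by
  classical
  have key := addFn_alternating' hn e (ordFn K L hcont s₀) (fun H ψ => by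
    obtain ⟨F, hF⟩ := hcont _ (indRep H ψ)
    have h1 := hmono H ψ _ (indRep H ψ) F (funext (indRep_character H ψ)) hF
    rw [ordFn_spec K L hcont s₀ _ F hF] at h1
    exact_mod_cast h1) (by
    rw [ordFn_spec K L hcont s₀ _ Z hZ] at hord
    exact WithTop.coe_le_coe.1 hord) (fun hp => by
    have hord3 := hordp hp
    rw [ordFn_spec K L hcont s₀ _ Z hZ] at hord3
    exact WithTop.coe_le_coe.1 hord3) ρ hρ
  rw [ordFn_spec K L hcont s₀ ρ F hF, key]
  rfl

end

end Pool.Agent.H72.Exact
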