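import Mathlib

/-!
Between `m` and `2 m` there is a prime which is not a Mersenne prime, for `m ≥ 6`.  The proof is
that of Bertrand's postulate in Mathlib, with one exceptional prime allowed.
-/

namespace Pool.Agent.H72.Exact

section Real

open Real

theorem real_main_inequality' {x : ℝ} (x_large : (512 : ℝ) ≤ x) :
    x * (2 * x) ^ (√(2 * x) + 1) * 4 ^ (2 * x / 3) ≤ 4 ^ x := by
  let f : ℝ → ℝ := fun x => log x + (√(2 * x) * log (2 * x) + log (2 * x)) - log 4 / 3 * x
  have hf' : ∀ x, 0 < x → 0 < x * (2 * x) ^ (√(2 * x) + 1) / 4 ^ (x / 3) := fun x h =>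
    div_pos (mul_pos h (rpow_pos_of_pos (mul_pos two_pos h) _)) (rpow_pos_of_pos four_pos _)
  have hf : ∀ x, 0 < x → f x = log (x * (2 * x) ^ (√(2 * x) + 1) / 4 ^ (x / 3)) := by
    intro x h5
    have h6 := mul_pos (zero_lt_two' ℝ) h5
    have h7 := rpow_pos_of_pos h6 (√(2 * x) + 1)
    rw [log_div (mul_pos h5 h7).ne' (rpow_pos_of_pos four_pos _).ne', log_mul h5.ne' h7.ne',
      log_rpow h6, log_rpow zero_lt_four]
    simp only [f]
    ring
  have h5 : 0 < x := lt_of_lt_of_le (by norm_num1) x_large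
  rw [← div_le_one (rpow_pos_of_pos four_pos x), ← div_div_eq_mul_div, ← rpow_sub four_pos, ←
    mul_div 2 x, mul_div_left_comm, ← mul_one_sub, (by norm_num1 : (1 : ℝ) - 2 / 3 = 1 / 3),
    mul_one_div, ← log_nonpos_iff (hf' x h5).le, ← hf x h5]
  have hlog2 : ConcaveOn ℝ (Set.Ioi 0.5) fun x : ℝ => log (2 * x) := by
    have h1 : ConcaveOn ℝ (Set.Ioi 0.5) fun x : ℝ => log 2 + log x := by
      have h2 : ConcaveOn ℝ (Set.Ioi (0.5 : ℝ)) log :=
        strictConcaveOn_log_Ioi.concaveOn.subset
          (Set.Ioi_subset_Ioi (by norm_num)) (convex_Ioi 0.5)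
      have h3 := h2.add_const (log 2)
      refine h3.congr ?_
      intro x _
      simp only [Pi.add_apply]
      ring
    refine h1.congr ?_
    intro x hx
    have hx0 : (0 : ℝ) < x := lt_trans (by norm_num) (Set.mem_Ioi.1 hx)
    simp only
    rw [log_mul (by norm_num) hx0.ne']
  have h : ConcaveOn ℝ (Set.Ioi 0.5) f := by
    apply ConcaveOn.sub
    · apply ConcaveOn.add
      · exact strictConcaveOn_log_Ioi.concaveOn.subset
          (Set.Ioi_subset_Ioi (by norm_num)) (convex_Ioi 0.5)
      apply ConcaveOn.add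
      · convert!
          ((strictConcaveOn_sqrt_mul_log_Ioi.concaveOn.comp_linearMap ((2 : ℝ) • LinearMap.id)))
          using 1
        ext x
        simp only [Set.mem_Ioi, Set.mem_preimage, LinearMap.smul_apply,
          LinearMap.id_coe, id_eq, smul_eq_mul]
        rw [← mul_lt_mul_iff_right₀ (two_pos)]
        norm_num1
        rfl
      · exact hlog2
    apply ConvexOn.smul
    · refine div_nonneg (log_nonneg (by norm_num1)) (by norm_num1)
    · exact convexOn_id (convex_Ioi (0.5 : ℝ))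
  suffices ∃ x1 x2, 0.5 < x1 ∧ x1 < x2 ∧ x2 ≤ x ∧ 0 ≤ f x1 ∧ f x2 ≤ 0 by
    obtain ⟨x1, x2, h1, h2, h0, h3, h4⟩ := this
    exact (h.right_le_of_le_left'' h1 ((h1.trans h2).trans_le h0) h2 h0 (h4.trans h3)).trans h4
  refine ⟨18, 512, by norm_num1, by norm_num1, x_large, ?_, ?_⟩
  · have : √(2 * 18 : ℝ) = 6 := (sqrt_eq_iff_mul_self_eq_of_pos (by norm_num1)).mpr (by norm_num1)
    rw [hf _ (by norm_num1), log_nonneg_iff (by positivity), this, one_le_div (by norm_num1)]
    norm_num1
  · have : √(2 * 512) = 32 :=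
      (sqrt_eq_iff_mul_self_eq_of_pos (by norm_num1)).mpr (by norm_num1)
    have e1 : log (512 : ℝ) = 9 * log 2 := by
      rw [← log_rpow (by norm_num)]
      norm_num
    have e2 : log (2 * 512 : ℝ) = 10 * log 2 := by
      rw [← log_rpow (by norm_num)]
      norm_num
    have e3 : log (4 : ℝ) = 2 * log 2 := by
      rw [← log_rpow (by norm_num)]
      norm_num
    simp only [f]
    rw [this, e1, e2, e3]
    have h0 : 0 < log 2 := log_pos (by norm_num)
    nlinarith

end Real

section Nat

open Nat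

theorem main_inequality' {n : ℕ} (n_large : 512 ≤ n) :
    n * ((2 * n) ^ sqrt (2 * n) * 4 ^ (2 * n / 3) * (2 * n)) ≤ 4 ^ n := by
  have h0 : n * ((2 * n) ^ sqrt (2 * n) * 4 ^ (2 * n / 3) * (2 * n))
      = n * (2 * n) ^ (sqrt (2 * n) + 1) * 4 ^ (2 * n / 3) := by
    rw [pow_succ]
    ring
  rw [h0, ← @cast_le ℝ]
  simp only [cast_mul, cast_pow, ← Real.rpow_natCast, cast_ofNat, cast_add, cast_one]
  refine _root_.trans ?_ (real_main_inequality' (by exact_mod_cast n_large))
  gcongr
  · have n2_pos : 0 < 2 * n := by positivity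
    exact mod_cast n2_pos
  · exact_mod_cast Real.nat_sqrt_le_real_sqrt
  · norm_num1
  · exact cast_div_le.trans (by norm_cast)

/-- bound for the central binomial coefficient if there is at most one prime in `(n, 2 n]` -/
theorem centralBinom_le_of_one_prime (n : ℕ) (n_large : 2 < n) (P : ℕ)
    (hP : ∀ p : ℕ, p.Prime → n < p → p ≤ 2 * n → p = P) :
    centralBinom n ≤ (2 * n) ^ sqrt (2 * n) * 4 ^ (2 * n / 3) * (2 * n) := by
  classical
  have n_pos : 0 < n := (Nat.zero_le _).trans_lt n_large
  have n2_pos : 1 ≤ 2 * n := mul_pos (zero_lt_two' ℕ) n_pos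
  let f : ℕ → ℕ := fun x => x ^ n.centralBinom.factorization x
  have hfle : ∀ x, f x ≤ 2 * n := fun x => pow_factorization_choose_le (mul_pos two_pos n_pos)
  have hprod : centralBinom n = ∏ p ∈ Finset.range (2 * n + 1), f p :=
    n.prod_pow_factorization_centralBinom.symm
  have hsub : Finset.range (2 * n / 3 + 1) ⊆ Finset.range (2 * n + 1) := by
    grw [Nat.div_le_self]
  rw [hprod, ← Finset.prod_sdiff hsub, mul_comm]
  apply mul_le_mul'
  · -- small primes, as in Mathlib
    let S := {p ∈ Finset.range (2 * n / 3 + 1) | Nat.Prime p}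
    have : ∏ x ∈ S, f x = ∏ x ∈ Finset.range (2 * n / 3 + 1), f x := by
      refine Finset.prod_filter_of_ne fun p _ h => ?_
      contrapose h; dsimp only [f]
      rw [factorization_eq_zero_of_not_prime n.centralBinom h, _root_.pow_zero]
    rw [← this, ← Finset.prod_filter_mul_prod_filter_not S (· ≤ sqrt (2 * n))]
    apply mul_le_mul'
    · refine (Finset.prod_le_prod' fun p _ => (hfle p : f p ≤ 2 * n)).trans ?_
      have : (Finset.Icc 1 (sqrt (2 * n))).card = sqrt (2 * n) := by
        rw [card_Icc, Nat.add_sub_cancel]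
      rw [Finset.prod_const]
      refine pow_right_mono₀ n2_pos ((Finset.card_le_card fun x hx => ?_).trans this.le)
      obtain ⟨h1, h2⟩ := Finset.mem_filter.1 hx
      exact Finset.mem_Icc.mpr ⟨(Finset.mem_filter.1 h1).2.one_lt.le, h2⟩
    · refine le_trans ?_ (primorial_le_four_pow (2 * n / 3))
      refine (Finset.prod_le_prod' fun p hp => (?_ : f p ≤ p)).trans ?_
      · obtain ⟨h1, h2⟩ := Finset.mem_filter.1 hp
        refine (pow_right_mono₀ (Finset.mem_filter.1 h1).2.one_lt.le ?_).trans (pow_one p).le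
        exact Nat.factorization_choose_le_one (sqrt_lt'.mp <| not_le.1 h2)
      refine Finset.prod_le_prod_of_subset_of_one_le' (Finset.filter_subset _ _) ?_
      exact fun p hp _ => (Finset.mem_filter.1 hp).2.one_lt.le
  · -- the exceptional prime
    calc ∏ x ∈ Finset.range (2 * n + 1) \ Finset.range (2 * n / 3 + 1), f x
        ≤ ∏ x ∈ Finset.range (2 * n + 1) \ Finset.range (2 * n / 3 + 1),
          (if x = P then 2 * n else 1) := by
          refine Finset.prod_le_prod' fun x hx => ?_
          rw [Finset.mem_sdiff, Finset.mem_range, Finset.mem_range, Nat.lt_succ_iff] at hx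
          obtain ⟨hx1, hx2⟩ := hx
          split_ifs with h
          · exact hfle x
          · have h3 : 2 * n < 3 * x := by omega
            have h4 : ¬ x.Prime ∨ x ≤ n := by
              by_contra hcon
              push Not at hcon
              exact h (hP x hcon.1 hcon.2 hx1)
            rcases h4 with h4 | h4
            · simp only [f]
              rw [factorization_eq_zero_of_not_prime n.centralBinom h4, Nat.pow_zero]
            · simp only [f]
              rw [factorization_centralBinom_of_two_mul_self_lt_three_mul n_large h4 h3,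
                Nat.pow_zero]
      _ ≤ 2 * n := by
          rw [Finset.prod_ite_eq']
          split_ifs
          · exact le_rfl
          · exact n2_pos

theorem exists_good_prime_large (n : ℕ) (n_large : 512 ≤ n) :
    ∃ p : ℕ, p.Prime ∧ n < p ∧ p ≤ 2 * n ∧ ∀ b : ℕ, p + 1 ≠ 2 ^ b := by
  by_contra hcon
  push Not at hcon
  have no_prime : 4 ^ n < n * n.centralBinom :=
    Nat.four_pow_lt_mul_centralBinom n (le_trans (by norm_num1) n_large)
  obtain ⟨P, hP⟩ : ∃ P : ℕ, ∀ p : ℕ, p.Prime → n < p → p ≤ 2 * n → p = P := by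
    by_cases h : ∃ P : ℕ, P.Prime ∧ n < P ∧ P ≤ 2 * n
    · obtain ⟨P, h1, h2, h3⟩ := h
      refine ⟨P, fun p h4 h5 h6 => ?_⟩
      obtain ⟨a, ha⟩ := hcon P h1 h2 h3
      obtain ⟨b, hb⟩ := hcon p h4 h5 h6
      rcases lt_trichotomy a b with h7 | h7 | h7
      · exfalso
        have h8 : 2 ^ (a + 1) ≤ 2 ^ b := Nat.pow_le_pow_right (by norm_num) h7
        rw [pow_succ] at h8
        omega
      · rw [h7] at ha
        omega
      · exfalso
        have h8 : 2 ^ (b + 1) ≤ 2 ^ a := Nat.pow_le_pow_right (by norm_num) h7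
        rw [pow_succ] at h8
        omega
    · push Not at h
      exact ⟨0, fun p h4 h5 h6 => absurd h6 (not_le.2 (h p h4 h5))⟩
  have h1 := centralBinom_le_of_one_prime n (lt_of_lt_of_le (by norm_num1) n_large) P hP
  have h2 := main_inequality' n_large
  have h3 := Nat.mul_le_mul_left n h1
  omega

theorem not_mersenne {p k : ℕ} (h1 : 2 ^ k < p + 1) (h2 : p + 1 < 2 ^ (k + 1)) (b : ℕ) :
    p + 1 ≠ 2 ^ b := by
  intro h
  rw [h] at h1 h2
  have h3 := (Nat.pow_lt_pow_iff_right (by norm_num)).1 h1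
  have h4 := (Nat.pow_lt_pow_iff_right (by norm_num)).1 h2
  omega

/-- A non-Mersenne prime between `m` and `2 m`. -/
theorem exists_good_prime (m : ℕ) (hm : 6 ≤ m) :
    ∃ p : ℕ, p.Prime ∧ m < p ∧ p ≤ 2 * m ∧ ∀ b : ℕ, p + 1 ≠ 2 ^ b := by
  rcases Nat.lt_or_ge m 11 with h | h
  · exact ⟨11, by norm_num, h, by omega, not_mersenne (k := 3) (by norm_num) (by norm_num)⟩
  rcases Nat.lt_or_ge m 19 with h | h
  · exact ⟨19, by norm_num, h, by omega, not_mersenne (k := 4) (by norm_num) (by norm_num)⟩
  rcases Nat.lt_or_ge m 37 with h | h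
  · exact ⟨37, by norm_num, h, by omega, not_mersenne (k := 5) (by norm_num) (by norm_num)⟩
  rcases Nat.lt_or_ge m 73 with h | h
  · exact ⟨73, by norm_num, h, by omega, not_mersenne (k := 6) (by norm_num) (by norm_num)⟩
  rcases Nat.lt_or_ge m 139 with h | h
  · exact ⟨139, by norm_num, h, by omega, not_mersenne (k := 7) (by norm_num) (by norm_num)⟩
  rcases Nat.lt_or_ge m 277 with h | h
  · exact ⟨277, by norm_num, h, by omega, not_mersenne (k := 8) (by norm_num) (by norm_num)⟩
  rcases Nat.lt_or_ge m 547 with h | h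
  · exact ⟨547, by norm_num, h, by omega, not_mersenne (k := 9) (by norm_num) (by norm_num)⟩
  · exact exists_good_prime_large m (by omega)

/-- For `n ≥ 12` there is a non-Mersenne prime `q` with `q ≤ n < 2 q`. -/
theorem exists_degree_prime (n : ℕ) (hn : 12 ≤ n) :
    ∃ q : ℕ, q.Prime ∧ 5 ≤ q ∧ (∀ b : ℕ, q + 1 ≠ 2 ^ b) ∧ q ≤ n ∧ n < 2 * q := by
  obtain ⟨p, h1, h2, h3, h4⟩ := exists_good_prime (n / 2) (by omega)
  exact ⟨p, h1, by omega, h4, by omega, by omega⟩

end Nat

end Pool.Agent.H72.Exact
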