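import Pool.Agent.H72.Exact.SymUp
import Pool.Agent.H7.Alt.TwoC

/-!
Alternating groups: values on involutions, for degree at most `n - 2`.
-/

open Finset Equiv Equiv.Perm

namespace Pool.Agent.H72.Exact

open Pool.Agent.H7.HB

set_option linter.unusedSectionVars false

section step1

variable {k : ℕ} {θ : Multiplicative (Fin k → ZMod 2) → ℂ}

theorem step1F' (hk : 9 ≤ k) (h : Heil θ) {r : ℕ} (hr : θ 1 = (2 * r : ℕ)) (hrk : r + 1 ≤ 2 * k)
    (hw : ∀ e e', wt e = wt e' → θ e = θ e') (hodd : ∀ e, ¬ Even (wt e) → θ e = 0) :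
    ∃ d : ℕ, d ≤ 1 ∧ ∀ e, Even (wt e) → θ e = 2 * (r : ℂ) - d * (4 * wt e : ℕ) := by
  classical
  let M : Finset (Fin k) → ℕ := fun T => mult h (MonoidHom.id _) (kT T)
  have hMc : ∀ T T', #T = #T' → M T = M T' := mult_card h hw
  have hMs : ∀ T, M Tᶜ = M T := by
    intro T
    have h1 := mult_sum h (MonoidHom.id _) (kT T)
    have h2 := mult_sum h (MonoidHom.id _) (kT Tᶜ)
    have h3 : ∑ a, θ ((MonoidHom.id _) a) * (((kT Tᶜ a)⁻¹ : ℂˣ) : ℂ)
        = ∑ a, θ ((MonoidHom.id _) a) * (((kT T a)⁻¹ : ℂˣ) : ℂ) := by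
      refine Finset.sum_congr rfl fun a _ => ?_
      by_cases ha : Even (wt a)
      · rw [kT_compl ha]
      · rw [MonoidHom.id_apply, hodd a ha, zero_mul, zero_mul]
    rw [h3, h1] at h2
    have h4 : (Fintype.card (Multiplicative (Fin k → ZMod 2)) : ℂ) ≠ 0 := card_ne_zero'
    have h5 := mul_right_cancel₀ h4 h2
    exact_mod_cast h5.symm
  have hexp : ∀ e, θ e = ∑ T : Finset (Fin k), (M T : ℂ) * ((kT T e : ℂˣ) : ℂ) := by
    intro e
    have h1 := expand h (MonoidHom.id _) e
    rw [sum_kT] at h1
    exact h1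
  have hrsum : 2 * r = ∑ T : Finset (Fin k), M T := by
    have h1 := hexp 1
    rw [hr] at h1
    simp only [map_one, Units.val_one, mul_one] at h1
    exact_mod_cast h1
  -- total mass of one level
  have hlevel : ∀ w (T : Finset (Fin k)), #T = w → k.choose w * M T ≤ 2 * r := by
    intro w T hT
    rw [hrsum]
    calc k.choose w * M T = ∑ T' ∈ powersetCard w (univ : Finset (Fin k)), M T := by
          rw [sum_const, card_powersetCard, card_univ, Fintype.card_fin, smul_eq_mul]
      _ = ∑ T' ∈ powersetCard w (univ : Finset (Fin k)), M T' := by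
          refine Finset.sum_congr rfl fun T' hT' => hMc _ _ ?_
          rw [hT, (mem_powersetCard.1 hT').2]
      _ ≤ ∑ T', M T' := Finset.sum_le_sum_of_subset (Finset.subset_univ _)
  have hmid : ∀ T : Finset (Fin k), 2 ≤ #T → #T + 2 ≤ k → M T = 0 := by
    intro T h1 h2
    by_contra h3
    have h4 := hlevel _ T rfl
    have h5 := choose_two_le k _ h1 h2
    have h6 : k.choose (#T) ≤ k.choose (#T) * M T := Nat.le_mul_of_pos_right _ (by omega)
    have h7 : k.choose 2 ≤ 4 * k - 2 := by omega
    rw [Nat.choose_two_right] at h7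
    have h8 : 9 * (k - 1) ≤ k * (k - 1) := Nat.mul_le_mul_right _ hk
    omega
  have h0k : (0 : ℕ) < k := by omega
  let b0 : Fin k := ⟨0, h0k⟩
  let d0 := M {b0}
  let d1 := M {b0}ᶜ
  have hd01 : d1 = d0 := hMs _
  have hd0 : ∀ b, M {b} = d0 := fun b => hMc _ _ (by simp)
  have hd1 : ∀ b, M {b}ᶜ = d1 := fun b => hMc _ _ (by rw [card_compl, card_compl]; simp)
  have hinj1 : Function.Injective (fun b : Fin k => ({b} : Finset (Fin k))) :=
    fun a b hab => Finset.singleton_injective hab
  have hinj2 : Function.Injective (fun b : Fin k => ({b}ᶜ : Finset (Fin k))) :=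
    fun a b hab => Finset.singleton_injective (compl_injective hab)
  have hdisj : Disjoint (univ.image (fun b : Fin k => ({b} : Finset (Fin k))))
      (univ.image (fun b : Fin k => ({b}ᶜ : Finset (Fin k)))) := by
    rw [Finset.disjoint_left]
    intro T h1 h2
    rw [mem_image] at h1 h2
    obtain ⟨a, _, rfl⟩ := h1
    obtain ⟨b, _, hb⟩ := h2
    have := congrArg Finset.card hb
    rw [card_compl, card_singleton, card_singleton, Fintype.card_fin] at this
    omega
  -- sums of functions vanishing outside the two levels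
  have hsum : ∀ F : Finset (Fin k) → ℂ, (∀ T, F T ≠ 0 → #T = 1 ∨ #T + 1 = k) →
      ∑ T, F T = ∑ b : Fin k, F {b} + ∑ b : Fin k, F {b}ᶜ := by
    intro F hF
    rw [← Finset.sum_image (f := F) (g := fun b : Fin k => ({b} : Finset (Fin k)))
      (fun a _ b _ hab => hinj1 hab),
      ← Finset.sum_image (f := F) (g := fun b : Fin k => ({b}ᶜ : Finset (Fin k)))
      (fun a _ b _ hab => hinj2 hab), ← Finset.sum_union hdisj]
    symm
    apply Finset.sum_subset (Finset.subset_univ _)
    intro T _ hT
    by_contra hne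
    apply hT
    rw [mem_union, mem_image, mem_image]
    rcases hF T hne with h1 | h1
    · left
      obtain ⟨b, rfl⟩ := Finset.card_eq_one.1 h1
      exact ⟨b, mem_univ _, rfl⟩
    · right
      have h2 : #(Tᶜ) = 1 := by
        rw [card_compl, Fintype.card_fin]
        omega
      obtain ⟨b, hb⟩ := Finset.card_eq_one.1 h2
      exact ⟨b, mem_univ _, by rw [← hb, compl_compl]⟩
  have hd : d0 ≤ 1 := by
    have h1 : k * d0 + k * d1 ≤ 2 * r := by
      rw [hrsum]
      have h2 : ∑ b : Fin k, M {b} + ∑ b : Fin k, M {b}ᶜ = k * d0 + k * d1 := by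
        simp_rw [hd0, hd1]
        simp
      rw [← h2, ← Finset.sum_image (f := M) (g := fun b : Fin k => ({b} : Finset (Fin k)))
        (fun a _ b _ hab => hinj1 hab),
        ← Finset.sum_image (f := M) (g := fun b : Fin k => ({b}ᶜ : Finset (Fin k)))
        (fun a _ b _ hab => hinj2 hab), ← Finset.sum_union hdisj]
      exact Finset.sum_le_sum_of_subset (Finset.subset_univ _)
    rw [hd01] at h1
    by_contra h3
    have h4 : k * 2 ≤ k * d0 := Nat.mul_le_mul_left _ (by omega)
    omega
  refine ⟨d0, hd, fun e he => ?_⟩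
  have hval : ∀ b : Fin k, ((kT {b} e : ℂˣ) : ℂ) = if e.toAdd b ≠ 0 then -1 else 1 := by
    intro b
    rw [kT_apply, Finset.prod_singleton]
    by_cases hb : e.toAdd b = 0
    · simp [s2, hb]
    · simp [s2, hb]
  have hcompl : ∀ b : Fin k, ((kT {b}ᶜ e : ℂˣ) : ℂ) = ((kT {b} e : ℂˣ) : ℂ) := by
    intro b
    rw [kT_compl he]
  have hdiff : (2 * r : ℂ) - θ e
      = ∑ T : Finset (Fin k), (M T : ℂ) * (1 - ((kT T e : ℂˣ) : ℂ)) := by
    rw [hexp e]
    simp only [mul_sub, mul_one, Finset.sum_sub_distrib]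
    congr 1
    exact_mod_cast hrsum
  rw [hsum] at hdiff
  · simp_rw [hd0, hd1, hd01, hcompl, hval] at hdiff
    have h1 : ∀ c : ℂ, ∑ b : Fin k, c * (1 - (if e.toAdd b ≠ 0 then (-1 : ℂ) else 1))
        = c * (2 * wt e) := by
      intro c
      rw [← Finset.mul_sum]
      congr 1
      have h2 : ∀ b : Fin k, (1 - (if e.toAdd b ≠ 0 then (-1 : ℂ) else 1))
          = if e.toAdd b ≠ 0 then (2 : ℂ) else 0 := by
        intro b
        split_ifs <;> norm_num
      simp_rw [h2]
      rw [← Finset.sum_filter, sum_const, nsmul_eq_mul]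
      unfold wt
      ring
    rw [h1] at hdiff
    push_cast
    linear_combination -hdiff
  · intro T hT
    by_contra hcon
    push Not at hcon
    obtain ⟨hc1, hc2⟩ := hcon
    apply hT
    by_cases h0 : #T = 0
    · rw [Finset.card_eq_zero.1 h0, kT_apply]
      simp
    · have hle : #T ≤ k := by
        have := Finset.card_le_univ T
        rwa [Fintype.card_fin] at this
      by_cases h1 : #T = k
      · have hT' : Tᶜ = ∅ := by
          rw [← Finset.card_eq_zero, card_compl, Fintype.card_fin]
          omega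
        have h2 := kT_compl he T
        rw [hT', kT_apply ∅, Finset.prod_empty] at h2
        rw [← h2]
        simp
      · have h2 := hmid T (by omega) (by omega)
        rw [h2]
        simp

end step1

variable {α : Type} [Fintype α] [DecidableEq α] {T : Perm α → ℂ}

/-- the values on even involutions -/
theorem even_involutionsA' (h : HeilA T)
    {r : ℕ} (hr : T 1 = r) (hn : 18 ≤ Fintype.card α) (hrn : r + 2 ≤ Fintype.card α) :
    ∃ d : ℕ, d ≤ 1 ∧ ∀ x : Perm α, x ^ 2 = 1 → sign x = 1 → T x = (r : ℂ) - d * #x.support := by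
  classical
  obtain ⟨s, hs⟩ := exists_odd (α := α) (by omega)
  have hF := heil_indA h hs
  have hF1 : indA T s 1 = (2 * r : ℕ) := by
    rw [indA_even (by simp), mul_one, mul_inv_cancel, hr]
    push_cast
    ring
  let k := Fintype.card α / 2
  have hk : 9 ≤ k := by omega
  have hemb : Fintype.card (Fin k × ZMod 2) ≤ Fintype.card α := by
    rw [Fintype.card_prod, Fintype.card_fin, ZMod.card]
    omega
  obtain ⟨ι⟩ := Function.Embedding.nonempty_of_card_le hemb
  let f : Multiplicative (Fin k → ZMod 2) →* Perm α := (viaEmbeddingHom ι).comp (tr (Fin k) (ZMod 2))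
  have hf2 : ∀ e, (f e) ^ 2 = 1 := by
    intro e
    rw [← map_pow]
    have : e ^ 2 = 1 := by
      apply Multiplicative.toAdd.injective
      ext b
      rw [toAdd_pow, toAdd_one]
      simp only [Pi.smul_apply, Pi.zero_apply]
      have h2 : ∀ i : ZMod 2, 2 • i = 0 := by decide
      exact h2 _
    rw [this, map_one]
  have hfc : ∀ e, #(f e).support = 2 * wt e := by
    intro e
    change #(viaEmbeddingHom ι (tr (Fin k) (ZMod 2) e)).support = _
    rw [via_card, tr_support_card, ZMod.card]
    rfl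
  have hfs : ∀ e, sign (f e) = (-1) ^ wt e := by
    intro e
    rw [sign_of_sq (hf2 e), hfc]
    congr 1
    omega
  obtain ⟨d, hd, hd2⟩ := step1F' hk (hF.comp f) (r := r) (by rw [map_one, hF1]) (by omega)
    (fun e e' hee => hF.of_isConj (isConj_of_prime Nat.prime_two (hf2 e) (hf2 e')
      (by rw [hfc, hfc, hee])))
    (fun e he => indA_odd (by
      rw [hfs, (Nat.not_even_iff_odd.1 he).neg_one_pow]
      decide))
  refine ⟨d, hd, fun x hx hs' => ?_⟩
  have h1 := even_half_of_sign hx hs'
  have h2 : 2 ∣ #x.support := two_dvd_card_support hx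
  have h3 : #x.support ≤ Fintype.card α := Finset.card_le_univ _
  -- element of weight #supp/2
  obtain ⟨S, hS⟩ : ∃ S : Finset (Fin k), #S = #x.support / 2 := by
    obtain ⟨S, -, hS⟩ := Finset.exists_subset_card_eq (s := (univ : Finset (Fin k)))
      (n := #x.support / 2) (by rw [card_univ, Fintype.card_fin]; omega)
    exact ⟨S, hS⟩
  let e : Multiplicative (Fin k → ZMod 2) := Multiplicative.ofAdd fun b => if b ∈ S then 1 else 0
  have hwe : wt e = #x.support / 2 := by
    rw [← hS]
    unfold wt
    congr 1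
    ext b
    by_cases hb : b ∈ S
    · simp [e, hb]
    · simp [e, hb]
  have h4 : indA T s x = indA T s (f e) := by
    refine hF.of_isConj (isConj_of_prime Nat.prime_two hx (hf2 e) ?_)
    rw [hfc, hwe]
    omega
  have h5 := hd2 e (by rw [hwe]; exact h1)
  have h6 : indA T s x = 2 * T x := by
    rw [indA_even hs']
    have h7 : T (s * x * s⁻¹) = T x := (h.of_isConj hs' (safe_of_sq hx (by omega))
      (isConj_iff.2 ⟨s, rfl⟩)).symm
    rw [h7]
    ring
  rw [h6] at h4
  rw [← h4, hwe] at h5
  have h8 : ((4 * (#x.support / 2) : ℕ) : ℂ) = 2 * (#x.support : ℂ) := by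
    have h9 : 4 * (#x.support / 2) = 2 * #x.support := by omega
    rw [h9]
    push_cast
    ring
  rw [h8] at h5
  linear_combination (1 / 2) * h5

end Pool.Agent.H72.Exact
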