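import Pool.Agent.H72.Exact.AltInv

/-!
Alternating groups, case two: values on nice permutations, and the contradiction for composite
degree.
-/

open Finset Equiv Equiv.Perm

namespace Pool.Agent.H72.Exact

open Pool.Agent.H7.HB

set_option linter.unusedSectionVars false

/-! ### two cycles of the same prime length `q ≥ 5` -/

section pair

variable {G : Type} [Group G] [Finite G] {θ : G → ℂ} {r q : ℕ} [Fact q.Prime]

theorem x00_gen (h : Heil θ) (hr : θ 1 = r) (hq2 : q ≠ 2)
    (Φ : Multiplicative (ZMod q) × Multiplicative (ZMod q) →* G) (s : G)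
    (hs : ∀ e, s * Φ e * s⁻¹ = Φ (MulEquiv.inv _ e)) (hval : θ s = (r : ℂ) - (2 * (q - 1) : ℕ)) :
    (r : ℤ) ≤ mult h Φ 1 + 2 * ((q : ℤ) - 1) := by
  have hprime : q.Prime := Fact.out
  have hconst : ∀ e, θ (Φ e * s) = θ s := by
    intro e
    have := split h Φ s (MulEquiv.inv _) hs e
      (fun κ _ hκ => by
        have h1 := hκ e
        have h2 : κ (MulEquiv.inv _ e) = (κ e)⁻¹ := by
          have h3 : MulEquiv.inv _ e = e⁻¹ := rfl
          rw [h3, map_inv]
        rw [h2] at h1
        have h3 : (κ e) ^ 2 = 1 := by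
          have h4 : κ e * κ e = 1 := by
            conv_lhs =>
              lhs
              rw [← h1]
            exact inv_mul_cancel _
          rw [pow_two, h4]
        have h4 : (κ e) ^ q = 1 := by
          rw [← map_pow]
          have : e ^ q = 1 := Prod.ext (mulZ_pow q e.1) (mulZ_pow q e.2)
          rw [this, map_one]
        obtain ⟨k, hk⟩ := hprime.odd_of_ne_two hq2
        calc κ e = (κ e) ^ (2 * k + 1) := by
              rw [pow_add, pow_mul, h3, one_pow, one_mul, pow_one]
          _ = (κ e) ^ q := by rw [← hk]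
          _ = 1 := h4) 1
    rwa [one_mul, map_one, one_mul] at this
  have h1 := norm_le_mult_one h Φ s (MulEquiv.inv _) hs hconst
  have h2 : ((r : ℝ) - (2 * (q - 1) : ℕ)) ≤ ‖θ s‖ := by
    have h3 := Complex.re_le_norm (θ s)
    rw [hval] at h3 ⊢
    simpa using h3
  have h3 : (r : ℝ) - (2 * (q - 1) : ℕ) ≤ mult h Φ 1 := h2.trans h1
  have h4 : ((r : ℤ) : ℝ) - (((2 * (q - 1) : ℕ) : ℤ) : ℝ)
      ≤ ((mult h Φ 1 : ℤ) : ℝ) := by
    exact_mod_cast h3
  have h5 : (r : ℤ) - ((2 * (q - 1) : ℕ) : ℤ) ≤ (mult h Φ 1 : ℤ) := by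
    exact_mod_cast h4
  have h6 : ((2 * (q - 1) : ℕ) : ℤ) = 2 * ((q : ℤ) - 1) := by
    have := hprime.one_lt
    push_cast [this.le]
    ring
  rw [h6] at h5
  linarith

theorem pair_values (h : Heil θ) (hr : θ 1 = r) (h5 : 5 ≤ q)
    (Φ : Multiplicative (ZMod q) × Multiplicative (ZMod q) →* G) (s : G)
    (hs : ∀ e, s * Φ e * s⁻¹ = Φ (MulEquiv.inv _ e)) (hval : θ s = (r : ℂ) - (2 * (q - 1) : ℕ))
    {a b : ℂ} (hA1 : ∀ e, e ≠ 1 → θ (Φ (e, 1)) = a) (hA2 : ∀ e, e ≠ 1 → θ (Φ (1, e)) = a)
    (hB : ∀ e e', e ≠ 1 → e' ≠ 1 → θ (Φ (e, e')) = b) (hbr : b ≠ r) :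
    b = (r : ℂ) - 2 * q := by
  classical
  have hq : q.Prime := Fact.out
  let M := Multiplicative (ZMod q)
  obtain ⟨χ, hχ⟩ := exists_char q
  have hcM : (Fintype.card M : ℂ) = q := by
    rw [show Fintype.card M = q from card_M q]
  have E00 := mult_pair h Φ hr hA1 hA2 hB 1
  rw [if_pos (by ext; rfl), if_pos (by ext; rfl), hcM] at E00
  have E10 := mult_pair h Φ hr hA1 hA2 hB (χ.comp (MonoidHom.fst M M))
  rw [if_neg (by
    intro h'
    apply hχ
    ext e
    exact congrArg (fun u : ℂˣ => (u : ℂ)) (DFunLike.congr_fun h' e)),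
    if_pos (by
      ext e
      change ((χ 1 : ℂˣ) : ℂ) = 1
      rw [map_one, Units.val_one]), hcM] at E10
  have E11 := mult_pair h Φ hr hA1 hA2 hB
    ((χ.comp (MonoidHom.fst M M)) * (χ.comp (MonoidHom.snd M M)))
  rw [if_neg (by
    intro h'
    apply hχ
    ext e
    have h2 := congrArg (fun u : ℂˣ => (u : ℂ)) (DFunLike.congr_fun h' e)
    change ((χ e * χ 1 : ℂˣ) : ℂ) = 1 at h2
    rw [map_one, mul_one] at h2
    exact h2), if_neg (by
    intro h'
    apply hχ
    ext e
    have h2 := congrArg (fun u : ℂˣ => (u : ℂ)) (DFunLike.congr_fun h' e)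
    change ((χ 1 * χ e : ℂˣ) : ℂ) = 1 at h2
    rw [map_one, one_mul] at h2
    exact h2), hcM] at E11
  have hbound := x00_gen h hr (by omega) Φ s hs hval
  generalize mult h Φ (1 : M × M →* ℂˣ) = x00 at E00 hbound
  generalize mult h Φ _ = x10 at E10
  generalize mult h Φ _ = x11 at E11
  have hq0 : (q : ℂ) ≠ 0 := by exact_mod_cast hq.ne_zero
  have hsumC : ((x00 : ℂ) + 2 * (q - 1) * x10 + (q - 1) ^ 2 * x11) = r := by
    have h1 : ((x00 : ℂ) + 2 * (q - 1) * x10 + (q - 1) ^ 2 * x11) * (q * q) = r * (q * q) := by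
      linear_combination E00 + 2 * ((q : ℂ) - 1) * E10 + ((q : ℂ) - 1) ^ 2 * E11
    exact mul_right_cancel₀ (mul_ne_zero hq0 hq0) h1
  have hsumZ : ((x00 : ℤ) + 2 * (q - 1) * x10 + (q - 1) ^ 2 * x11) = r := by
    exact_mod_cast hsumC
  have h6 : (5 : ℤ) ≤ q := by exact_mod_cast h5
  have hle : 2 * (x10 : ℤ) + ((q : ℤ) - 1) * x11 ≤ 2 := by
    have h1 : ((q : ℤ) - 1) * (2 * (x10 : ℤ) + ((q : ℤ) - 1) * x11) ≤ ((q : ℤ) - 1) * 2 := by
      nlinarith
    have h2 : (0 : ℤ) < (q : ℤ) - 1 := by linarith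
    exact le_of_mul_le_mul_left h1 h2
  have hx11 : x11 = 0 := by
    by_contra hne
    have h5 : (1 : ℤ) ≤ x11 := by
      have : 1 ≤ x11 := by omega
      exact_mod_cast this
    nlinarith
  subst hx11
  have hx10 : x10 = 1 := by
    have h1 : x10 ≤ 1 := by
      push_cast at hle
      omega
    by_contra hne
    have h0 : x10 = 0 := by omega
    subst h0
    apply hbr
    push_cast at E10 E11
    have h2 : (a - b) * (q : ℂ) = 0 := by linear_combination -E10 + E11
    have h3 : a - b = 0 := by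
      rcases mul_eq_zero.1 h2 with h4 | h4
      · exact h4
      · exact absurd h4 hq0
    linear_combination E11 - 2 * h3
  subst hx10
  push_cast at E10 E11
  have h2 : (a - b) * (q : ℂ) = q * q := by linear_combination -E10 + E11
  have h3 : a - b = q := mul_right_cancel₀ hq0 h2
  linear_combination E11 - 2 * h3

end pair

section

variable {α : Type} [Fintype α] [DecidableEq α] {T : Perm α → ℂ} {r : ℕ}

theorem two_cycles_neA (hT : TwoA T r) {q : ℕ} [Fact q.Prime] (hq2 : q ≠ 2)
    (ι : ZMod q × ZMod 2 ↪ α) : T (viaEmbeddingHom ι (hsh q)) ≠ r := by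
  classical
  intro heq
  have hprime : q.Prime := Fact.out
  have hqo : Odd q := hprime.odd_of_ne_two hq2
  let φ : Multiplicative (ZMod q → ZMod 2) →* Perm α :=
    (viaEmbeddingHom ι).comp ((tr (ZMod q) (ZMod 2)).comp (dA q))
  have hφ : ∀ e, φ e = viaEmbeddingHom ι (tr (ZMod q) (ZMod 2) (dA q e)) := fun _ => rfl
  have hφs : ∀ e, sign (φ e) = 1 := by
    intro e
    rw [hφ, via_sign, dA_apply, map_mul, map_inv, ← hsh_conj, Perm.sign_mul, Perm.sign_inv,
      Perm.sign_mul, Perm.sign_mul, Perm.sign_inv]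
    rcases Int.units_eq_one_or (sign (hsh q)) with h3 | h3 <;>
    rcases Int.units_eq_one_or (sign (tr (ZMod q) (ZMod 2) e)) with h4 | h4 <;>
    rw [h3, h4] <;> decide
  have hσ : ∀ e, viaEmbeddingHom ι (hsh q) * φ e * (viaEmbeddingHom ι (hsh q))⁻¹
      = φ (shA q e) := by
    intro e
    rw [hφ, hφ, ← map_inv, ← map_mul, ← map_mul, hsh_conj, dA_apply, dA_apply, map_mul, map_inv]
  have hgq : (viaEmbeddingHom ι (hsh q)) ^ q = 1 := by rw [← map_pow, hsh_pow, map_one]
  have hgs : sign (viaEmbeddingHom ι (hsh q)) = 1 := sign_of_odd_pow hqo hgq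
  have hgc : #(viaEmbeddingHom ι (hsh q)).support = 2 * q := by rw [via_card, hsh_support]
  have hsafe : Safe (viaEmbeddingHom ι (hsh q)) := by
    refine safe_of_count (i := q) ?_
    rw [card_cycleType_of_prime hprime hgq, Multiset.count_replicate_self, hgc,
      Nat.mul_div_cancel _ hprime.pos]
  have hc : ∀ e, T (φ e * viaEmbeddingHom ι (hsh q)) = T (viaEmbeddingHom ι (hsh q)) := by
    intro e
    rw [hφ, ← map_mul, tr_dA_h, map_mul, map_mul, map_inv]
    exact (hT.heil.of_isConj hgs hsafe (isConj_iff.2 ⟨_, rfl⟩)).symm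
  let ga : alternatingGroup α := ⟨viaEmbeddingHom ι (hsh q), mem_alternatingGroup.2 hgs⟩
  have h1 := norm_le_mult_one hT.heil (liftA φ hφs) ga (shA q)
    (fun e => Subtype.ext (hσ e)) (fun e => hc e)
  have h1' : ‖T (viaEmbeddingHom ι (hsh q))‖ ≤ mult hT.heil (liftA φ hφs) 1 := h1
  rw [heq, Complex.norm_natCast] at h1'
  let e0 : Multiplicative (ZMod q → ZMod 2) := Multiplicative.ofAdd (Pi.single 0 1)
  have h2 := of_mult_one hT.heil (liftA φ hφs) hT.hr (by exact_mod_cast h1') e0
  have h2' : T (φ e0) = r := h2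
  have hsq : (φ e0) ^ 2 = 1 := by
    rw [← map_pow]
    have : e0 ^ 2 = 1 := by
      apply Multiplicative.toAdd.injective
      ext b
      rw [toAdd_pow, toAdd_one]
      simp only [Pi.smul_apply, Pi.zero_apply]
      have h2 : ∀ i : ZMod 2, 2 • i = 0 := by decide
      exact h2 _
    rw [this, map_one]
  have h3 := hT.inv _ hsq (hφs e0)
  rw [h2'] at h3
  have h4 : (#(φ e0).support : ℂ) = 0 := by linear_combination h3
  have h5 : #(φ e0).support = 0 := by exact_mod_cast h4
  rw [hφ, via_card, Finset.card_eq_zero, support_eq_empty_iff] at h5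
  have h6 := congrArg (fun x : Perm (ZMod q × ZMod 2) => (x (0, 0)).2) h5
  simp only [tr_apply, one_apply, zero_add] at h6
  rw [dA_apply, toAdd_mul, toAdd_inv, Pi.add_apply, Pi.neg_apply, shA_apply] at h6
  have h7 : (0 : ZMod q) - 1 ≠ 0 := by simp
  simp only [e0, toAdd_ofAdd, Pi.single_eq_same, Pi.single_eq_of_ne h7] at h6
  exact absurd h6 (by decide)

theorem lemmaQ2A (hT : TwoA T r) {q : ℕ} (hq : q.Prime) (h5 : 5 ≤ q)
    (hqn : 2 * q ≤ Fintype.card α) (x : Perm α) (hx : x ^ q = 1) (hxc : #x.support = 2 * q) :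
    T x = (r : ℂ) - 2 * q := by
  classical
  have : Fact q.Prime := ⟨hq⟩
  have hq2 : q ≠ 2 := by omega
  have hqo : Odd q := hq.odd_of_ne_two hq2
  let M := Multiplicative (ZMod q)
  have h1ne := ofAdd_one_ne q
  have hemb : Fintype.card (ZMod q ⊕ ZMod q) ≤ Fintype.card α := by
    simp only [Fintype.card_sum, ZMod.card]
    omega
  obtain ⟨ι⟩ := Function.Embedding.nonempty_of_card_le hemb
  have hemb' : Fintype.card (ZMod q × ZMod 2) ≤ Fintype.card α := by
    simp only [Fintype.card_prod, ZMod.card]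
    omega
  obtain ⟨ι'⟩ := Function.Embedding.nonempty_of_card_le hemb'
  let a := T (pairP ι (Multiplicative.ofAdd 1, 1))
  let b := T (pairP ι (Multiplicative.ofAdd 1, Multiplicative.ofAdd 1))
  have ha : ∀ x : Perm α, x ^ q = 1 → #x.support = q → T x = a := by
    intro x hx hxc
    refine hT.heil.of_isConj (sign_of_odd_pow hqo hx) (safe_of_card (by omega))
      (isConj_of_prime hq hx (pairP_pow ι _) ?_)
    rw [hxc, pairP_card]
    simp only [addP_card q h1ne, addP_one_card, add_zero]
  have hb : ∀ x : Perm α, x ^ q = 1 → #x.support = 2 * q → T x = b := by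
    intro x hx hxc
    refine hT.heil.of_isConj (sign_of_odd_pow hqo hx) ?_
      (isConj_of_prime hq hx (pairP_pow ι _) ?_)
    · refine safe_of_count (i := q) ?_
      rw [card_cycleType_of_prime hq hx, Multiset.count_replicate_self, hxc,
        Nat.mul_div_cancel _ hq.pos]
    · rw [hxc, pairP_card]
      simp only [addP_card q h1ne]
      ring
  have hbr : b ≠ r := by
    have h1 := two_cycles_neA hT hq2 ι'
    rw [hb (viaEmbeddingHom ι' (hsh q)) (by rw [← map_pow, hsh_pow, map_one])
      (by rw [via_card, hsh_support])] at h1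
    exact h1
  have hps : ∀ p, sign (pairP ι p) = 1 := fun p => sign_of_odd_pow hqo (pairP_pow ι p)
  -- the inverting involution
  let s : Perm α := viaEmbeddingHom ι (Perm.sumCongr (mulPerm (-1)) (mulPerm (-1)))
  have hm2 : (mulPerm (-1) : Perm (ZMod q)) ^ 2 = 1 := by
    ext i
    simp [mulPerm, pow_two]
  have hs2 : s ^ 2 = 1 := by
    change (viaEmbeddingHom ι (sumCongrHom _ _ (mulPerm (-1), mulPerm (-1)))) ^ 2 = 1
    rw [← map_pow, ← map_pow]
    have : ((mulPerm (-1), mulPerm (-1)) : Perm (ZMod q) × Perm (ZMod q)) ^ 2 = 1 :=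
      Prod.ext hm2 hm2
    rw [this, map_one, map_one]
  have hss : sign s = 1 := by
    change sign (viaEmbeddingHom ι (Perm.sumCongr (mulPerm (-1)) (mulPerm (-1)))) = 1
    rw [via_sign, sign_sumCongr]
    exact Int.units_mul_self _
  have hsc : #s.support = 2 * (q - 1) := by
    change #(viaEmbeddingHom ι (Perm.sumCongr (mulPerm (-1)) (mulPerm (-1)))).support = _
    rw [via_card, card_support_sumCongr, negP_card q hq2]
    ring
  have hval := hT.inv s hs2 hss
  rw [hsc] at hval
  let sa : alternatingGroup α := ⟨s, mem_alternatingGroup.2 hss⟩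
  have hA1 : ∀ e : M, e ≠ 1 → T (pairP ι (e, 1)) = a := fun e he =>
    ha _ (pairP_pow ι _) (by rw [pairP_card]; simp only [addP_card q he, addP_one_card, add_zero])
  have hA2 : ∀ e : M, e ≠ 1 → T (pairP ι (1, e)) = a := fun e he =>
    ha _ (pairP_pow ι _) (by rw [pairP_card]; simp only [addP_card q he, addP_one_card, zero_add])
  have hB : ∀ e e' : M, e ≠ 1 → e' ≠ 1 → T (pairP ι (e, e')) = b := fun e e' he he' =>
    hb _ (pairP_pow ι _) (by
      rw [pairP_card]; simp only [addP_card q he, addP_card q he']; ring)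
  have key := pair_values hT.heil hT.hr h5 (liftA (pairP ι) hps) sa
    (fun e => Subtype.ext (inv_conj_pair ι e)) hval (fun e he => hA1 e he)
    (fun e he => hA2 e he) (fun e e' he he' => hB e e' he he') hbr
  rw [hb x hx hxc, key]

theorem lemmaSA (hT : TwoA T r) {u : ℕ} (hu : Odd u)
    (hup : ∀ q : ℕ, q.Prime → q ∣ u → 2 * q + 2 ≤ Fintype.card α) (f : α → Bool)
    (g : Perm α) (hg : g ^ (2 * u) = 1) (hs : sign g = 1)
    (hf : ∀ y, g y ≠ y → f (g y) = !f y) : T g = (r : ℂ) - #g.support := by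
  classical
  induction hN : N g using Nat.strong_induction_on generalizing g with
  | _ N0 ih =>
  subst hN
  by_cases h2 : g ^ 2 = 1
  · exact hT.inv g h2 hs
  obtain ⟨x, q, m, hq, hqu, hm1, hme, hl⟩ := exists_cut hf hu hg h2
  have hm : 0 < m := by omega
  have hqn := hup q hq hqu
  have hqo : Odd q := odd_of_dvd hqu hu
  have hq2 : q ≠ 2 := by
    rintro rfl
    exact absurd hqo (by decide)
  have hz := cyc_isCycle hq.one_lt hm hl
  have hzc := cyc_card hq hm hl
  have hzs : sign (cyc g m x) = 1 := sign_of_order_odd hqo (cyc_pow hl)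
  have hx'θ := ih _ (cut_N hq.one_lt hm hl) ((cyc g m x)⁻¹ * g) (cut_pow_eq_one hm hl hg)
    (by rw [Perm.sign_mul, Perm.sign_inv, hzs, hs, one_mul])
    (fun y hy => cut_colour hf hq.one_lt hm1 hme hl y hy) rfl
  have hs : T ((cyc g m x)⁻¹ * g) = T g := by
    refine split_conjA hT.heil hs hzs (fun i => cyc_commute g m x i) ?_
    intro E _ _ φ κ a b hφ ha hb hmult hab
    have h1 : g * cyc g m x * g⁻¹ = cyc g m (g x) := by
      have := cyc_conj g m x 1
      rw [zpow_one, zpow_neg_one] at this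
      exact this
    have hdis : Disjoint (φ a : Perm α) (φ b) := by
      rw [ha, hb, h1]
      apply cycleOf_disjoint
      have := not_sameCycle_of hl (i := 1) (by
        intro h'
        have h'' : m ∣ 1 := by exact_mod_cast h'
        have := Nat.le_of_dvd one_pos h''
        omega)
      rwa [zpow_one] at this
    have hcyc2 : (φ b : Perm α).IsCycle := by
      rw [hb]
      exact hz.conj
    have hcard2 : #(φ b : Perm α).support = q := by
      rw [hb, ← sum_cycleType, cycleType_conj, sum_cycleType]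
      exact hzc
    have h2 := x11A hT hq hq2 hqn φ hφ κ a b (by rw [ha]; exact hz) (by rw [ha]; exact hzc)
      hcyc2 hcard2 hdis hmult
    rcases h2 with h2 | h2
    · exact h2
    · rw [hab, h2]
  rw [← hs, hx'θ, cut_support hq.one_lt hm1 hl]

theorem nice_valueA (hT : TwoA T r) {g : Perm α} (h : Nice g) :
    T g = (r : ℂ) - #g.support := by
  classical
  have hn := hT.hn
  have hne : Nonempty α := Fintype.card_pos_iff.1 (by omega)
  rcases h with ⟨h1, h2⟩ | ⟨l, h1, h2, h3, h4⟩ | ⟨u, f, h1, h2, h3, h4, h5⟩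
  · exact hT.inv g h1 h2
  · have hgl : g ^ l = 1 := by
      ext y
      have := ((h3 y).2 l).2 (dvd_refl _)
      rw [zpow_natCast] at this
      rw [this, one_apply]
    have hsupp : #g.support = Fintype.card α := by
      rw [← card_univ]
      congr 1
      ext y
      simp only [mem_support, mem_univ, iff_true]
      exact (h3 y).ne_one.2 (by omega)
    have hle := per_le (h3 (Classical.arbitrary α))
    have hl2 : l ≠ 2 := by
      rintro rfl
      exact absurd h1 (by decide)
    by_cases hlp : l.Prime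
    · have h5 := h4 hlp
      have hct := card_cycleType_of_prime hlp hgl
      have hdvd : l ∣ #g.support := by
        have h6 := sum_cycleType g
        rw [hct, Multiset.sum_replicate, smul_eq_mul] at h6
        exact ⟨_, by rw [mul_comm]; exact h6.symm⟩
      obtain ⟨c, hc⟩ := hdvd
      rw [hsupp] at hc
      have hc2 : 2 ≤ c := by
        by_contra hlt
        have : l * c ≤ l * 1 := Nat.mul_le_mul_left _ (by omega)
        omega
      by_cases h6 : 2 * l + 2 ≤ Fintype.card α
      · refine lemmaTA hT h1 (fun q hq hql => ?_) g hgl (Or.inl (safe_of_count (i := l) ?_))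
        · rw [(Nat.prime_dvd_prime_iff_eq hq hlp).1 hql]
          exact h6
        · rw [hct, Multiset.count_replicate_self, hsupp, hc,
            Nat.mul_div_cancel_left _ hlp.pos]
          exact hc2
      · have hc3 : c = 2 := by
          by_contra hne
          have : l * 3 ≤ l * c := Nat.mul_le_mul_left _ (by omega)
          omega
        rw [hc3] at hc
        have h7 := lemmaQ2A hT hlp (by omega) h5 g hgl (by rw [hsupp, hc, mul_comm])
        rw [h7, hsupp, hc]
        push_cast
        ring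
    · obtain ⟨q, hq, c, hc⟩ := Nat.exists_prime_and_dvd (show l ≠ 1 by omega)
      have hc1 : c ≠ 1 := by
        rintro rfl
        rw [mul_one] at hc
        rw [hc] at hlp
        exact hlp hq
      have hc0 : c ≠ 0 := by
        rintro rfl
        omega
      refine lemmaTA hT h1 (fun q' hq' hql' => ?_) g hgl
        (Or.inr ⟨Classical.arbitrary α, q, c, hq, by omega, by rw [← hc]; exact h3 _⟩)
      obtain ⟨c', hc'⟩ := hql'
      have hc'1 : c' ≠ 1 := by
        rintro rfl
        rw [mul_one] at hc'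
        rw [hc'] at hlp
        exact hlp hq'
      have hc'o : Odd c' := odd_of_dvd ⟨q', by rw [hc', mul_comm]⟩ h1
      have hq'o : Odd q' := odd_of_dvd ⟨c', hc'⟩ h1
      have hc'3 : 3 ≤ c' := by
        obtain ⟨k, hk⟩ := hc'o
        omega
      have hq'3 : 3 ≤ q' := by
        obtain ⟨k, hk⟩ := hq'o
        have := hq'.two_le
        omega
      have : q' * 3 ≤ q' * c' := Nat.mul_le_mul_left _ hc'3
      omega
  · exact lemmaSA hT h1 h2 f g h3 h4 h5

theorem two_falseA' (hT : TwoA T r) (hc : ¬ (Fintype.card α).Prime)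
    (hrn : r + 2 ≤ Fintype.card α) : False := by
  have hn := hT.hn
  have : Nonempty α := Fintype.card_pos_iff.1 (by omega)
  obtain ⟨K, _, _, ψ, htr, hN⟩ := hasNice_of_composite α (by omega) hc
  have := trans_bound hT.heil (liftA ψ fun k => (hN k).sign) ψ htr
    (fun k => nice_valueA hT (hN k))
  omega

/-- **Main theorem on Heilbronn class functions of alternating groups**: degree at most `n - 2`,
and at most `n - 3` if `n` is prime, forces a constant function. -/
theorem mainA' (h : HeilA T) (hr : T 1 = r) (hn : 18 ≤ Fintype.card α)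
    (hrn : r + 2 ≤ Fintype.card α) (hp : (Fintype.card α).Prime → r + 3 ≤ Fintype.card α)
    {g : Perm α} (hg : sign g = 1) : T g = r := by
  by_cases h3 : r + 3 ≤ Fintype.card α
  · exact mainA h hr hn h3 hg
  obtain ⟨d, hd, hinv⟩ := even_involutionsA' h hr hn hrn
  have hd' : d = 0 ∨ d = 1 := by omega
  rcases hd' with rfl | rfl
  · exact case_oneA h hr hn (fun x hx hs => by rw [hinv x hx hs]; simp) hg
  · exact (two_falseA' ⟨h, hr, hn, fun x hx hs => by rw [hinv x hx hs]; simp⟩
      (fun h' => h3 (hp h')) hrn).elim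

end

end Pool.Agent.H72.Exact
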