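import Mathlib

/-!
Groups of order prime to `q` normalised by a `q`-cycle, on fewer than `2 q` points.
-/

open Finset Equiv Equiv.Perm
open scoped Pointwise

namespace Pool.Agent.H72.Exact

set_option linter.unusedSectionVars false

variable {α : Type} [Fintype α] [DecidableEq α] {q : ℕ} [hq : Fact q.Prime]

theorem ex_order {c : Perm α} (h1 : c ≠ 1) (hc : c ^ q = 1) : orderOf c = q :=
  orderOf_eq_prime hc h1

theorem ex_isCycle (hn : Fintype.card α < 2 * q) {c : Perm α} (h1 : c ≠ 1) (hc : c ^ q = 1) :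
    c.IsCycle :=
  isCycle_of_prime_order' (by rw [ex_order h1 hc]; exact hq.out)
    (by rw [ex_order h1 hc]; exact hn)

theorem ex_card (hn : Fintype.card α < 2 * q) {c : Perm α} (h1 : c ≠ 1) (hc : c ^ q = 1) :
    #c.support = q := by
  rw [← (ex_isCycle hn h1 hc).orderOf, ex_order h1 hc]

theorem ex_trans (hn : Fintype.card α < 2 * q) {c : Perm α} (h1 : c ≠ 1) (hc : c ^ q = 1)
    {x y : α} (hx : x ∈ c.support) (hy : y ∈ c.support) : ∃ k : ℕ, (c ^ k) x = y :=
  (ex_isCycle hn h1 hc).exists_pow_eq (mem_support.1 hx) (mem_support.1 hy)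

theorem ex_fix (hn : Fintype.card α < 2 * q) {c : Perm α} (h1 : c ≠ 1) (hc : c ^ q = 1)
    {x : α} (hx : x ∈ c.support) {k : ℕ} (hk : (c ^ k) x = x) : c ^ k = 1 :=
  ((ex_isCycle hn h1 hc).pow_eq_one_iff' (mem_support.1 hx)).2 hk

theorem ex_pow_mem {c : Perm α} {x : α} (hx : x ∈ c.support) (k : ℕ) :
    (c ^ k) x ∈ c.support := pow_apply_mem_support.2 hx

/-- fixed points of a map of prime order on a set of size prime to `q` -/
theorem exists_fixed {S : Type} [Fintype S] (f : S → S) (hf : ∀ s, f^[q] s = s)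
    (hS : ¬ q ∣ Fintype.card S) : ∃ s, f s = s := by
  classical
  let F : Function.End S := f
  have hF : ∀ (n : ℕ) (s : S), (F ^ n) s = f^[n] s := by
    intro n
    induction n with
    | zero => intro s; rfl
    | succ n ih =>
      intro s
      rw [pow_succ]
      change (F ^ n) (f s) = _
      rw [ih, Function.iterate_succ_apply]
  have h1 := card_fixedPoints_modEq (α := S) (f := F) (p := q) (n := 1) (by
    rw [pow_one]
    funext s
    rw [hF, hf]
    rfl)
  by_contra hcon
  push Not at hcon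
  have h2 : Fintype.card (Function.fixedPoints f) = 0 := by
    rw [Fintype.card_eq_zero_iff]
    exact ⟨fun s => hcon s.1 s.2⟩
  have h3 : Fintype.card S ≡ 0 [MOD q] := by
    rw [← h2]
    exact h1
  exact hS ((Nat.modEq_zero_iff_dvd).1 h3)

theorem norm_pow {R : Subgroup (Perm α)} {c : Perm α} (hnorm : ∀ n ∈ R, c * n * c⁻¹ ∈ R) (k : ℕ) :
    ∀ n ∈ R, c ^ k * n * (c ^ k)⁻¹ ∈ R := by
  induction k with
  | zero =>
    intro n hn
    simpa using hn
  | succ k ih =>
    intro n hn
    have h1 := hnorm _ (ih n hn)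
    have h2 : c ^ (k + 1) * n * (c ^ (k + 1))⁻¹ = c * (c ^ k * n * (c ^ k)⁻¹) * c⁻¹ := by
      rw [pow_succ' c k]
      group
    rw [h2]
    exact h1

theorem orbit_key {R : Subgroup (Perm α)} {g : Perm α} (hnorm : ∀ n ∈ R, g * n * g⁻¹ ∈ R)
    {x : α} (h : ∃ n ∈ R, n x = g x) (k : ℕ) : ∃ n ∈ R, n x = (g ^ k) x := by
  induction k with
  | zero => exact ⟨1, R.one_mem, rfl⟩
  | succ k ih =>
    obtain ⟨n, hn, hnx⟩ := ih
    obtain ⟨n', hn', hnx'⟩ := h
    refine ⟨(g * n * g⁻¹) * n', R.mul_mem (hnorm n hn) hn', ?_⟩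
    have h2 : (g * n * g⁻¹) (g x) = g (n x) := by simp
    rw [mul_apply, hnx', h2, hnx, pow_succ', mul_apply]

/-- If the `R`-orbit of a point `x` of the `q`-cycle is nontrivial it contains the `q`-cycle. -/
theorem orbit_step (hn : Fintype.card α < 2 * q) {R : Subgroup (Perm α)} {c : Perm α}
    (h1 : c ≠ 1) (hc : c ^ q = 1)
    (hnorm : ∀ n ∈ R, c * n * c⁻¹ ∈ R) {x : α} (hx : x ∈ c.support)
    (hne : ∃ n ∈ R, n x ≠ x) {y : α} (hy : y ∈ c.support) : ∃ n ∈ R, n x = y := by
  have hkey : ∃ n ∈ R, n x = c x := by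
    obtain ⟨n0, hn0, hn0x⟩ := hne
    by_cases hy : c (n0 x) = n0 x
    · refine ⟨(c * n0 * c⁻¹)⁻¹ * n0, R.mul_mem (R.inv_mem (hnorm n0 hn0)) hn0, ?_⟩
      rw [mul_apply, inv_eq_iff_eq, mul_apply, mul_apply]
      simp [hy]
    · obtain ⟨k, hk⟩ := ex_trans hn h1 hc hx (mem_support.2 hy)
      have hcop : Nat.Coprime k (orderOf c) := by
        rw [ex_order h1 hc, Nat.coprime_comm, Nat.Prime.coprime_iff_not_dvd hq.out]
        rintro ⟨j, rfl⟩
        apply hn0x
        rw [← hk, pow_mul, hc, one_pow, one_apply]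
      obtain ⟨m, hm⟩ := exists_pow_eq_self_of_coprime hcop
      have h2 := orbit_key (g := c ^ k) (norm_pow hnorm k) (x := x) ⟨n0, hn0, hk.symm⟩ m
      rw [hm] at h2
      exact h2
  obtain ⟨k, rfl⟩ := ex_trans hn h1 hc hx hy
  exact orbit_key hnorm hkey k

/-- conjugation by `c` as an automorphism of a normalised subgroup -/
theorem exists_aut {R : Subgroup (Perm α)} {c : Perm α} (hnorm : ∀ n ∈ R, c * n * c⁻¹ ∈ R) :
    ∃ σ : MulAut R, ∀ n : R, ((σ n : R) : Perm α) = c * n * c⁻¹ := by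
  let f : R →* R :=
    { toFun := fun n => ⟨c * n * c⁻¹, hnorm n n.2⟩
      map_one' := by
        apply Subtype.ext
        simp
      map_mul' := by
        intro a b
        apply Subtype.ext
        change c * ((a : Perm α) * b) * c⁻¹ = (c * a * c⁻¹) * (c * b * c⁻¹)
        group }
  have hf : Function.Injective f := by
    intro a b hab
    have := congrArg Subtype.val hab
    change c * (a : Perm α) * c⁻¹ = c * b * c⁻¹ at this
    apply Subtype.ext
    exact mul_left_cancel (mul_right_cancel this)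
  exact ⟨MulEquiv.ofBijective f (Finite.injective_iff_bijective.1 hf), fun n => rfl⟩

/-- an `r`-Sylow subgroup normalised by `c` -/
theorem exists_sylow {R : Subgroup (Perm α)} {c : Perm α} (hc : c ^ q = 1)
    (hnorm : ∀ n ∈ R, c * n * c⁻¹ ∈ R)
    (hR : ¬ q ∣ Nat.card R) (r : ℕ) [Fact r.Prime] :
    ∃ P : Sylow r R, ∀ n : R, n ∈ P → ∀ m : R, (m : Perm α) = c * n * c⁻¹ → m ∈ P := by
  classical
  obtain ⟨σ, hσ⟩ := exists_aut hnorm
  have hσk : ∀ (k : ℕ) (n : R), (((σ ^ k) n : R) : Perm α) = c ^ k * n * (c ^ k)⁻¹ := by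
    intro k
    induction k with
    | zero => intro n; simp
    | succ k ih =>
      intro n
      rw [pow_succ', MulAut.mul_apply, hσ, ih, pow_succ' c k]
      group
  have hσq : σ ^ q = 1 := by
    ext n
    rw [hσk, hc]
    simp
  let _ : Fintype (Sylow r R) := Fintype.ofFinite _
  obtain ⟨P, hP⟩ := exists_fixed (q := q) (S := Sylow r R) (fun P => σ • P) (by
    intro P
    rw [smul_iterate, hσq]
    exact one_smul _ P) (by
    intro h
    rw [← Nat.card_eq_fintype_card] at h
    obtain ⟨P⟩ : Nonempty (Sylow r R) := inferInstance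
    exact hR (h.trans (P.card_dvd_index.trans (P : Subgroup R).index_dvd_card)))
  refine ⟨P, fun n hn m hm => ?_⟩
  have h1 : m = σ • n := Subtype.ext (by rw [hm]; exact (hσ n).symm)
  have h2 : σ • n ∈ σ • (P : Subgroup R) := Subgroup.smul_mem_pointwise_smul _ _ _ hn
  rw [← Sylow.pointwise_smul_def, hP] at h2
  rw [h1]
  exact h2

end Pool.Agent.H72.Exact
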