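import Pool.Agent.H72.Exact.Ex1

/-!
A group of order prime to `q` on fewer than `2 q` points normalised by a `q`-cycle fixes the points
of the cycle, unless `q` is a Mersenne prime.
-/

open Finset Equiv Equiv.Perm

namespace Pool.Agent.H72.Exact

set_option linter.unusedSectionVars false

theorem arith {q r a b : ℕ} (hq : q.Prime) (hr : r.Prime) (hqr : r ≠ q) (hq2 : q ≠ 2)
    (h : r ^ b = q + r ^ a) : q + 1 = 2 ^ b := by
  have hlt : a < b := by
    rw [← Nat.pow_lt_pow_iff_right hr.one_lt, h]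
    have := hq.pos
    omega
  have h1 : r ^ a ∣ q := by
    have h2 : r ^ a ∣ q + r ^ a := by
      rw [← h]
      exact pow_dvd_pow r hlt.le
    exact (Nat.dvd_add_left (dvd_refl _)).1 h2
  rcases (Nat.dvd_prime hq).1 h1 with h2 | h2
  · rw [h2] at h
    have hqo : Odd q := hq.odd_of_ne_two hq2
    have h3 : 2 ∣ r ^ b := by
      rw [h]
      obtain ⟨k, hk⟩ := hqo
      exact ⟨k + 1, by omega⟩
    have h4 := Nat.prime_two.dvd_of_dvd_pow h3
    have h5 := (Nat.prime_dvd_prime_iff_eq Nat.prime_two hr).1 h4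
    rw [← h, h5]
  · exfalso
    have ha : a ≠ 0 := by
      rintro rfl
      rw [pow_zero] at h2
      exact hq.one_lt.ne h2
    have h3 : r ∣ q := by
      rw [← h2]
      exact dvd_pow_self r ha
    exact hqr ((Nat.prime_dvd_prime_iff_eq hr hq).1 h3)

variable {α : Type} [Fintype α] [DecidableEq α] {q : ℕ} [hq : Fact q.Prime]

/-- centralising elements act transitively on the fixed points -/
theorem cent_trans {P : Subgroup (Perm α)} {c : Perm α} (hc : c ^ q = 1)
    (hnorm : ∀ n ∈ P, c * n * c⁻¹ ∈ P) (hP : ¬ q ∣ Nat.card P) {y z : α} (hy : c y = y)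
    (hz : c z = z) (hyz : ∃ g ∈ P, g y = z) : ∃ g ∈ P, c * g * c⁻¹ = g ∧ g y = z := by
  classical
  obtain ⟨g0, hg0, hg0y⟩ := hyz
  let S := {g : Perm α // g ∈ P ∧ g y = z}
  let _ : Fintype S := Fintype.ofFinite S
  have hyi : c⁻¹ y = y := by rw [inv_eq_iff_eq, hy]
  let f : S → S := fun g => ⟨c * g.1 * c⁻¹, hnorm _ g.2.1, by
    rw [mul_apply, mul_apply, hyi, g.2.2, hz]⟩
  have hfk : ∀ (k : ℕ) (g : S), ((f^[k] g : S) : Perm α) = c ^ k * g.1 * (c ^ k)⁻¹ := by
    intro k
    induction k with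
    | zero => intro g; simp
    | succ k ih =>
      intro g
      rw [Function.iterate_succ_apply', pow_succ' c k]
      change c * ((f^[k] g : S) : Perm α) * c⁻¹ = _
      rw [ih]
      group
  have e : S ≃ MulAction.stabilizer P y :=
    { toFun := fun g => ⟨⟨g0⁻¹ * g.1, P.mul_mem (P.inv_mem hg0) g.2.1⟩, by
        rw [MulAction.mem_stabilizer_iff]
        change (g0⁻¹ * g.1) y = y
        rw [mul_apply, g.2.2, inv_eq_iff_eq, hg0y]⟩
      invFun := fun s => ⟨g0 * (s.1 : Perm α), P.mul_mem hg0 s.1.2, by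
        have h1 : (s.1 : Perm α) y = y := MulAction.mem_stabilizer_iff.1 s.2
        rw [mul_apply, h1, hg0y]⟩
      left_inv := fun g => by
        apply Subtype.ext
        change g0 * (g0⁻¹ * g.1) = g.1
        group
      right_inv := fun s => by
        apply Subtype.ext
        apply Subtype.ext
        change g0⁻¹ * (g0 * (s.1 : Perm α)) = s.1
        group }
  have hcard : ¬ q ∣ Fintype.card S := by
    intro h
    rw [← Nat.card_eq_fintype_card, Nat.card_congr e] at h
    exact hP (h.trans (MulAction.stabilizer P y).card_subgroup_dvd_card)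
  obtain ⟨g, hg⟩ := exists_fixed (q := q) f (fun g => by
    apply Subtype.ext
    rw [hfk, hc]
    simp) hcard
  exact ⟨g.1, g.2.1, congrArg Subtype.val hg, g.2.2⟩

theorem fix_of_normal (hn : Fintype.card α < 2 * q) (hq2 : q ≠ 2) (hM : ∀ b : ℕ, q + 1 ≠ 2 ^ b)
    {R : Subgroup (Perm α)} {c : Perm α} (h1 : c ≠ 1) (hc : c ^ q = 1)
    (hnorm : ∀ n ∈ R, c * n * c⁻¹ ∈ R) (hR : ¬ q ∣ Nat.card R) {n : Perm α} (hnR : n ∈ R) {x : α}
    (hx : x ∈ c.support) : n x = x := by
  classical
  by_contra hne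
  -- prime divisor of the orbit length
  have horb : (MulAction.orbit R x).ncard ≠ 1 := by
    intro h
    obtain ⟨a, ha⟩ := Set.ncard_eq_one.1 h
    have h2 : x ∈ MulAction.orbit R x := MulAction.mem_orbit_self x
    have h3 : n x ∈ MulAction.orbit R x := ⟨⟨n, hnR⟩, rfl⟩
    rw [ha, Set.mem_singleton_iff] at h2 h3
    exact hne (h3.trans h2.symm)
  obtain ⟨r, hr, hrd⟩ := Nat.exists_prime_and_dvd horb
  have hrF : Fact r.Prime := ⟨hr⟩
  have hrR : r ∣ Nat.card R := by
    rw [← MulAction.index_stabilizer] at hrd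
    exact hrd.trans (MulAction.stabilizer R x).index_dvd_card
  have hrq : r ≠ q := by
    rintro rfl
    exact hR hrR
  obtain ⟨P, hP⟩ := exists_sylow hc hnorm hR r
  let P' : Subgroup (Perm α) := (P : Subgroup R).map R.subtype
  have hP'norm : ∀ n ∈ P', c * n * c⁻¹ ∈ P' := by
    rintro _ ⟨m, hm, rfl⟩
    refine ⟨⟨c * m * c⁻¹, hnorm _ m.2⟩, hP m hm _ rfl, rfl⟩
  have hP'ne : ∃ n ∈ P', n x ≠ x := by
    by_contra hcon
    push Not at hcon
    have hle : (P : Subgroup R) ≤ MulAction.stabilizer R x := by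
      intro m hm
      rw [MulAction.mem_stabilizer_iff]
      exact hcon m ⟨m, hm, rfl⟩
    have h2 := Subgroup.index_dvd_of_le hle
    rw [MulAction.index_stabilizer] at h2
    exact P.not_dvd_index (hrd.trans h2)
  obtain ⟨k, hk⟩ : ∃ k, Nat.card P' = r ^ k :=
    IsPGroup.iff_card.1 (P.isPGroup'.map R.subtype)
  have hqP' : ¬ q ∣ Nat.card P' := by
    rw [hk]
    intro h
    exact hrq ((Nat.prime_dvd_prime_iff_eq hq.out hr).1 (hq.out.dvd_of_dvd_pow h)).symm
  -- the orbit
  have hO : (MulAction.orbit P' x).ncard ∣ r ^ k := by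
    rw [← MulAction.index_stabilizer, ← hk]
    exact (MulAction.stabilizer P' x).index_dvd_card
  obtain ⟨b, _, hb⟩ := (Nat.dvd_prime_pow hr).1 hO
  have hsub : (c.support : Set α) ⊆ MulAction.orbit P' x := by
    intro y hy
    obtain ⟨m, hm, hmy⟩ := orbit_step hn h1 hc hP'norm hx hP'ne (Finset.mem_coe.1 hy)
    exact ⟨⟨m, hm⟩, hmy⟩
  have hcardsum := Set.ncard_sdiff_add_ncard_of_subset hsub
  rw [Set.ncard_coe_finset, ex_card hn h1 hc, hb] at hcardsum
  have hdne : ((MulAction.orbit P' x) \ (c.support : Set α)).Nonempty := by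
    rw [← Set.ncard_pos]
    by_contra h0
    have h2 : ((MulAction.orbit P' x) \ (c.support : Set α)).ncard = 0 := by omega
    rw [h2, zero_add] at hcardsum
    apply hrq
    have h3 : q ∣ r ^ b := by rw [← hcardsum]
    exact ((Nat.prime_dvd_prime_iff_eq hq.out hr).1 (hq.out.dvd_of_dvd_pow h3)).symm
  obtain ⟨y, hyO, hyc⟩ := hdne
  have hy : c y = y := by
    by_contra h
    exact hyc (Finset.mem_coe.2 (mem_support.2 h))
  let C : Subgroup (Perm α) := P' ⊓ Subgroup.centralizer {c}
  have hCorb : MulAction.orbit C y = (MulAction.orbit P' x) \ (c.support : Set α) := by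
    ext z
    constructor
    · rintro ⟨g, rfl⟩
      have hgP : (g : Perm α) ∈ P' := g.2.1
      have hgc : c * (g : Perm α) = g * c := (Subgroup.mem_centralizer_iff.1 g.2.2) c rfl
      refine ⟨?_, ?_⟩
      · obtain ⟨m, hm⟩ := hyO
        refine ⟨⟨g, hgP⟩ * m, ?_⟩
        change ((⟨g, hgP⟩ : P') * m) • x = (g : Perm α) y
        rw [mul_smul]
        have h3 : m • x = y := hm
        rw [h3]
        rfl
      · intro h3
        have h4 := mem_support.1 (Finset.mem_coe.1 h3)
        apply h4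
        change c ((g : Perm α) y) = (g : Perm α) y
        rw [← mul_apply, hgc, mul_apply, hy]
    · rintro ⟨hzO, hzc⟩
      have hz : c z = z := by
        by_contra h
        exact hzc (Finset.mem_coe.2 (mem_support.2 h))
      have hyz : ∃ g ∈ P', g y = z := by
        obtain ⟨m, hm⟩ := hyO
        obtain ⟨m', hm'⟩ := hzO
        have h3 : (m : Perm α) x = y := hm
        have h4 : (m' : Perm α) x = z := hm'
        refine ⟨(m' : Perm α) * (m : Perm α)⁻¹, P'.mul_mem m'.2 (P'.inv_mem m.2), ?_⟩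
        rw [mul_apply, ← h3]
        simp [h4]
      obtain ⟨g, hg, hgc, hgy⟩ := cent_trans hc hP'norm hqP' hy hz hyz
      have hgC : g ∈ Subgroup.centralizer {c} := by
        rw [Subgroup.mem_centralizer_iff]
        rintro _ rfl
        rw [mul_inv_eq_iff_eq_mul] at hgc
        exact hgc
      exact ⟨⟨g, hg, hgC⟩, hgy⟩
  have hC : (MulAction.orbit C y).ncard ∣ r ^ k := by
    rw [← MulAction.index_stabilizer, ← hk]
    exact (MulAction.stabilizer C y).index_dvd_card.trans
      (Subgroup.card_dvd_of_le inf_le_left)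
  obtain ⟨a, _, ha⟩ := (Nat.dvd_prime_pow hr).1 hC
  rw [← hCorb, ha] at hcardsum
  exact hM b (arith hq.out hr hrq hq2 (a := a) (by omega))

end Pool.Agent.H72.Exact
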