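import Pool.Agent.H72.Exact.Ex2

/-!
Linear characters nontrivial on a `q`-cycle.
-/

open Finset Equiv Equiv.Perm
open scoped Pointwise Nat

namespace Pool.Agent.H72.Exact

set_option linter.unusedSectionVars false

variable {α : Type} [Fintype α] [DecidableEq α] {q : ℕ} [hq : Fact q.Prime]

theorem not_sq_dvd' (hn : Fintype.card α < 2 * q) (H : Subgroup (Perm α)) :
    ¬ q * q ∣ Nat.card H := by
  intro h
  have hq2 := hq.out.two_le
  have h1 : q ^ 2 ∣ (Fintype.card α)! := by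
    have h2 := H.card_subgroup_dvd_card
    rw [Nat.card_eq_fintype_card (α := Perm α), Fintype.card_perm] at h2
    rw [pow_two]
    exact h.trans h2
  rw [Nat.Prime.pow_dvd_factorial_iff hq.out (b := 2)] at h1
  · have h3 : ∑ i ∈ Finset.Ico 1 2, Fintype.card α / q ^ i = Fintype.card α / q := by simp
    rw [h3] at h1
    have h4 : Fintype.card α / q < 2 := (Nat.div_lt_iff_lt_mul hq.out.pos).2 hn
    omega
  · refine Nat.log_lt_of_lt_pow' (by norm_num) ?_
    calc Fintype.card α < 2 * q := hn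
      _ ≤ q * q := Nat.mul_le_mul_right _ hq2
      _ = q ^ 2 := (pow_two q).symm

theorem mem_one_of {H : Subgroup (Perm α)} {c : H} (hc : (c : Perm α) ^ q = 1) : c ^ q = 1 :=
  Subtype.ext hc

theorem stab_trivial (hn : Fintype.card α < 2 * q) (hq2 : q ≠ 2) (hM : ∀ b : ℕ, q + 1 ≠ 2 ^ b)
    (H : Subgroup (Perm α)) (ψ : H →* ℂˣ) (c : H) (h1 : (c : Perm α) ≠ 1)
    (hc : (c : Perm α) ^ q = 1) (hψ : ψ c ≠ 1)
    (hD : ∀ d : H, (∀ x ∈ (c : Perm α).support, (d : Perm α) x = x) → ψ d = 1) :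
    ∃ x : α, ∀ h : H, (h : Perm α) x = x → ψ h = 1 := by
  classical
  have hcH : c ^ q = 1 := Subtype.ext hc
  have hc1 : c ≠ 1 := fun h => h1 (by rw [h]; rfl)
  have hord : orderOf c = q := orderOf_eq_prime hcH hc1
  obtain ⟨k, hk⟩ : q ∣ Nat.card H := by
    rw [← hord]
    exact orderOf_dvd_natCard c
  have hqk : ¬ q ∣ k := by
    intro h
    apply not_sq_dvd' hn H
    rw [hk]
    exact Nat.mul_dvd_mul_left _ h
  have hψq : (ψ c) ^ q = 1 := by rw [← map_pow, hcH, map_one]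
  have hψ' : (ψ ^ k) c ≠ 1 := by
    intro h
    rw [MonoidHom.pow_apply] at h
    have h2 := orderOf_dvd_of_pow_eq_one h
    rw [orderOf_eq_prime hψq hψ] at h2
    exact hqk h2
  have hψ'q : ((ψ ^ k) c) ^ q = 1 := by rw [← map_pow, hcH, map_one]
  let N : Subgroup H := (ψ ^ k).ker
  let N' : Subgroup (Perm α) := N.map H.subtype
  have hNq : ¬ q ∣ Nat.card N := by
    intro h
    apply not_sq_dvd' hn H
    rw [← N.card_mul_index]
    refine mul_dvd_mul h ?_
    change q ∣ (ψ ^ k).ker.index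
    rw [Subgroup.index_ker]
    have h5 : (ψ ^ k).rangeRestrict c ≠ 1 := fun h6 => hψ' (congrArg Subtype.val h6)
    have h4 : ((ψ ^ k).rangeRestrict c) ^ q = 1 := by rw [← map_pow, hcH, map_one]
    have h8 := orderOf_dvd_natCard ((ψ ^ k).rangeRestrict c)
    rw [orderOf_eq_prime h4 h5] at h8
    exact h8
  have hN'q : ¬ q ∣ Nat.card N' := by
    rw [Subgroup.card_map_of_injective H.subtype_injective]
    exact hNq
  have hnorm : ∀ n ∈ N', (c : Perm α) * n * (c : Perm α)⁻¹ ∈ N' := by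
    rintro _ ⟨m, hm, rfl⟩
    refine ⟨c * m * c⁻¹, ?_, rfl⟩
    exact (inferInstance : N.Normal).conj_mem m hm c
  obtain ⟨x, hx⟩ : ((c : Perm α).support).Nonempty := by
    rw [Finset.nonempty_iff_ne_empty, Ne, support_eq_empty_iff]
    exact h1
  refine ⟨x, fun h hhx => ?_⟩
  have hprim : IsPrimitiveRoot (((ψ ^ k) c : ℂˣ) : ℂ) q := by
    rw [IsPrimitiveRoot.coe_units_iff, IsPrimitiveRoot.iff_orderOf]
    exact orderOf_eq_prime hψ'q hψ'
  have hhq : ((((ψ ^ k) h : ℂˣ)) : ℂ) ^ q = 1 := by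
    rw [← Units.val_pow_eq_pow_val, MonoidHom.pow_apply, ← pow_mul, mul_comm, ← hk, ← map_pow,
      pow_card_eq_one', map_one, Units.val_one]
  have : NeZero q := ⟨hq.out.ne_zero⟩
  obtain ⟨i, _, hi⟩ := hprim.eq_pow_of_pow_eq_one hhq
  have hi' : (ψ ^ k) (c ^ i) = (ψ ^ k) h := by
    rw [map_pow]
    apply Units.ext
    rw [Units.val_pow_eq_pow_val]
    exact hi
  have hn' : h * (c ^ i)⁻¹ ∈ N := by
    rw [MonoidHom.mem_ker, map_mul, map_inv, hi', mul_inv_cancel]
  have hfix : ∀ y ∈ (c : Perm α).support, ((h * (c ^ i)⁻¹ : H) : Perm α) y = y := fun y hy =>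
    fix_of_normal hn hq2 hM h1 hc hnorm hN'q (n := ((h * (c ^ i)⁻¹ : H) : Perm α))
      ⟨_, hn', rfl⟩ hy
  have hci : ((c : Perm α) ^ i) x = x := by
    have h2 := hfix _ (ex_pow_mem hx i)
    have h3 : ((h * (c ^ i)⁻¹ : H) : Perm α) (((c : Perm α) ^ i) x) = (h : Perm α) x := by
      simp
    rw [h3, hhx] at h2
    exact h2.symm
  have hc' : (c : Perm α) ^ i = 1 := ex_fix hn h1 hc hx hci
  have hc'' : c ^ i = 1 := Subtype.ext hc'
  rw [hc'', inv_one, mul_one] at hfix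
  exact hD h hfix

theorem conj_pow' (hn : Fintype.card α < 2 * q) (H : Subgroup (Perm α)) (y0 y : H)
    (h0 : (y0 : Perm α) ≠ 1) (h0q : (y0 : Perm α) ^ q = 1) (h : (y : Perm α) ≠ 1)
    (hyq : (y : Perm α) ^ q = 1) : ∃ (g : H) (i : ℕ), 0 < i ∧ i < q ∧ y = g * y0 ^ i * g⁻¹ := by
  classical
  have e0 : orderOf y0 = q := orderOf_eq_prime (Subtype.ext h0q) (fun h' => h0 (by rw [h']; rfl))
  have e : orderOf y = q := orderOf_eq_prime (Subtype.ext hyq) (fun h' => h (by rw [h']; rfl))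
  have hpos : Nat.card H ≠ 0 := Nat.card_pos.ne'
  have hf : (Nat.card H).factorization q = 1 := by
    have h1 : 1 ≤ (Nat.card H).factorization q := by
      rw [← hq.out.pow_dvd_iff_le_factorization hpos, pow_one, ← e0]
      exact orderOf_dvd_natCard y0
    have h2 : ¬ 2 ≤ (Nat.card H).factorization q := by
      rw [← hq.out.pow_dvd_iff_le_factorization hpos, pow_two]
      exact not_sq_dvd' hn H
    omega
  let S0 : Sylow q H := Sylow.ofCard (Subgroup.zpowers y0) (by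
    rw [Nat.card_zpowers, e0, hf, pow_one])
  let S : Sylow q H := Sylow.ofCard (Subgroup.zpowers y) (by
    rw [Nat.card_zpowers, e, hf, pow_one])
  obtain ⟨g, hg⟩ := MulAction.exists_smul_eq H S0 S
  have hy : y ∈ (S : Subgroup H) := Subgroup.mem_zpowers y
  rw [← hg, Sylow.coe_subgroup_smul, Subgroup.mem_smul_pointwise_iff_exists] at hy
  obtain ⟨z, hz, hzy⟩ := hy
  have hz' : z ∈ Subgroup.zpowers y0 := hz
  rw [← mem_powers_iff_mem_zpowers] at hz'
  obtain ⟨j, rfl⟩ := hz'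
  have hzy' : g * y0 ^ j * g⁻¹ = y := hzy
  have hj : y0 ^ (j % q) = y0 ^ j := by
    have := pow_mod_orderOf y0 j
    rwa [e0] at this
  refine ⟨g, j % q, ?_, Nat.mod_lt _ hq.out.pos, ?_⟩
  · by_contra h0'
    have h1 : j % q = 0 := by omega
    rw [h1, pow_zero] at hj
    rw [← hj] at hzy'
    apply h
    rw [← hzy']
    simp
  · rw [hj, hzy']

end Pool.Agent.H72.Exact
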