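import Pool.Agent.H72.Exact.Ex3
import Pool.Agent.H7.Artin.SharpC

/-!
The class function: number of fixed points minus one, plus `q` on permutations with a `q`-cycle.
-/

open Finset Equiv Equiv.Perm

namespace Pool.Agent.H72.Exact

open Pool.Agent.H7.Artin

set_option linter.unusedSectionVars false

variable {α : Type} [Fintype α] [DecidableEq α] {q : ℕ}

/-- `g` acts as `y` on the support of `y` -/
def Agree (g y : Perm α) : Prop := ∀ x ∈ y.support, g x = y x

/-- `d` fixes the support of `y` -/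
def Fixes (d y : Perm α) : Prop := ∀ x ∈ y.support, d x = x

theorem agree_mul {d y : Perm α} : Agree (y * d) y ↔ Fixes d y := by
  unfold Agree Fixes
  refine forall₂_congr fun x _ => ?_
  rw [mul_apply]
  exact y.injective.eq_iff

open Classical in
/-- the elements of order `q` which are restrictions of `g` -/
noncomputable def PS (q : ℕ) (g : Perm α) : Finset (Perm α) :=
  univ.filter fun y => y ≠ 1 ∧ y ^ q = 1 ∧ Agree g y

/-- The class function. -/
noncomputable def exF (q : ℕ) (g : Perm α) : ℂ :=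
  ((univ.filter fun x => g x = x).card : ℂ) - 1 + q * (PS q g).card

theorem mem_PS {g y : Perm α} : y ∈ PS q g ↔ y ≠ 1 ∧ y ^ q = 1 ∧ Agree g y := by
  classical
  unfold PS
  rw [mem_filter]
  simp

theorem agree_conj {g y c : Perm α} (h : Agree g y) : Agree (c * g * c⁻¹) (c * y * c⁻¹) := by
  intro x hx
  have h1 : c⁻¹ x ∈ y.support := by
    rw [mem_support] at hx ⊢
    intro h2
    apply hx
    rw [mul_apply, mul_apply, h2]
    simp
  rw [mul_apply, mul_apply, mul_apply, mul_apply, h _ h1]

theorem PS_conj (c g : Perm α) : (PS q (c * g * c⁻¹)).card = (PS q g).card := by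
  classical
  refine (Finset.card_bij (fun y _ => c * y * c⁻¹) ?_ ?_ ?_).symm
  · intro y hy
    rw [mem_PS] at hy ⊢
    refine ⟨fun h => hy.1 (conj_eq_one_iff.1 h), ?_, agree_conj hy.2.2⟩
    rw [conj_pow, hy.2.1]
    simp
  · intro a _ b _ hab
    exact mul_left_cancel (mul_right_cancel hab)
  · intro y hy
    rw [mem_PS] at hy
    refine ⟨c⁻¹ * y * c, ?_, by group⟩
    rw [mem_PS]
    refine ⟨fun h => hy.1 ?_, ?_, ?_⟩
    · have h2 : c * (c⁻¹ * y * c) * c⁻¹ = y := by group
      rw [← h2, h]
      simp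
    · have h2 : c⁻¹ * y * c = c⁻¹ * y * (c⁻¹)⁻¹ := by group
      rw [h2, conj_pow, hy.2.1]
      simp
    · have h2 := agree_conj (c := c⁻¹) hy.2.2
      have h3 : c⁻¹ * (c * g * c⁻¹) * (c⁻¹)⁻¹ = g := by group
      have h4 : c⁻¹ * y * (c⁻¹)⁻¹ = c⁻¹ * y * c := by group
      rwa [h3, h4] at h2

theorem exF_conj (c g : Perm α) : exF q (c * g * c⁻¹) = exF q g := by
  classical
  unfold exF
  rw [PS_conj]
  congr 3
  refine (Finset.card_bij (fun a _ => c a) ?_ ?_ ?_).symm
  · intro a ha
    rw [Finset.mem_filter] at ha ⊢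
    refine ⟨Finset.mem_univ _, ?_⟩
    rw [Perm.mul_apply, Perm.mul_apply, show c⁻¹ (c a) = a by simp, ha.2]
  · intro a _ b _ h
    exact c.injective h
  · intro b hb
    rw [Finset.mem_filter] at hb
    refine ⟨c⁻¹ b, ?_, by simp⟩
    rw [Finset.mem_filter]
    refine ⟨Finset.mem_univ _, ?_⟩
    have := hb.2
    rw [Perm.mul_apply, Perm.mul_apply] at this
    rw [eq_inv_iff_eq, this]

theorem PS_one : PS q (1 : Perm α) = ∅ := by
  classical
  rw [Finset.eq_empty_iff_forall_notMem]
  intro y hy
  rw [mem_PS] at hy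
  apply hy.1
  rw [← support_eq_empty_iff, Finset.eq_empty_iff_forall_notMem]
  intro x hx
  have := hy.2.2 x hx
  rw [one_apply] at this
  exact (mem_support.1 hx) this.symm

theorem exF_one : exF q (1 : Perm α) = (Fintype.card α : ℂ) - 1 := by
  classical
  unfold exF
  rw [PS_one]
  simp

variable [hq : Fact q.Prime]

theorem disjoint_of_agree {g y : Perm α} (h : Agree g y) : Disjoint y (y⁻¹ * g) := by
  intro x
  by_cases hx : x ∈ y.support
  · right
    rw [mul_apply, inv_eq_iff_eq, h x hx]
  · left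
    simpa using hx

theorem disjoint_of_fixes {d y : Perm α} (h : Fixes d y) : Disjoint y d := by
  intro x
  by_cases hx : x ∈ y.support
  · right
    exact h x hx
  · left
    simpa using hx

/-- a restriction of `h` is a power of `h` -/
theorem mem_of_agree (hn : Fintype.card α < 2 * q) {h y : Perm α} (h1 : y ≠ 1) (hy : y ^ q = 1)
    (ha : Agree h y) : ∃ a : ℕ, h ^ a = y := by
  classical
  have hd := disjoint_of_agree ha
  set d := y⁻¹ * h with hdef
  have hyd : h = y * d := by rw [hdef]; group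
  have hcop : Nat.Coprime q (orderOf d) := by
    rw [Nat.Prime.coprime_iff_not_dvd hq.out]
    rintro ⟨s, hs⟩
    have hs0 : 0 < s := by
      rcases Nat.eq_zero_or_pos s with h0 | h0
      · rw [h0, mul_zero] at hs
        exact absurd hs (orderOf_pos d).ne'
      · exact h0
    have hd1 : d ^ s ≠ 1 := by
      intro h2
      have h3 := orderOf_dvd_of_pow_eq_one h2
      rw [hs] at h3
      have h4 := Nat.le_of_dvd hs0 h3
      have h5 := hq.out.two_le
      nlinarith
    have hdq : (d ^ s) ^ q = 1 := by rw [← pow_mul, mul_comm, ← hs, pow_orderOf_eq_one]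
    have h2 := ex_card hn hd1 hdq
    have h3 := ex_card hn h1 hy
    have h4 : Disjoint y (d ^ s) := by
      have := hd.pow_disjoint_pow 1 s
      rwa [pow_one] at this
    have h5 := h4.card_support_mul
    have h6 := Finset.card_le_univ (y * d ^ s).support
    omega
  obtain ⟨a, ha1, ha2⟩ := Nat.chineseRemainder hcop 1 0
  refine ⟨a, ?_⟩
  have h2 : d ^ a = 1 := by
    rw [← orderOf_dvd_iff_pow_eq_one]
    exact (Nat.modEq_zero_iff_dvd).1 ha2
  have h3 : y ^ a = y := by
    have h4 := pow_mod_orderOf y a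
    rw [ex_order h1 hy] at h4
    have h5 : a % q = 1 := by
      have h6 : a % q = 1 % q := ha1
      rw [h6, Nat.mod_eq_of_lt hq.out.one_lt]
    rw [← h4, h5, pow_one]
  rw [hyd, hd.commute.mul_pow, h2, h3, mul_one]

section Sub

variable (q) (H : Subgroup (Perm α))

/-- the elements of order `q` in `H` -/
def YH (q : ℕ) (H : Subgroup (Perm α)) : Type :=
  {x : H // (x : Perm α) ≠ 1 ∧ (x : Perm α) ^ q = 1}

noncomputable instance : Fintype (YH q H) := by
  unfold YH
  exact Fintype.ofFinite _

noncomputable instance : DecidableEq (YH q H) := Classical.decEq _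

/-- conjugation -/
def YH.cj (h : H) (x : YH q H) : YH q H := ⟨h * x.1 * h⁻¹, by
  refine ⟨fun h' => x.2.1 ?_, ?_⟩
  · have h2 : (h : Perm α) * (x.1 : Perm α) * (h : Perm α)⁻¹ = 1 := h'
    rw [conj_eq_one_iff] at h2
    exact h2
  · change ((h : Perm α) * (x.1 : Perm α) * (h : Perm α)⁻¹) ^ q = 1
    rw [conj_pow, x.2.2]
    simp⟩

noncomputable instance : MulAction H (YH q H) where
  smul h x := YH.cj q H h x
  one_smul x := Subtype.ext (by
    change 1 * x.1 * 1⁻¹ = x.1
    simp)
  mul_smul a b x := Subtype.ext (by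
    change (a * b) * x.1 * (a * b)⁻¹ = a * (b * x.1 * b⁻¹) * a⁻¹
    group)

theorem YH_smul_iff (h : H) (x : YH q H) : h • x = x ↔ h * x.1 = x.1 * h := by
  rw [← mul_inv_eq_iff_eq_mul]
  exact ⟨fun h' => congrArg Subtype.val h', fun h' => Subtype.ext h'⟩

open Classical in
theorem sum_PS (hn : Fintype.card α < 2 * q) [Fintype H] (F : H → ℂ) :
    ∑ h : H, ((PS q (h : Perm α)).card : ℂ) * F h
      = ∑ y : YH q H, ∑ d : H, if Fixes (d : Perm α) (y.1 : Perm α) then F (y.1 * d) else 0 := by
  have h1 : ∀ h : H, (PS q (h : Perm α)).card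
      = (univ.filter fun y : YH q H => Agree (h : Perm α) (y.1 : Perm α)).card := by
    intro h
    refine (Finset.card_bij (fun (y : YH q H) _ => (y.1 : Perm α)) ?_ ?_ ?_).symm
    · intro y hy
      rw [mem_filter] at hy
      rw [mem_PS]
      exact ⟨y.2.1, y.2.2, hy.2⟩
    · intro a _ b _ hab
      exact Subtype.ext (Subtype.ext hab)
    · intro y hy
      rw [mem_PS] at hy
      obtain ⟨a, ha⟩ := mem_of_agree hn hy.1 hy.2.1 hy.2.2
      have hyH : y ∈ H := by rw [← ha]; exact H.pow_mem h.2 a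
      let Y : YH q H := ⟨⟨y, hyH⟩, hy.1, hy.2.1⟩
      exact ⟨Y, Finset.mem_filter.2 ⟨mem_univ Y, hy.2.2⟩, rfl⟩
  calc ∑ h : H, ((PS q (h : Perm α)).card : ℂ) * F h
      = ∑ h : H, ∑ y : YH q H, if Agree (h : Perm α) (y.1 : Perm α) then F h else 0 := by
        refine Finset.sum_congr rfl fun h _ => ?_
        rw [h1, ← Finset.sum_filter, Finset.sum_const, nsmul_eq_mul]
    _ = ∑ y : YH q H, ∑ h : H, if Agree (h : Perm α) (y.1 : Perm α) then F h else 0 :=
        Finset.sum_comm
    _ = _ := by
        refine Finset.sum_congr rfl fun y _ => ?_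
        rw [← Equiv.sum_comp (Equiv.mulLeft y.1)]
        refine Finset.sum_congr rfl fun d _ => ?_
        rw [Equiv.coe_mulLeft]
        have h2 : Agree (((y.1 * d : H)) : Perm α) (y.1 : Perm α)
            ↔ Fixes (d : Perm α) (y.1 : Perm α) := agree_mul
        simp only [h2]

open Classical in
theorem sum_cent (hn : Fintype.card α < 2 * q) [Fintype H] (F : H → ℂ) (y : YH q H) :
    ∑ h : H, (if h * y.1 = y.1 * h then F h else 0)
      = ∑ i ∈ range q, ∑ d : H,
        if Fixes (d : Perm α) (y.1 : Perm α) then F (y.1 ^ i * d) else 0 := by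
  have h1 : ∀ i ∈ range q, (∑ d : H,
      if Fixes (d : Perm α) (y.1 : Perm α) then F (y.1 ^ i * d) else 0)
      = ∑ h : H, if Fixes (((y.1 ^ i)⁻¹ * h : H) : Perm α) (y.1 : Perm α) then F h else 0 := by
    intro i _
    conv_rhs => rw [← Equiv.sum_comp (Equiv.mulLeft (y.1 ^ i))]
    refine Finset.sum_congr rfl fun d _ => ?_
    rw [Equiv.coe_mulLeft, inv_mul_cancel_left]
  rw [Finset.sum_congr rfl h1, Finset.sum_comm]
  refine Finset.sum_congr rfl fun h _ => ?_
  rw [← Finset.sum_filter, Finset.sum_const, nsmul_eq_mul]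
  obtain ⟨x0, hx0⟩ : ((y.1 : Perm α).support).Nonempty := by
    rw [Finset.nonempty_iff_ne_empty, Ne, support_eq_empty_iff]
    exact y.2.1
  have hinj : ∀ i j : ℕ, i < q → j < q → ((y.1 : Perm α) ^ i) x0 = ((y.1 : Perm α) ^ j) x0 →
      i = j := by
    have key : ∀ i j : ℕ, i ≤ j → j < q →
        ((y.1 : Perm α) ^ i) x0 = ((y.1 : Perm α) ^ j) x0 → i = j := by
      intro i j hij hj he
      have h2 : ((y.1 : Perm α) ^ (j - i)) x0 = x0 := by
        apply ((y.1 : Perm α) ^ i).injective
        rw [← mul_apply, ← pow_add, he]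
        congr 2
        omega
      have h3 := ex_fix hn y.2.1 y.2.2 hx0 h2
      have h4 := orderOf_dvd_of_pow_eq_one h3
      rw [ex_order y.2.1 y.2.2] at h4
      have h5 := Nat.eq_zero_of_dvd_of_lt h4 (by omega)
      omega
    intro i j hi hj he
    rcases le_total i j with h6 | h6
    · exact key i j h6 hj he
    · exact (key j i h6 hi he.symm).symm
  by_cases hc : h * y.1 = y.1 * h
  · rw [if_pos hc]
    have hcP : Commute (h : Perm α) (y.1 : Perm α) := congrArg Subtype.val hc
    have hhx : (h : Perm α) x0 ∈ (y.1 : Perm α).support := by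
      rw [mem_support] at hx0 ⊢
      intro h2
      apply hx0
      apply (h : Perm α).injective
      rw [← mul_apply, hcP.eq, mul_apply, h2]
    obtain ⟨k, hk⟩ := ex_trans hn y.2.1 y.2.2 hx0 hhx
    have hk' : ((y.1 : Perm α) ^ (k % q)) x0 = (h : Perm α) x0 := by
      have h4 := pow_mod_orderOf (y.1 : Perm α) k
      rw [ex_order y.2.1 y.2.2] at h4
      rw [h4, hk]
    have hf : (range q).filter (fun i => Fixes (((y.1 ^ i)⁻¹ * h : H) : Perm α) (y.1 : Perm α))
        = {k % q} := by
      ext i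
      rw [mem_filter, mem_range, mem_singleton]
      constructor
      · rintro ⟨hi, hfi⟩
        have h2 := hfi x0 hx0
        rw [Subgroup.coe_mul, Subgroup.coe_inv, SubgroupClass.coe_pow, mul_apply,
          inv_eq_iff_eq] at h2
        exact hinj i (k % q) hi (Nat.mod_lt _ hq.out.pos) (by rw [← h2, hk'])
      · rintro rfl
        refine ⟨Nat.mod_lt _ hq.out.pos, fun x hx => ?_⟩
        rw [Subgroup.coe_mul, Subgroup.coe_inv, SubgroupClass.coe_pow, mul_apply,
          inv_eq_iff_eq]
        obtain ⟨j, rfl⟩ := ex_trans hn y.2.1 y.2.2 hx0 hx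
        rw [← mul_apply, (hcP.pow_right j).eq, mul_apply, ← hk', ← mul_apply, ← mul_apply,
          ← pow_add, ← pow_add, add_comm]
    rw [hf, card_singleton, Nat.cast_one, one_mul]
  · rw [if_neg hc]
    have hf : (range q).filter (fun i => Fixes (((y.1 ^ i)⁻¹ * h : H) : Perm α) (y.1 : Perm α))
        = ∅ := by
      rw [Finset.filter_eq_empty_iff]
      intro i _ hfi
      apply hc
      have h2 := (disjoint_of_fixes hfi).commute
      have h3 : Commute y.1 ((y.1 ^ i)⁻¹ * h) := Subtype.ext h2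
      have h4 : Commute y.1 (y.1 ^ i * ((y.1 ^ i)⁻¹ * h)) := (Commute.self_pow _ _).mul_right h3
      rw [mul_inv_cancel_left] at h4
      exact h4.symm.eq
    rw [hf, card_empty, Nat.cast_zero, zero_mul]

end Sub

end Pool.Agent.H72.Exact
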