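import Pool.Agent.H72.Exact.Ex4

/-!
The class function `exF` is a Heilbronn class function.
-/

open Finset Equiv Equiv.Perm

namespace Pool.Agent.H72.Exact

open Pool.Agent.H7.Artin

set_option linter.unusedSectionVars false

/-- sum of a linear character over a subgroup -/
theorem sum_sub {K : Type} [Group K] [Fintype K] (K0 : Subgroup K) (ψ : K →* ℂˣ)
    [DecidablePred (· ∈ K0)] [Decidable (∀ k ∈ K0, ψ k = 1)] :
    ∑ k : K, (if k ∈ K0 then (((ψ k)⁻¹ : ℂˣ) : ℂ) else 0)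
      = if ∀ k ∈ K0, ψ k = 1 then (Nat.card K0 : ℂ) else 0 := by
  classical
  have h1 : ∑ k : K, (if k ∈ K0 then (((ψ k)⁻¹ : ℂˣ) : ℂ) else 0)
      = ∑ k : K0, ((((ψ.comp K0.subtype) k)⁻¹ : ℂˣ) : ℂ) := by
    symm
    refine Fintype.sum_of_injective (fun k : K0 => (k : K)) Subtype.val_injective _ _ ?_ ?_
    · intro k hk
      rw [if_neg]
      intro h2
      exact hk ⟨⟨k, h2⟩, rfl⟩
    · intro k
      rw [if_pos k.2]
      rfl
  rw [h1]
  split_ifs with h
  · have h2 : ∀ k : K0, ((((ψ.comp K0.subtype) k)⁻¹ : ℂˣ) : ℂ) = 1 := by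
      intro k
      have : (ψ.comp K0.subtype) k = 1 := h k k.2
      rw [this, inv_one, Units.val_one]
    simp_rw [h2]
    rw [Finset.sum_const, card_univ, nsmul_eq_mul, mul_one, Nat.card_eq_fintype_card]
  · refine sum_psi_inv_zero _ (fun h2 => h fun k hk => ?_)
    have := DFunLike.congr_fun h2 ⟨k, hk⟩
    exact this

variable {α : Type} [Fintype α] [DecidableEq α] {q : ℕ}

/-- elements of `H` fixing the support of `y` -/
def FixSub (H : Subgroup (Perm α)) (y : Perm α) : Subgroup H where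
  carrier := {d | Fixes (d : Perm α) y}
  one_mem' := fun x _ => rfl
  mul_mem' := by
    intro a b ha hb x hx
    change (a : Perm α) ((b : Perm α) x) = x
    rw [hb x hx, ha x hx]
  inv_mem' := by
    intro a ha x hx
    change ((a : Perm α))⁻¹ x = x
    rw [inv_eq_iff_eq, ha x hx]

theorem mem_FixSub {H : Subgroup (Perm α)} {y : Perm α} {d : H} :
    d ∈ FixSub H y ↔ Fixes (d : Perm α) y := Iff.rfl

open Classical in
theorem perm_coeff_pos (H : Subgroup (Perm α)) [Fintype H] (ψ : H →* ℂˣ) {N : ℕ}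
    (hN : ∑ h : H, ((univ.filter fun x : α => (h : Perm α) x = x).card : ℂ)
      * (((ψ h)⁻¹ : ℂˣ) : ℂ) = N * (Nat.card H : ℂ))
    (hx : ∃ x : α, ∀ h : H, (h : Perm α) x = x → ψ h = 1) : 1 ≤ N := by
  have h1 : ∑ h : H, ((univ.filter fun x : α => (h : Perm α) x = x).card : ℂ)
      * (((ψ h)⁻¹ : ℂˣ) : ℂ) = ∑ x : α, (((if ∀ k ∈ MulAction.stabilizer H x, ψ k = 1 then
        Nat.card (MulAction.stabilizer H x) else 0 : ℕ)) : ℂ) := by
    calc _ = ∑ h : H, ∑ x : α, if h ∈ MulAction.stabilizer H x then (((ψ h)⁻¹ : ℂˣ) : ℂ)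
          else 0 := by
          refine Finset.sum_congr rfl fun h _ => ?_
          rw [← Finset.sum_filter, Finset.sum_const, nsmul_eq_mul]
          congr 2
      _ = ∑ x : α, ∑ h : H, if h ∈ MulAction.stabilizer H x then (((ψ h)⁻¹ : ℂˣ) : ℂ)
          else 0 := Finset.sum_comm
      _ = _ := by
          refine Finset.sum_congr rfl fun x _ => ?_
          rw [sum_sub]
          split_ifs <;> simp
  rw [h1] at hN
  by_contra h0
  have hN0 : N = 0 := by omega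
  rw [hN0, Nat.cast_zero, zero_mul, ← Nat.cast_sum] at hN
  have h2 : ∑ x : α, (if ∀ k ∈ MulAction.stabilizer H x, ψ k = 1 then
        Nat.card (MulAction.stabilizer H x) else 0) = 0 := by exact_mod_cast hN
  rw [Finset.sum_eq_zero_iff] at h2
  obtain ⟨x, hx⟩ := hx
  have h3 := h2 x (mem_univ x)
  rw [if_pos (fun k hk => hx k (MulAction.mem_stabilizer_iff.1 hk))] at h3
  exact Nat.card_pos.ne' h3

variable [hq : Fact q.Prime]

theorem supp_pow (hn : Fintype.card α < 2 * q) {c : Perm α} (h1 : c ≠ 1) (hc : c ^ q = 1)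
    {i : ℕ} (hi0 : 0 < i) (hi : i < q) : (c ^ i).support = c.support := by
  apply subset_antisymm
  · exact support_pow_le c i
  · intro x hx
    rw [mem_support]
    intro h
    have h2 := ex_fix hn h1 hc hx h
    have h3 := orderOf_dvd_of_pow_eq_one h2
    rw [ex_order h1 hc] at h3
    have := Nat.le_of_dvd hi0 h3
    omega

theorem fixes_conj {d y g : Perm α} (h : Fixes d y) : Fixes (g * d * g⁻¹) (g * y * g⁻¹) := by
  intro x hx
  have h1 : g⁻¹ x ∈ y.support := by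
    rw [mem_support] at hx ⊢
    intro h2
    apply hx
    rw [mul_apply, mul_apply, h2]
    simp
  rw [mul_apply, mul_apply, h _ h1]
  simp

/-- elements fixing the support of an element of order `q`, all conjugate -/
theorem fixes_triv (hn : Fintype.card α < 2 * q) (H : Subgroup (Perm α)) (ψ : H →* ℂˣ)
    (y0 y : YH q H) (h : ∀ d : H, Fixes (d : Perm α) (y0.1 : Perm α) → ψ d = 1) (d : H)
    (hd : Fixes (d : Perm α) (y.1 : Perm α)) : ψ d = 1 := by
  obtain ⟨g, i, hi0, hi, hy⟩ := conj_pow' hn H y0.1 y.1 y0.2.1 y0.2.2 y.2.1 y.2.2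
  have h1 : ψ (g⁻¹ * d * g) = 1 := by
    apply h
    have h2 := fixes_conj (g := (g : Perm α)⁻¹) hd
    rw [hy] at h2
    have h3 : (g : Perm α)⁻¹ * ((g * y0.1 ^ i * g⁻¹ : H) : Perm α) * ((g : Perm α)⁻¹)⁻¹
        = (y0.1 : Perm α) ^ i := by
      simp only [Subgroup.coe_mul, Subgroup.coe_inv, SubgroupClass.coe_pow]
      group
    rw [h3] at h2
    intro x hx
    rw [← supp_pow hn y0.2.1 y0.2.2 hi0 hi] at hx
    have h4 := h2 x hx
    rw [inv_inv] at h4
    exact h4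
  rw [map_mul, map_mul, map_inv, mul_right_comm, inv_mul_cancel, one_mul] at h1
  exact h1

open Classical in
theorem sum_cent_one (hn : Fintype.card α < 2 * q) (H : Subgroup (Perm α)) [Fintype H]
    (y : YH q H) :
    (q : ℂ) * ∑ d : H, (if Fixes (d : Perm α) (y.1 : Perm α) then (1 : ℂ) else 0)
      = ∑ h : H, (if h * y.1 = y.1 * h then (1 : ℂ) else 0) := by
  rw [sum_cent q H hn (fun _ => 1) y, Finset.sum_const, card_range, nsmul_eq_mul]

open Classical in
/-- counting conjugations -/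
theorem sum_cj (hn : Fintype.card α < 2 * q) (H : Subgroup (Perm α)) [Fintype H] (ψ : H →* ℂˣ)
    (y0 : YH q H) (hψ : ψ y0.1 ≠ 1) (y : YH q H) :
    ∑ h : H, (if h * y.1 = y.1 * h then (1 : ℂ) else 0)
      = ∑ i ∈ Ico 1 q, ∑ g : H, (if g * y0.1 ^ i * g⁻¹ = y.1 then (1 : ℂ) else 0) := by
  obtain ⟨g0, i0, hi0, hi0q, hy⟩ := conj_pow' hn H y0.1 y.1 y0.2.1 y0.2.2 y.2.1 y.2.2
  have hy0q : y0.1 ^ q = 1 := Subtype.ext y0.2.2
  have hord : orderOf (ψ y0.1) = q :=
    orderOf_eq_prime (by rw [← map_pow, hy0q, map_one]) hψ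
  have hψc : ∀ (g : H) (i : ℕ), ψ (g * y0.1 ^ i * g⁻¹) = (ψ y0.1) ^ i := by
    intro g i
    rw [map_mul, map_mul, map_inv, mul_right_comm, mul_inv_cancel, one_mul, map_pow]
  rw [Finset.sum_eq_single i0]
  · conv_rhs => rw [← Equiv.sum_comp (Equiv.mulRight g0)]
    refine Finset.sum_congr rfl fun h _ => ?_
    rw [Equiv.coe_mulRight]
    have h1 : h * y.1 = y.1 * h ↔ h * g0 * y0.1 ^ i0 * (h * g0)⁻¹ = y.1 := by
      have h2 : h * g0 * y0.1 ^ i0 * (h * g0)⁻¹ = h * y.1 * h⁻¹ := by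
        rw [hy]
        group
      rw [h2, mul_inv_eq_iff_eq_mul]
    simp only [h1]
  · intro i hi hne
    rw [mem_Ico] at hi
    refine Finset.sum_eq_zero fun g _ => ?_
    rw [if_neg]
    intro h
    apply hne
    have h1 : (ψ y0.1) ^ i = (ψ y0.1) ^ i0 := by rw [← hψc g i, h, hy, hψc]
    have h5 := pow_injOn_Iio_orderOf (x := ψ y0.1)
    rw [hord] at h5
    exact h5 hi.2 hi0q h1
  · intro h
    exact absurd (mem_Ico.2 ⟨hi0, hi0q⟩) h

open Classical in
theorem sum_neg (hn : Fintype.card α < 2 * q) (H : Subgroup (Perm α)) [Fintype H] (ψ : H →* ℂˣ)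
    (y0 : YH q H) (hψ : ψ y0.1 ≠ 1) :
    ∑ y : YH q H, (((ψ y.1)⁻¹ : ℂˣ) : ℂ) * ∑ h : H, (if h * y.1 = y.1 * h then (1 : ℂ) else 0)
      = - (Nat.card H : ℂ) := by
  have hy0q : y0.1 ^ q = 1 := Subtype.ext y0.2.2
  have hord : orderOf (ψ y0.1) = q :=
    orderOf_eq_prime (by rw [← map_pow, hy0q, map_one]) hψ
  have hψc : ∀ (g : H) (i : ℕ), ψ (g * y0.1 ^ i * g⁻¹) = (ψ y0.1) ^ i := by
    intro g i
    rw [map_mul, map_mul, map_inv, mul_right_comm, mul_inv_cancel, one_mul, map_pow]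
  have h1 : ∀ y : YH q H, (((ψ y.1)⁻¹ : ℂˣ) : ℂ)
      * ∑ h : H, (if h * y.1 = y.1 * h then (1 : ℂ) else 0)
      = ∑ i ∈ Ico 1 q, ∑ g : H, (if g * y0.1 ^ i * g⁻¹ = y.1 then
        (((ψ y0.1)⁻¹ : ℂˣ) : ℂ) ^ i else 0) := by
    intro y
    rw [sum_cj hn H ψ y0 hψ y, Finset.mul_sum]
    refine Finset.sum_congr rfl fun i _ => ?_
    rw [Finset.mul_sum]
    refine Finset.sum_congr rfl fun g _ => ?_
    by_cases h : g * y0.1 ^ i * g⁻¹ = y.1
    · rw [if_pos h, if_pos h, mul_one, ← h, hψc, ← Units.val_pow_eq_pow_val, inv_pow]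
    · rw [if_neg h, if_neg h, mul_zero]
  simp_rw [h1]
  rw [Finset.sum_comm]
  have h2 : ∀ i ∈ Ico 1 q, ∑ y : YH q H, ∑ g : H, (if g * y0.1 ^ i * g⁻¹ = y.1 then
        (((ψ y0.1)⁻¹ : ℂˣ) : ℂ) ^ i else 0)
      = (Nat.card H : ℂ) * (((ψ y0.1)⁻¹ : ℂˣ) : ℂ) ^ i := by
    intro i hi
    rw [mem_Ico] at hi
    rw [Finset.sum_comm]
    have h3 : ∀ g : H, ∑ y : YH q H, (if g * y0.1 ^ i * g⁻¹ = y.1 then
        (((ψ y0.1)⁻¹ : ℂˣ) : ℂ) ^ i else 0) = (((ψ y0.1)⁻¹ : ℂˣ) : ℂ) ^ i := by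
      intro g
      have hne : ((y0.1 : Perm α)) ^ i ≠ 1 := by
        intro h4
        have h5 := orderOf_dvd_of_pow_eq_one h4
        rw [ex_order y0.2.1 y0.2.2] at h5
        have := Nat.le_of_dvd hi.1 h5
        omega
      have hcoe : ((g * y0.1 ^ i * g⁻¹ : H) : Perm α)
          = (g : Perm α) * (y0.1 : Perm α) ^ i * (g : Perm α)⁻¹ := rfl
      let Y : YH q H := ⟨g * y0.1 ^ i * g⁻¹, by
        rw [hcoe, Ne, conj_eq_one_iff]
        exact hne, by
        rw [hcoe, conj_pow, ← pow_mul, mul_comm i q, pow_mul, y0.2.2]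
        simp⟩
      rw [Finset.sum_eq_single Y]
      · rw [if_pos rfl]
      · intro y _ hyY
        rw [if_neg]
        intro h4
        exact hyY (Subtype.ext h4.symm)
      · intro h4
        exact absurd (mem_univ Y) h4
    simp_rw [h3]
    rw [Finset.sum_const, card_univ, nsmul_eq_mul, Nat.card_eq_fintype_card]
  rw [Finset.sum_congr rfl h2, ← Finset.mul_sum]
  have hζ1 : (((ψ y0.1)⁻¹ : ℂˣ) : ℂ) ≠ 1 := by
    intro h
    apply hψ
    have : (ψ y0.1)⁻¹ = 1 := Units.ext h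
    exact inv_eq_one.1 this
  have hζq : (((ψ y0.1)⁻¹ : ℂˣ) : ℂ) ^ q = 1 := by
    rw [← Units.val_pow_eq_pow_val, inv_pow, ← map_pow, hy0q, map_one, inv_one, Units.val_one]
  have hgeom : ∑ j ∈ range q, (((ψ y0.1)⁻¹ : ℂˣ) : ℂ) ^ j = 0 := by
    have h1 := geom_sum_mul (((ψ y0.1)⁻¹ : ℂˣ) : ℂ) q
    rw [hζq, sub_self] at h1
    rcases mul_eq_zero.1 h1 with h2 | h2
    · exact h2
    · exact absurd (sub_eq_zero.1 h2) hζ1
  rw [Finset.range_eq_Ico, Finset.sum_eq_sum_Ico_succ_bot hq.out.pos, pow_zero] at hgeom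
  have h4 : ∑ i ∈ Ico 1 q, (((ψ y0.1)⁻¹ : ℂˣ) : ℂ) ^ i = -1 := by
    linear_combination hgeom
  rw [h4]
  ring

/-- **The class function is Heilbronn.** -/
theorem isHeilbronn_exF [Nonempty α] (hn : Fintype.card α < 2 * q) (hq2 : q ≠ 2)
    (hM : ∀ b : ℕ, q + 1 ≠ 2 ^ b) : IsHeilbronn (exF q : Perm α → ℂ) := by
  classical
  refine isHeilbronn_of_sum (fun g x => exF_conj g x) (fun H _ ψ => ?_)
  obtain ⟨N, hN⟩ := perm_coeff H α ψ
  have hN' : ∑ h : H, ((univ.filter fun x : α => (h : Perm α) x = x).card : ℂ)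
      * (((ψ h)⁻¹ : ℂˣ) : ℂ) = N * (Nat.card H : ℂ) := hN
  have hS : ∑ h : H, exF q (h : Perm α) * (((ψ h)⁻¹ : ℂˣ) : ℂ)
      = N * (Nat.card H : ℂ) - ∑ h : H, (((ψ h)⁻¹ : ℂˣ) : ℂ)
        + q * ∑ h : H, ((PS q (h : Perm α)).card : ℂ) * (((ψ h)⁻¹ : ℂˣ) : ℂ) := by
    rw [← hN', Finset.mul_sum, ← Finset.sum_sub_distrib, ← Finset.sum_add_distrib]
    refine Finset.sum_congr rfl fun h _ => ?_
    unfold exF
    ring
  rw [hS, sum_PS q H hn]
  by_cases htriv : ∀ y : YH q H, ψ y.1 = 1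
  · obtain ⟨N1, hN1⟩ := perm_coeff H (YH q H) ψ
    have h2 : (q : ℂ) * ∑ y : YH q H, ∑ d : H, (if Fixes (d : Perm α) (y.1 : Perm α) then
        (((ψ (y.1 * d))⁻¹ : ℂˣ) : ℂ) else 0) = N1 * (Nat.card H : ℂ) := by
      rw [← hN1, Finset.mul_sum]
      have h3 : ∀ y : YH q H, (q : ℂ) * ∑ d : H, (if Fixes (d : Perm α) (y.1 : Perm α) then
          (((ψ (y.1 * d))⁻¹ : ℂˣ) : ℂ) else 0)
          = ∑ h : H, (if h * y.1 = y.1 * h then (((ψ h)⁻¹ : ℂˣ) : ℂ) else 0) := by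
        intro y
        rw [sum_cent q H hn (fun h => (((ψ h)⁻¹ : ℂˣ) : ℂ)) y]
        have h4 : ∀ i ∈ range q, (∑ d : H, if Fixes (d : Perm α) (y.1 : Perm α) then
            (((ψ (y.1 ^ i * d))⁻¹ : ℂˣ) : ℂ) else 0)
            = ∑ d : H, if Fixes (d : Perm α) (y.1 : Perm α) then
            (((ψ (y.1 * d))⁻¹ : ℂˣ) : ℂ) else 0 := by
          intro i _
          refine Finset.sum_congr rfl fun d _ => ?_
          rw [map_mul, map_mul, map_pow, htriv y, one_pow]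
        rw [Finset.sum_congr rfl h4, Finset.sum_const, card_range, nsmul_eq_mul]
      simp_rw [h3]
      rw [Finset.sum_comm]
      refine Finset.sum_congr rfl fun h _ => ?_
      rw [← Finset.sum_filter, Finset.sum_const, nsmul_eq_mul]
      congr 3
      ext y
      simp only [mem_filter, mem_univ, true_and]
      exact (YH_smul_iff q H h y).symm
    rw [h2]
    by_cases hψ : ψ = 1
    · have hN1' : 1 ≤ N := perm_coeff_pos H ψ hN'
        ⟨Classical.arbitrary α, fun h _ => by rw [hψ]; rfl⟩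
      refine ⟨N - 1 + N1, ?_⟩
      subst hψ
      simp only [MonoidHom.one_apply, inv_one, Units.val_one, Finset.sum_const, card_univ,
        nsmul_eq_mul, mul_one]
      rw [← Nat.card_eq_fintype_card]
      push_cast [Nat.cast_sub hN1']
      ring
    · refine ⟨N + N1, ?_⟩
      rw [sum_psi_inv_zero ψ hψ]
      push_cast
      ring
  · push Not at htriv
    obtain ⟨y0, hy0⟩ := htriv
    have hψ : ψ ≠ 1 := by
      rintro rfl
      exact hy0 rfl
    rw [sum_psi_inv_zero ψ hψ]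
    by_cases hD : ∀ d : H, Fixes (d : Perm α) (y0.1 : Perm α) → ψ d = 1
    · have hN1 : 1 ≤ N := perm_coeff_pos H ψ hN'
        (stab_trivial hn hq2 hM H ψ y0.1 y0.2.1 y0.2.2 hy0 hD)
      have h2 : (q : ℂ) * ∑ y : YH q H, ∑ d : H, (if Fixes (d : Perm α) (y.1 : Perm α) then
          (((ψ (y.1 * d))⁻¹ : ℂˣ) : ℂ) else 0) = - (Nat.card H : ℂ) := by
        rw [← sum_neg hn H ψ y0 hy0, Finset.mul_sum]
        refine Finset.sum_congr rfl fun y _ => ?_
        rw [← sum_cent_one hn H y, ← mul_assoc, mul_comm (((ψ y.1)⁻¹ : ℂˣ) : ℂ), mul_assoc]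
        congr 1
        rw [Finset.mul_sum]
        refine Finset.sum_congr rfl fun d _ => ?_
        by_cases hd : Fixes (d : Perm α) (y.1 : Perm α)
        · rw [if_pos hd, if_pos hd, map_mul, fixes_triv hn H ψ y0 y hD d hd, mul_one, mul_one]
        · rw [if_neg hd, if_neg hd, mul_zero]
      refine ⟨N - 1, ?_⟩
      rw [h2]
      push_cast [Nat.cast_sub hN1]
      ring
    · refine ⟨N, ?_⟩
      have h2 : ∀ y : YH q H, ∑ d : H, (if Fixes (d : Perm α) (y.1 : Perm α) then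
          (((ψ (y.1 * d))⁻¹ : ℂˣ) : ℂ) else 0) = 0 := by
        intro y
        have h3 : ∀ d : H, (if Fixes (d : Perm α) (y.1 : Perm α) then
            (((ψ (y.1 * d))⁻¹ : ℂˣ) : ℂ) else 0)
            = (((ψ y.1)⁻¹ : ℂˣ) : ℂ) * (if d ∈ FixSub H (y.1 : Perm α) then
              (((ψ d)⁻¹ : ℂˣ) : ℂ) else 0) := by
          intro d
          by_cases hd : Fixes (d : Perm α) (y.1 : Perm α)
          · rw [if_pos hd, if_pos (mem_FixSub.2 hd), map_mul, mul_inv, Units.val_mul]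
          · rw [if_neg hd, if_neg (fun h => hd (mem_FixSub.1 h)), mul_zero]
        simp_rw [h3]
        rw [← Finset.mul_sum, sum_sub, if_neg, mul_zero]
        intro h4
        apply hD
        intro d hd
        exact fixes_triv hn H ψ y y0 (fun d' hd' => h4 d' hd') d hd
      simp_rw [h2]
      simp

end Pool.Agent.H72.Exact
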