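import Pool.Agent.H72.Exact.Trans

/-!
A transitive Frobenius-type group on `2 u` points, `u` odd.
-/

open Finset Equiv Equiv.Perm

namespace Pool.Agent.H72.Exact

open Pool.Agent.H7.HB

set_option linter.unusedSectionVars false

section

variable (u : ℕ)

/-- functions whose sums along the cosets of nontrivial cyclic subgroups vanish -/
def E0 : AddSubgroup (ZMod u → ZMod 2) where
  carrier := {f | ∀ c : ZMod u, c ≠ 0 → ∀ i, ∑ j ∈ range (addOrderOf c), f (i + j • c) = 0}
  zero_mem' := by
    intro c _ i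
    simp
  add_mem' := by
    intro f g hf hg c hc i
    simp only [Pi.add_apply, Finset.sum_add_distrib]
    rw [hf c hc i, hg c hc i, add_zero]
  neg_mem' := by
    intro f hf c hc i
    simp only [Pi.neg_apply, Finset.sum_neg_distrib]
    rw [hf c hc i, neg_zero]

theorem mem_E0 {f : ZMod u → ZMod 2} : f ∈ E0 u ↔
    ∀ c : ZMod u, c ≠ 0 → ∀ i, ∑ j ∈ range (addOrderOf c), f (i + j • c) = 0 := Iff.rfl

theorem E0_shift {f : ZMod u → ZMod 2} (hf : f ∈ E0 u) (c : ZMod u) :
    (fun i => f (i + c)) ∈ E0 u := by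
  intro c' hc' i
  rw [← hf c' hc' (i + c)]
  refine Finset.sum_congr rfl fun j _ => ?_
  rw [add_right_comm]

theorem exists_E0 [NeZero u] (hu : Odd u) (i : ZMod u) : ∃ f ∈ E0 u, f i = 1 := by
  classical
  have hu2 : (u : ZMod 2) ≠ 0 := by
    rw [Ne, ZMod.natCast_eq_zero_iff_even, Nat.not_even_iff_odd]
    exact hu
  have : NeZero (u : ZMod 2) := ⟨hu2⟩
  obtain ⟨ζ, hζ⟩ := HasEnoughRootsOfUnity.exists_primitiveRoot (AlgebraicClosure (ZMod 2)) u
  let χ : AddChar (ZMod u) (AlgebraicClosure (ZMod 2)) := AddChar.zmodChar u hζ.pow_eq_one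
  obtain ⟨lam, hlam⟩ := (Algebra.linearMap (ZMod 2) (AlgebraicClosure (ZMod 2))).exists_leftInverse_of_injective
    (LinearMap.ker_eq_bot.2 (algebraMap (ZMod 2) (AlgebraicClosure (ZMod 2))).injective)
  have hlam1 : lam 1 = 1 := by
    have := LinearMap.congr_fun hlam 1
    simpa using this
  refine ⟨fun j => lam (χ (j - i)), ?_, ?_⟩
  · intro c hc i'
    have hc1 : χ c ≠ 1 := by
      intro h
      rw [AddChar.zmodChar_apply, hζ.pow_eq_one_iff_dvd] at h
      have h1 := Nat.eq_zero_of_dvd_of_lt h (ZMod.val_lt c)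
      exact hc ((ZMod.val_eq_zero c).1 h1)
    have hcl : (χ c) ^ addOrderOf c = 1 := by
      rw [← AddChar.map_nsmul_eq_pow, addOrderOf_nsmul_eq_zero, AddChar.map_zero_eq_one]
    have hgeom : ∑ j ∈ range (addOrderOf c), (χ c) ^ j = 0 := by
      have h1 := geom_sum_mul (χ c) (addOrderOf c)
      rw [hcl, sub_self] at h1
      rcases mul_eq_zero.1 h1 with h2 | h2
      · exact h2
      · exact absurd (sub_eq_zero.1 h2) hc1
    have h1 : ∀ j ∈ range (addOrderOf c), lam (χ (i' + j • c - i))
        = lam (χ (i' - i) * (χ c) ^ j) := by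
      intro j _
      congr 1
      rw [← AddChar.map_nsmul_eq_pow, ← AddChar.map_add_eq_mul]
      congr 1
      ring
    rw [Finset.sum_congr rfl h1, ← map_sum, ← Finset.mul_sum, hgeom, mul_zero, map_zero]
  · simp only [sub_self]
    rw [AddChar.map_zero_eq_one, hlam1]

/-- The group. -/
def KK : Subgroup (Perm (ZMod u × ZMod 2)) where
  carrier := {g | ∃ c : ZMod u, ∃ f ∈ E0 u, ∀ p, g p = (p.1 + c, p.2 + f p.1)}
  one_mem' := ⟨0, 0, (E0 u).zero_mem, fun p => by simp⟩
  mul_mem' := by
    rintro g g' ⟨c, f, hf, hg⟩ ⟨c', f', hf', hg'⟩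
    refine ⟨c' + c, f' + fun i => f (i + c'), (E0 u).add_mem hf' (E0_shift u hf c'), fun p => ?_⟩
    rw [mul_apply, hg', hg]
    refine Prod.ext ?_ ?_
    · change p.1 + c' + c = p.1 + (c' + c)
      rw [add_assoc]
    · change p.2 + f' p.1 + f (p.1 + c') = p.2 + (f' p.1 + f (p.1 + c'))
      rw [add_assoc]
  inv_mem' := by
    rintro g ⟨c, f, hf, hg⟩
    refine ⟨-c, -fun i => f (i + -c), (E0 u).neg_mem (E0_shift u hf (-c)), fun p => ?_⟩
    rw [inv_eq_iff_eq, hg]
    refine Prod.ext ?_ ?_
    · change p.1 = p.1 + -c + c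
      ring
    · change p.2 = p.2 + -f (p.1 + -c) + f (p.1 + -c)
      ring

theorem sum_E0 [NeZero u] (hu1 : 1 < u) {f : ZMod u → ZMod 2} (hf : f ∈ E0 u) :
    ∑ i, f i = 0 := by
  have : Fact (1 < u) := ⟨hu1⟩
  have h1 := hf 1 one_ne_zero 0
  rw [ZMod.addOrderOf_one] at h1
  rw [← h1]
  symm
  refine Finset.sum_bij (fun j _ => (j : ZMod u)) (fun _ _ => mem_univ _) ?_ ?_ ?_
  · intro a ha b hb hab
    rw [mem_range] at ha hb
    have h2 := congrArg ZMod.val hab
    rwa [ZMod.val_natCast_of_lt ha, ZMod.val_natCast_of_lt hb] at h2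
  · intro i _
    exact ⟨i.val, mem_range.2 (ZMod.val_lt i), ZMod.natCast_zmod_val i⟩
  · intro j _
    rw [zero_add, nsmul_eq_mul, mul_one]

theorem nice_KK [NeZero u] (hu : Odd u) (hu1 : 1 < u) (g : Perm (ZMod u × ZMod 2))
    (hg : g ∈ KK u) : Nice g := by
  classical
  have h2Z : ∀ i : ZMod 2, i + i = 0 := by decide
  obtain ⟨c, f, hf, hg⟩ := hg
  by_cases hc : c = 0
  · subst hc
    left
    have hsq : g ^ 2 = 1 := by
      ext1 p
      rw [pow_two, mul_apply, hg, hg, one_apply]
      refine Prod.ext ?_ ?_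
      · change p.1 + 0 + 0 = p.1
        ring
      · change p.2 + f p.1 + f (p.1 + 0) = p.2
        rw [add_zero, add_assoc, h2Z, add_zero]
    refine ⟨hsq, ?_⟩
    rw [sign_of_sq hsq]
    have hgt : g = tr (ZMod u) (ZMod 2) (Multiplicative.ofAdd f) := by
      ext1 p
      rw [hg, tr_apply]
      refine Prod.ext ?_ rfl
      change p.1 + 0 = p.1
      rw [add_zero]
    rw [hgt, tr_support_card, ZMod.card, Nat.mul_div_cancel_left _ (by norm_num)]
    have hsum := sum_E0 u hu1 hf
    have h01 : ∀ z : ZMod 2, z = if z ≠ 0 then 1 else 0 := by decide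
    have h3 : ∑ i, f i = ((#(univ.filter fun b => f b ≠ 0) : ℕ) : ZMod 2) := by
      rw [← Finset.sum_boole]
      exact Finset.sum_congr rfl fun i _ => h01 _
    rw [h3, ZMod.natCast_eq_zero_iff_even] at hsum
    exact hsum.neg_one_pow
  · right; left
    have hpow : ∀ (k : ℕ) (p : ZMod u × ZMod 2), (g ^ k) p
        = (p.1 + k • c, p.2 + ∑ j ∈ range k, f (p.1 + j • c)) := by
      intro k p
      induction k with
      | zero => simp
      | succ k ih =>
        rw [pow_succ', mul_apply, ih, hg]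
        refine Prod.ext ?_ ?_
        · change p.1 + k • c + c = p.1 + (k + 1) • c
          rw [add_assoc, succ_nsmul]
        · change p.2 + ∑ j ∈ range k, f (p.1 + j • c) + f (p.1 + k • c) = _
          rw [Finset.sum_range_succ, add_assoc]
    have hgl : g ^ addOrderOf c = 1 := by
      ext1 p
      rw [hpow, hf c hc, addOrderOf_nsmul_eq_zero, one_apply, add_zero, add_zero]
    have hfst : ∀ (i : ℤ) (p : ZMod u × ZMod 2), ((g ^ i) p).1 = p.1 + i • c := by
      intro i
      induction i using Int.induction_on with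
      | zero => intro p; simp
      | succ i ih =>
        intro p
        rw [zpow_add, zpow_one, mul_apply, ih, hg]
        change p.1 + c + (i : ℤ) • c = _
        rw [add_smul, one_smul]
        ring
      | pred i ih =>
        intro p
        rw [zpow_sub, zpow_one, mul_apply, ih, sub_smul, one_smul]
        have h4 : (g⁻¹ p).1 = p.1 - c := by
          have h5 := congrArg Prod.fst (hg (g⁻¹ p))
          rw [ap_inv] at h5
          change p.1 = (g⁻¹ p).1 + c at h5
          rw [h5]
          ring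
        rw [h4]
        ring
    have hld : addOrderOf c ∣ u := by
      apply addOrderOf_dvd_of_nsmul_eq_zero
      rw [nsmul_eq_mul, ZMod.natCast_self, zero_mul]
    have hl0 : 0 < addOrderOf c := addOrderOf_pos c
    have hl1 : addOrderOf c ≠ 1 := fun h => hc (AddMonoid.addOrderOf_eq_one_iff.1 h)
    refine ⟨addOrderOf c, odd_of_dvd hld hu, by omega, fun p => ⟨hl0, fun i => ⟨fun h => ?_,
      fun h => ?_⟩⟩, fun _ => ?_⟩
    · have h4 := congrArg Prod.fst h
      rw [hfst, add_eq_left] at h4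
      exact addOrderOf_dvd_iff_zsmul_eq_zero.2 h4
    · obtain ⟨j, rfl⟩ := h
      rw [zpow_mul, zpow_natCast, hgl, one_zpow, one_apply]
    · rw [Fintype.card_prod, ZMod.card, ZMod.card, mul_comm]
      exact Nat.mul_le_mul_right _ (Nat.le_of_dvd hu.pos hld)

theorem hasNice_two [NeZero u] (hu : Odd u) (hu1 : 1 < u) : HasNice (ZMod u × ZMod 2) := by
  classical
  refine ⟨KK u, inferInstance, Fintype.ofFinite _, (KK u).subtype, fun a b => ?_,
    fun k => nice_KK u hu hu1 k k.2⟩
  obtain ⟨f, hf, hfa⟩ : ∃ f ∈ E0 u, a.2 + f a.1 = b.2 := by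
    by_cases h : a.2 = b.2
    · exact ⟨0, (E0 u).zero_mem, by rw [h]; exact add_zero _⟩
    · obtain ⟨f, hf, hf1⟩ := exists_E0 u hu a.1
      refine ⟨f, hf, ?_⟩
      rw [hf1]
      have : ∀ z w : ZMod 2, z ≠ w → z + 1 = w := by decide
      exact this _ _ h
  let g : Perm (ZMod u × ZMod 2) :=
    { toFun := fun p => (p.1 + (b.1 - a.1), p.2 + f p.1)
      invFun := fun p => (p.1 - (b.1 - a.1), p.2 - f (p.1 - (b.1 - a.1)))
      left_inv := by
        intro p
        simp
      right_inv := by
        intro p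
        simp }
  refine ⟨⟨g, b.1 - a.1, f, hf, fun p => rfl⟩, ?_⟩
  change (a.1 + (b.1 - a.1), a.2 + f a.1) = b
  rw [hfa]
  refine Prod.ext ?_ rfl
  change a.1 + (b.1 - a.1) = b.1
  ring

end

/-- For a composite number of points there is a transitive group of nice permutations. -/
theorem hasNice_of_composite (α : Type) [Fintype α] [DecidableEq α] (h1 : 1 < Fintype.card α)
    (hc : ¬ (Fintype.card α).Prime) : HasNice α := by
  classical
  obtain ⟨a, u, hu, hn⟩ := Nat.exists_eq_two_pow_mul_odd (show Fintype.card α ≠ 0 by omega)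
  have : NeZero u := ⟨hu.pos.ne'⟩
  have hn' : Fintype.card α = u * 2 ^ a := by rw [hn, mul_comm]
  by_cases ha : a = 1
  · have h2 : 1 < u := by
      by_contra h3
      have h4 : u = 1 := by
        have := hu.pos
        omega
      rw [hn', h4, ha] at hc
      exact hc (by norm_num)
    have hcard : Fintype.card (ZMod u × ZMod 2) = Fintype.card α := by
      rw [Fintype.card_prod, ZMod.card, ZMod.card, hn', ha, pow_one]
    exact (hasNice_two u hu h2).congr (Fintype.equivOfCardEq hcard)
  · have hcard : Fintype.card (RG u a) = Fintype.card α := by rw [card_RG, hn']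
    exact (hasNice_regular u a hu ha (by rw [← hn']; exact hc) (by rw [← hn']; exact h1)).congr
      (Fintype.equivOfCardEq hcard)

end Pool.Agent.H72.Exact
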