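import Pool.Agent.H72.Exact.SymInv

/-!
Symmetric groups, case two: values on nice permutations, and the contradiction for composite
degree.
-/

open Finset Equiv Equiv.Perm

namespace Pool.Agent.H72.Exact

open Pool.Agent.H7.HB

set_option linter.unusedSectionVars false

variable {α : Type} [Fintype α] [DecidableEq α]
variable {θ : Perm α → ℂ} {r : ℕ}

theorem lemmaT' (hT : Two θ r) {u : ℕ} (hu : Odd u)
    (hup : ∀ q : ℕ, q.Prime → q ∣ u → 2 * q ≤ Fintype.card α)
    (g : Perm α) (hg : g ^ u = 1) : θ g = (r : ℂ) - #g.support := by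
  classical
  induction hN : N g using Nat.strong_induction_on generalizing g with
  | _ N0 ih =>
  subst hN
  have IH : ∀ y : Perm α, N y < N g → y ^ u = 1 → θ y = (r : ℂ) - #y.support :=
    fun y hy hs => ih _ hy y hs rfl
  by_cases hg1 : g = 1
  · subst hg1
    rw [hT.hr]
    simp
  obtain ⟨x, hx⟩ : ∃ x, g x ≠ x := by
    by_contra hcon
    push Not at hcon
    exact hg1 (Equiv.ext hcon)
  obtain ⟨l, hl⟩ := exists_per g x
  have hl1 := hl.ne_one.1 hx
  obtain ⟨q, hq, m, rfl⟩ := Nat.exists_prime_and_dvd hl1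
  have hm : 0 < m := Nat.pos_of_mul_pos_left hl.1
  have hqmu : q * m ∣ u := hl.dvd_of_pow hg
  have hqu : q ∣ u := dvd_trans (Dvd.intro _ rfl) hqmu
  have hqo : Odd q := odd_of_dvd hqu hu
  have hq2 : q ≠ 2 := by
    rintro rfl
    exact absurd hqo (by decide)
  have hu0 : 0 < u := hu.pos
  have hn := hT.hn
  have hqn : 2 * q ≤ Fintype.card α := hup q hq hqu
  have hz := cyc_isCycle hq.one_lt hm hl
  have hzc := cyc_card hq hm hl
  have hzq := cyc_pow hl
  have hx'u := cut_pow_eq_one hm hl hg
  have hx'N := cut_N hq.one_lt hm hl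
  have hx'θ := IH _ hx'N hx'u
  rcases Nat.lt_or_ge 1 m with hm1 | hm1
  · -- splitting
    have hs : θ ((cyc g m x)⁻¹ * g) = θ g := by
      refine split_conj hT.heil g _ (fun i => cyc_commute g m x i) ?_
      intro E _ _ φ κ a b hφ ha hb hmult hab
      have h1 : g * cyc g m x * g⁻¹ = cyc g m (g x) := by
        have := cyc_conj g m x 1
        rw [zpow_one, zpow_neg_one] at this
        exact this
      have hdis : Disjoint (φ a) (φ b) := by
        rw [ha, hb, h1]
        apply cycleOf_disjoint
        have := not_sameCycle_of hl (i := 1) (by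
          intro h'
          have h'' : m ∣ 1 := by exact_mod_cast h'
          have := Nat.le_of_dvd one_pos h''
          omega)
        rwa [zpow_one] at this
      have hcyc2 : (φ b).IsCycle := by
        rw [hb]
        exact hz.conj
      have hcard2 : #(φ b).support = q := by
        rw [hb, ← sum_cycleType, cycleType_conj, sum_cycleType]
        exact hzc
      have h2 := x11 hT hq hq2 hqn φ hφ κ a b (by rw [ha]; exact hz) (by rw [ha]; exact hzc)
        hcyc2 hcard2 hdis hmult
      rcases h2 with h2 | h2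
      · exact h2
      · rw [hab, h2]
    rw [← hs, hx'θ, cut_support hq.one_lt hm1 hl]
  · have hm' : m = 1 := by omega
    subst hm'
    have hd := cyc_one_disjoint g x
    set z := cyc g 1 x with hzdef
    set x' := z⁻¹ * g with hx'def
    let V := Subgroup.zpowers z
    let _ : Fintype V := Fintype.ofFinite V
    let _ : CommGroup V := { (inferInstance : Group V) with
      mul_comm := fun a b => by
        obtain ⟨a, i, rfl⟩ := a
        obtain ⟨b, j, rfl⟩ := b
        apply Subtype.ext
        simp only [Subgroup.coe_mul]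
        rw [← zpow_add, ← zpow_add, add_comm] }
    have hVcard : Fintype.card V = q := by
      rw [← Nat.card_eq_fintype_card, Nat.card_zpowers, hz.orderOf, hzc]
    have hdV : ∀ v : V, Disjoint (v : Perm α) x' := by
      rintro ⟨_, k, rfl⟩
      have := hd.zpow_disjoint_zpow k 1
      rwa [zpow_one] at this
    have hne : (⟨z, Subgroup.mem_zpowers z⟩ : V) ≠ 1 := by
      intro h
      exact hz.ne_one (congrArg Subtype.val h)
    have key := disjoint_shift hT.heil V.subtype x'
      (fun v => by
        rw [mul_inv_eq_iff_eq_mul]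
        exact (hdV v).commute.symm)
      (odd_of_dvd (orderOf_dvd_of_pow_eq_one hx'u) hu)
      (fun v => hT.heil.of_isConj (isConj_disjoint_inv (hdV v)))
      (fun v hv => by
        have hv1 : (v : Perm α) ≠ 1 := fun h => hv (Subtype.ext h)
        rw [hT.hr, hVcard]
        exact (lemmaQ hT hq hq2 hqn).1 _ (pow_of_mem_zpowers hzq v.2)
          (by rw [V.subtype_apply, supp_of_mem_zpowers hz v.2 hv1, hzc]))
      ⟨z, Subgroup.mem_zpowers z⟩ hne
    have hzx : z * x' = g := by
      rw [hx'def]
      group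
    rw [hVcard] at key
    have hθ : θ g = θ x' - q := by
      rw [← key]
      change θ g = θ (z * x')
      rw [hzx]
    have hsupp : #g.support = q + #x'.support := by
      conv_lhs => rw [← hzx]
      rw [hd.card_support_mul, hzc]
    rw [hθ, hx'θ, hsupp]
    push_cast
    ring


section colour

variable {g : Perm α} {f : α → Bool}

theorem colour_pow (hf : ∀ y, g y ≠ y → f (g y) = !f y) {x : α} (hx : g x ≠ x) (i : ℕ) :
    f ((g ^ i) x) = xor (f x) (decide (i % 2 = 1)) := by
  induction i with
  | zero => simp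
  | succ i ih =>
    have hm : g ((g ^ i) x) ≠ (g ^ i) x := by
      intro h
      apply hx
      rw [ap_pow, pow_succ, mul_apply] at h
      exact (g ^ i).injective h
    rw [pow_succ', mul_apply, hf _ hm, ih]
    rcases Nat.mod_two_eq_zero_or_one i with h | h
    · have h1 : (i + 1) % 2 = 1 := by omega
      rw [h, h1]
      cases f x <;> decide
    · have h1 : (i + 1) % 2 = 0 := by omega
      rw [h, h1]
      cases f x <;> decide

theorem colour_even (hf : ∀ y, g y ≠ y → f (g y) = !f y) {i : ℕ} (hi : Even i) (x : α) :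
    f ((g ^ i) x) = f x := by
  by_cases hx : g x = x
  · rw [pow_apply_eq_self_of_apply_eq_self hx]
  · rw [colour_pow hf hx]
    have : i % 2 = 0 := Nat.even_iff.1 hi
    rw [this]
    cases f x <;> decide

theorem even_per (hf : ∀ y, g y ≠ y → f (g y) = !f y) {x : α} (hx : g x ≠ x) {l : ℕ}
    (hl : HasPer g x l) : Even l := by
  have h1 := (hl.2 l).2 (dvd_refl _)
  rw [zpow_natCast] at h1
  have h2 := colour_pow hf hx l
  rw [h1] at h2
  rw [Nat.even_iff]
  by_contra h3
  have h4 : l % 2 = 1 := by omega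
  rw [h4] at h2
  revert h2
  cases f x <;> decide

theorem cut_colour (hf : ∀ y, g y ≠ y → f (g y) = !f y) {x : α} {q m : ℕ} (hq : 1 < q)
    (hm : 1 < m) (hm2 : Even m) (h : HasPer g x (q * m)) (y : α)
    (hy : ((cyc g m x)⁻¹ * g) y ≠ y) : f (((cyc g m x)⁻¹ * g) y) = !f y := by
  have h1 : g y ≠ y := by
    have h2 : y ∈ ((cyc g m x)⁻¹ * g).support := mem_support.2 hy
    rw [cut_support hq hm h] at h2
    exact mem_support.1 h2
  have h3 : ∀ w, f (cyc g m x w) = f w := by
    intro w
    unfold cyc
    rw [cycleOf_apply]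
    split_ifs
    · exact colour_even hf hm2 w
    · rfl
  have h4 : ∀ w, f ((cyc g m x)⁻¹ w) = f w := by
    intro w
    rw [← h3 ((cyc g m x)⁻¹ w), ap_inv]
  rw [mul_apply, h4, hf y h1]

/-- a point whose period has an odd prime factor -/
theorem exists_cut (hf : ∀ y, g y ≠ y → f (g y) = !f y) {u : ℕ} (hu : Odd u)
    (hg : g ^ (2 * u) = 1) (h2 : g ^ 2 ≠ 1) :
    ∃ (x : α) (q m : ℕ), q.Prime ∧ q ∣ u ∧ 1 < m ∧ Even m ∧ HasPer g x (q * m) := by
  obtain ⟨x, hx⟩ : ∃ x, (g ^ 2) x ≠ x := by
    by_contra hcon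
    push Not at hcon
    exact h2 (Equiv.ext hcon)
  have hx1 : g x ≠ x := fun h => hx (pow_apply_eq_self_of_apply_eq_self h 2)
  obtain ⟨l, hl⟩ := exists_per g x
  have hle := even_per hf hx1 hl
  obtain ⟨l', rfl⟩ := hle.two_dvd
  have hl'u : l' ∣ u := Nat.dvd_of_mul_dvd_mul_left (by norm_num) (hl.dvd_of_pow hg)
  have hl'1 : l' ≠ 1 := by
    rintro rfl
    apply hx
    have := (hl.2 2).2 (by norm_num)
    exact_mod_cast this
  obtain ⟨q, hq, m', rfl⟩ := Nat.exists_prime_and_dvd hl'1
  have hm' : 0 < m' := by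
    rcases Nat.eq_zero_or_pos m' with h | h
    · subst h
      have := hl.1
      simp at this
    · exact h
  refine ⟨x, q, 2 * m', hq, dvd_trans (Dvd.intro _ rfl) hl'u, by omega, even_two_mul _, ?_⟩
  have : q * (2 * m') = 2 * (q * m') := by ring
  rw [this]
  exact hl

end colour

theorem lemmaS (hT : Two θ r) {u : ℕ} (hu : Odd u)
    (hup : ∀ q : ℕ, q.Prime → q ∣ u → 2 * q ≤ Fintype.card α) (f : α → Bool)
    (g : Perm α) (hg : g ^ (2 * u) = 1) (hs : sign g = 1)
    (hf : ∀ y, g y ≠ y → f (g y) = !f y) : θ g = (r : ℂ) - #g.support := by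
  classical
  induction hN : N g using Nat.strong_induction_on generalizing g with
  | _ N0 ih =>
  subst hN
  by_cases h2 : g ^ 2 = 1
  · exact hT.inv g h2 hs
  obtain ⟨x, q, m, hq, hqu, hm1, hme, hl⟩ := exists_cut hf hu hg h2
  have hm : 0 < m := by omega
  have hqn := hup q hq hqu
  have hqo : Odd q := odd_of_dvd hqu hu
  have hq2 : q ≠ 2 := by
    rintro rfl
    exact absurd hqo (by decide)
  have hz := cyc_isCycle hq.one_lt hm hl
  have hzc := cyc_card hq hm hl
  have hzs : sign (cyc g m x) = 1 := sign_of_order_odd hqo (cyc_pow hl)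
  have hx'θ := ih _ (cut_N hq.one_lt hm hl) ((cyc g m x)⁻¹ * g) (cut_pow_eq_one hm hl hg)
    (by rw [Perm.sign_mul, Perm.sign_inv, hzs, hs, one_mul])
    (fun y hy => cut_colour hf hq.one_lt hm1 hme hl y hy) rfl
  have hs : θ ((cyc g m x)⁻¹ * g) = θ g := by
    refine split_conj hT.heil g _ (fun i => cyc_commute g m x i) ?_
    intro E _ _ φ κ a b hφ ha hb hmult hab
    have h1 : g * cyc g m x * g⁻¹ = cyc g m (g x) := by
      have := cyc_conj g m x 1
      rw [zpow_one, zpow_neg_one] at this
      exact this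
    have hdis : Disjoint (φ a) (φ b) := by
      rw [ha, hb, h1]
      apply cycleOf_disjoint
      have := not_sameCycle_of hl (i := 1) (by
        intro h'
        have h'' : m ∣ 1 := by exact_mod_cast h'
        have := Nat.le_of_dvd one_pos h''
        omega)
      rwa [zpow_one] at this
    have hcyc2 : (φ b).IsCycle := by
      rw [hb]
      exact hz.conj
    have hcard2 : #(φ b).support = q := by
      rw [hb, ← sum_cycleType, cycleType_conj, sum_cycleType]
      exact hzc
    have h2 := x11 hT hq hq2 hqn φ hφ κ a b (by rw [ha]; exact hz) (by rw [ha]; exact hzc)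
      hcyc2 hcard2 hdis hmult
    rcases h2 with h2 | h2
    · exact h2
    · rw [hab, h2]
  rw [← hs, hx'θ, cut_support hq.one_lt hm1 hl]

theorem per_le {g : Perm α} {y : α} {l : ℕ} (h : HasPer g y l) : l ≤ Fintype.card α := by
  have h1 : Function.Injective (fun i : Fin l => (g ^ (i : ℕ)) y) := by
    intro i j hij
    have key : ∀ a b : ℕ, a ≤ b → b < l → (g ^ a) y = (g ^ b) y → a = b := by
      intro a b hab hb he
      have h2 : (g ^ ((b - a : ℕ) : ℤ)) y = y := by
        rw [zpow_natCast]
        apply (g ^ a).injective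
        rw [← mul_apply, ← pow_add, he]
        congr 2
        omega
      have h3 := (h.2 _).1 h2
      have h4 : l ∣ b - a := by exact_mod_cast h3
      have h5 := Nat.eq_zero_of_dvd_of_lt h4 (by omega)
      omega
    apply Fin.ext
    rcases le_total (i : ℕ) (j : ℕ) with h6 | h6
    · exact key _ _ h6 j.2 hij
    · exact (key _ _ h6 i.2 hij.symm).symm
  have h2 := Fintype.card_le_of_injective _ h1
  rwa [Fintype.card_fin] at h2

/-- prime factors of the common period -/
theorem OddE_prime {l : ℕ} (hl : Odd l) (hp : l.Prime → 2 * l ≤ Fintype.card α)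
    (hle : l ≤ Fintype.card α) {q : ℕ} (hq : q.Prime) (hql : q ∣ l) :
    2 * q ≤ Fintype.card α := by
  obtain ⟨c, rfl⟩ := hql
  have hc : c ≠ 0 := by
    rintro rfl
    rw [mul_zero] at hl
    exact absurd hl (by decide)
  by_cases hc1 : c = 1
  · subst hc1
    rw [mul_one] at hp
    exact hp hq
  · have : q * 2 ≤ q * c := Nat.mul_le_mul_left _ (by omega)
    omega

theorem nice_value [Nonempty α] (hT : Two θ r) {g : Perm α} (h : Nice g) :
    θ g = (r : ℂ) - #g.support := by
  rcases h with ⟨h1, h2⟩ | ⟨l, h1, h2, h3, h4⟩ | ⟨u, f, h1, h2, h3, h4, h5⟩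
  · exact hT.inv g h1 h2
  · have hgl : g ^ l = 1 := by
      ext y
      have := ((h3 y).2 l).2 (dvd_refl _)
      rw [zpow_natCast] at this
      rw [this, one_apply]
    exact lemmaT' hT h1 (fun q hq hql => OddE_prime h1 h4
      (per_le (h3 (Classical.arbitrary α))) hq hql) g hgl
  · exact lemmaS hT h1 (fun q hq hqu => by have := h2 q hq hqu; omega) f g h3 h4 h5

theorem two_false' (hT : Two θ r) (hc : ¬ (Fintype.card α).Prime)
    (hrn : r + 2 ≤ Fintype.card α) : False := by
  have hn := hT.hn
  have : Nonempty α := Fintype.card_pos_iff.1 (by omega)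
  obtain ⟨K, _, _, ψ, htr, hN⟩ := hasNice_of_composite α (by omega) hc
  have := trans_bound hT.heil ψ ψ htr (fun k => nice_value hT (hN k))
  omega

/-- **Main theorem on Heilbronn class functions**: degree at most `n - 2`, and at most `n - 3` if
`n` is prime, forces `θ = a + b * sign`. -/
theorem main' (h : Heil θ) (hr : θ 1 = r) (hn : 10 ≤ Fintype.card α)
    (hrn : r + 2 ≤ Fintype.card α) (hp : (Fintype.card α).Prime → r + 3 ≤ Fintype.card α) :
    ∃ a b : ℕ, ∀ g, θ g = (a : ℂ) + b * ((sgnC g : ℂˣ) : ℂ) := by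
  classical
  by_cases h3 : r + 3 ≤ Fintype.card α
  · exact main h hr hn h3
  obtain ⟨d, hd, hinv⟩ := even_involutions' h hr hn hrn
  have hd' : d = 0 ∨ d = 1 := by omega
  rcases hd' with rfl | rfl
  · have hinv' : ∀ x : Perm α, x ^ 2 = 1 → sign x = 1 → θ x = r := by
      intro x hx hs
      rw [hinv x hx hs]
      simp
    obtain ⟨u, v, huv⟩ : ∃ u v : α, u ≠ v :=
      Fintype.one_lt_card_iff.1 (show 1 < Fintype.card α by omega)
    have heven := fun g (hg : sign g = 1) => case_one_even h hr hn hinv' g hg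
    have hodd := fun g (hg : sign g = -1) => case_one_odd h hr hn hinv' hg (sign_swap huv)
    set t := θ (swap u v) with ht
    have hform : ∀ g, θ g = ((r : ℂ) + t) / 2 + ((r : ℂ) - t) / 2 * ((sgnC g : ℂˣ) : ℂ) := by
      intro g
      rcases Int.units_eq_one_or (sign g) with h1 | h1
      · rw [heven g h1, sgnC_of_even h1, Units.val_one]
        ring
      · rw [hodd g h1, sgnC_of_odd h1]
        ring
    obtain ⟨a, ha⟩ := h.coeff (Perm α) (MonoidHom.id _) 1
    obtain ⟨b, hb⟩ := h.coeff (Perm α) (MonoidHom.id _) sgnC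
    have hG : (Fintype.card (Perm α) : ℂ) ≠ 0 := by exact_mod_cast Fintype.card_ne_zero
    have hsum := sum_sgnC (α := α) (by omega)
    have ha' : ((r : ℂ) + t) / 2 = a := by
      simp only [MonoidHom.id_apply, MonoidHom.one_apply, inv_one, Units.val_one, mul_one] at ha
      simp_rw [hform] at ha
      rw [Finset.sum_add_distrib, ← Finset.mul_sum, hsum, mul_zero, add_zero, sum_const,
        card_univ, nsmul_eq_mul, mul_comm] at ha
      exact mul_right_cancel₀ hG ha
    have hb' : ((r : ℂ) - t) / 2 = b := by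
      have h1 : ∀ g : Perm α, θ ((MonoidHom.id (Perm α)) g) * (((sgnC g)⁻¹ : ℂˣ) : ℂ)
          = ((r : ℂ) - t) / 2 + ((r : ℂ) + t) / 2 * ((sgnC g : ℂˣ) : ℂ) := by
        intro g
        rw [MonoidHom.id_apply, hform g]
        rcases Int.units_eq_one_or (sign g) with h1 | h1
        · rw [sgnC_of_even h1, inv_one, Units.val_one]
          ring
        · have h2 : (((sgnC g)⁻¹ : ℂˣ) : ℂ) = -1 := by
            rw [Units.val_inv_eq_inv_val, sgnC_of_odd h1]
            norm_num
          rw [sgnC_of_odd h1, h2]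
          ring
      simp_rw [h1] at hb
      rw [Finset.sum_add_distrib, ← Finset.mul_sum, hsum, mul_zero, add_zero, sum_const,
        card_univ, nsmul_eq_mul, mul_comm] at hb
      exact mul_right_cancel₀ hG hb
    exact ⟨a, b, fun g => by rw [hform g, ha', hb']⟩
  · exfalso
    refine two_false' (θ := θ) (r := r) ⟨h, hr, hn, fun x hx hs => ?_⟩ (fun h' => h3 (hp h')) hrn
    rw [hinv x hx hs]
    simp

end Pool.Agent.H72.Exact
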