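import Pool.Agent.H7.Heil.CaseTwoC

/-!
Transitive groups of permutations of a composite number of points, made of even permutations of
simple cycle structure.
-/

open Finset Equiv Equiv.Perm

namespace Pool.Agent.H72.Exact

open Pool.Agent.H7.HB

set_option linter.unusedSectionVars false

section bound

variable {α : Type} [Fintype α] [DecidableEq α]

/-- A transitive group all of whose elements have value `r` minus the size of the support. -/
theorem trans_bound {G : Type} [Group G] {θ : G → ℂ} (h : Heil θ) {r : ℕ}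
    {K : Type} [Group K] [Fintype K] (φ : K →* G) (ψ : K →* Perm α) [Nonempty α]
    (htr : ∀ a b : α, ∃ k, ψ k a = b)
    (hval : ∀ k, θ (φ k) = (r : ℂ) - #(ψ k).support) : Fintype.card α ≤ r + 1 := by
  classical
  obtain ⟨m, hm⟩ := h.coeff K φ 1
  let _ : MulAction K α := MulAction.compHom α ψ
  have hsm : ∀ (k : K) (a : α), k • a = ψ k a := fun _ _ => rfl
  have htr' : MulAction.IsPretransitive K α := ⟨fun a b => htr a b⟩
  have hB := MulAction.sum_card_fixedBy_eq_card_orbits_mul_card_group K α
  have hsub := (MulAction.pretransitive_iff_subsingleton_quotient K α).1 htr'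
  have horb : Fintype.card (Quotient (MulAction.orbitRel K α)) = 1 := by
    have h1 : Fintype.card (Quotient (MulAction.orbitRel K α)) ≤ 1 :=
      Fintype.card_le_one_iff_subsingleton.2 hsub
    have h2 : 0 < Fintype.card (Quotient (MulAction.orbitRel K α)) := by
      have : Nonempty (Quotient (MulAction.orbitRel K α)) :=
        ⟨Quotient.mk _ (Classical.arbitrary α)⟩
      exact Fintype.card_pos
    omega
  rw [horb, one_mul] at hB
  have hfix : ∀ k : K, Fintype.card (MulAction.fixedBy α k) + #(ψ k).support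
      = Fintype.card α := by
    intro k
    have h1 : Fintype.card (MulAction.fixedBy α k) = #(ψ k).supportᶜ := by
      rw [Fintype.card_of_subtype]
      intro x
      rw [mem_compl, mem_support, not_not, MulAction.mem_fixedBy, hsm]
    rw [h1, card_compl]
    have := Finset.card_le_univ (ψ k).support
    omega
  have hsum : ∑ k : K, (#(ψ k).support : ℂ) + (Fintype.card K : ℂ)
      = (Fintype.card α : ℂ) * (Fintype.card K : ℂ) := by
    have hC : ∑ k : K, (Fintype.card (MulAction.fixedBy α k) : ℂ) = (Fintype.card K : ℂ) := by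
      exact_mod_cast hB
    have h2 : ∀ k : K, (#(ψ k).support : ℂ) + (Fintype.card (MulAction.fixedBy α k) : ℂ)
        = (Fintype.card α : ℂ) := by
      intro k
      rw [add_comm]
      exact_mod_cast hfix k
    rw [← hC, ← Finset.sum_add_distrib]
    simp_rw [h2]
    rw [sum_const, card_univ, nsmul_eq_mul, mul_comm, hC]
  simp only [MonoidHom.one_apply, inv_one, Units.val_one, mul_one] at hm
  simp_rw [hval] at hm
  rw [Finset.sum_sub_distrib, sum_const, card_univ, nsmul_eq_mul] at hm
  have hK : (Fintype.card K : ℂ) ≠ 0 := by exact_mod_cast Fintype.card_ne_zero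
  have h3 : ((m : ℂ) + (Fintype.card α : ℂ)) * (Fintype.card K : ℂ)
      = ((r : ℂ) + 1) * (Fintype.card K : ℂ) := by
    linear_combination -hm - hsum
  have h4 := mul_right_cancel₀ hK h3
  have h5 : m + Fintype.card α = r + 1 := by exact_mod_cast h4
  omega

end bound

section classes

variable {α : Type} [Fintype α] [DecidableEq α]

/-- even involution (or identity) -/
def Inv (g : Perm α) : Prop := g ^ 2 = 1 ∧ sign g = 1

/-- all points have the same odd period -/
def OddE (g : Perm α) : Prop :=
  ∃ l : ℕ, Odd l ∧ 1 < l ∧ (∀ y, HasPer g y l) ∧ (l.Prime → 2 * l ≤ Fintype.card α)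

/-- even permutation changing a colour at every moved point -/
def EvE (g : Perm α) : Prop :=
  ∃ (u : ℕ) (f : α → Bool), Odd u ∧
    (∀ q : ℕ, q.Prime → q ∣ u → 2 * q + 2 ≤ Fintype.card α) ∧ g ^ (2 * u) = 1 ∧
    sign g = 1 ∧ ∀ y, g y ≠ y → f (g y) = !f y

/-- the possible elements -/
def Nice (g : Perm α) : Prop := Inv g ∨ OddE g ∨ EvE g

variable {β : Type} [Fintype β] [DecidableEq β]

theorem permCongr_pow (e : β ≃ α) (g : Perm β) (i : ℕ) :
    (e.permCongrHom g) ^ i = e.permCongrHom (g ^ i) := (map_pow _ _ _).symm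

theorem permCongrHom_ap (e : β ≃ α) (g : Perm β) (y : α) :
    e.permCongrHom g y = e (g (e.symm y)) := rfl

theorem sign_permCongrHom (e : β ≃ α) (g : Perm β) : sign (e.permCongrHom g) = sign g :=
  sign_permCongr e g

theorem Nice.congr (e : β ≃ α) {g : Perm β} (h : Nice g) : Nice (e.permCongrHom g) := by
  have hc : Fintype.card β = Fintype.card α := Fintype.card_congr e
  rcases h with ⟨h1, h2⟩ | ⟨l, h1, h2, h3, h4⟩ | ⟨u, f, h1, h2, h3, h4, h5⟩
  · left
    exact ⟨by rw [← map_pow, h1, map_one], by rw [sign_permCongrHom, h2]⟩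
  · right; left
    refine ⟨l, h1, h2, fun y => ?_, fun hl => by rw [← hc]; exact h4 hl⟩
    refine ⟨by omega, fun i => ?_⟩
    rw [← (h3 (e.symm y)).2 i, ← map_zpow, permCongrHom_ap]
    exact e.eq_symm_apply.symm
  · right; right
    refine ⟨u, fun y => f (e.symm y), h1, fun q hq hqu => by rw [← hc]; exact h2 q hq hqu,
      by rw [← map_pow, h3, map_one], by rw [sign_permCongrHom, h4], fun y hy => ?_⟩
    rw [permCongrHom_ap]
    change f (e.symm (e (g (e.symm y)))) = !f (e.symm y)
    rw [e.symm_apply_apply]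
    apply h5
    intro h6
    apply hy
    rw [permCongrHom_ap, h6, e.apply_symm_apply]

theorem Nice.sign {g : Perm α} (h : Nice g) : sign g = 1 := by
  rcases h with ⟨_, h2⟩ | ⟨l, h1, h2, h3, h4⟩ | ⟨u, f, h1, h2, h3, h4, h5⟩
  · exact h2
  · refine sign_of_order_odd h1 (q := l) ?_
    ext y
    have := ((h3 y).2 l).2 (dvd_refl _)
    rw [zpow_natCast] at this
    rw [this, one_apply]
  · exact h4

end classes

/-- transitive group of nice permutations -/
def HasNice (α : Type) [Fintype α] [DecidableEq α] : Prop :=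
  ∃ (K : Type) (_ : Group K) (_ : Fintype K) (ψ : K →* Perm α),
    (∀ a b : α, ∃ k, ψ k a = b) ∧ ∀ k, Nice (ψ k)

theorem HasNice.congr {α β : Type} [Fintype α] [DecidableEq α] [Fintype β] [DecidableEq β]
    (e : β ≃ α) (h : HasNice β) : HasNice α := by
  obtain ⟨K, _, _, ψ, h1, h2⟩ := h
  refine ⟨K, inferInstance, inferInstance, e.permCongrHom.toMonoidHom.comp ψ, fun a b => ?_,
    fun k => (h2 k).congr e⟩
  obtain ⟨k, hk⟩ := h1 (e.symm a) (e.symm b)
  refine ⟨k, ?_⟩
  change e (ψ k (e.symm a)) = b
  rw [hk, e.apply_symm_apply]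

/-! ### regular actions -/

section regular

variable (u a : ℕ)

/-- the group acting regularly -/
abbrev RG : Type := Multiplicative (ZMod u × (Fin a → ZMod 2))

theorem regular_pow {K : Type} [Group K] (k y : K) (i : ℤ) :
    ((MulAction.toPermHom K K k) ^ i) y = k ^ i * y := by
  rw [← map_zpow]
  rfl

variable [NeZero u]

theorem card_RG : Fintype.card (RG u a) = u * 2 ^ a := by
  rw [Fintype.card_multiplicative, Fintype.card_prod, ZMod.card]
  simp

theorem nice_regular (hu : Odd u) (ha : a ≠ 1) (hc : ¬ (u * 2 ^ a).Prime) (h1 : 1 < u * 2 ^ a)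
    (k : RG u a) : Nice (MulAction.toPermHom (RG u a) (RG u a) k) := by
  classical
  have hcard := card_RG u a
  have h2Z : ∀ i : ZMod 2, i + i = 0 := by decide
  by_cases hk1 : k = 1
  · left
    rw [hk1, map_one]
    exact ⟨one_pow _, map_one _⟩
  -- odd multiple
  by_cases hv : k.toAdd.2 = 0
  · right; left
    have hku : k ^ u = 1 := by
      apply Multiplicative.toAdd.injective
      rw [toAdd_pow, toAdd_one]
      refine Prod.ext ?_ ?_
      · rw [Prod.smul_fst, nsmul_eq_mul, ZMod.natCast_self, zero_mul]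
        rfl
      · rw [Prod.smul_snd, hv, smul_zero]
        rfl
    have hd : orderOf k ∣ u := orderOf_dvd_of_pow_eq_one hku
    refine ⟨orderOf k, odd_of_dvd hd hu, ?_, fun y => ⟨orderOf_pos k, fun i => ?_⟩, fun hp => ?_⟩
    · have h2 : orderOf k ≠ 1 := fun h => hk1 (orderOf_eq_one_iff.1 h)
      have h3 := orderOf_pos k
      omega
    · rw [regular_pow, mul_eq_right, orderOf_dvd_iff_zpow_eq_one]
    · rw [hcard]
      obtain ⟨c, hc'⟩ : orderOf k ∣ u * 2 ^ a := hd.mul_right _
      rw [hc']
      have hc1 : c ≠ 1 := by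
        rintro rfl
        rw [mul_one] at hc'
        exact hc (hc' ▸ hp)
      have hc0 : c ≠ 0 := by
        rintro rfl
        omega
      rw [mul_comm]
      exact Nat.mul_le_mul_left _ (by omega)
  · right; right
    obtain ⟨i0, hi0⟩ : ∃ i, k.toAdd.2 i ≠ 0 := by
      by_contra hcon
      push Not at hcon
      exact hv (funext hcon)
    have ha0 : a ≠ 0 := by
      rintro rfl
      exact i0.elim0
    have ha2 : 2 ≤ a := by omega
    have h4 : 4 ∣ 2 ^ a := by
      obtain ⟨b, rfl⟩ := Nat.exists_eq_add_of_le ha2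
      exact ⟨2 ^ b, by rw [pow_add]; norm_num⟩
    obtain ⟨c, hc4⟩ := h4
    have hc0 : 0 < c := by
      rcases Nat.eq_zero_or_pos c with h | h
      · rw [h, mul_zero] at hc4
        have := Nat.pow_pos (n := a) (show 0 < 2 by norm_num)
        omega
      · exact h
    have hu0 : 0 < u := hu.pos
    have hi1 : k.toAdd.2 i0 = 1 := by
      have : ∀ i : ZMod 2, i ≠ 0 → i = 1 := by decide
      exact this _ hi0
    -- the sign
    have hsq : ∀ x : RG u a, x.toAdd.1 = 0 → x ^ 2 = 1 := by
      intro x hx
      apply Multiplicative.toAdd.injective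
      rw [toAdd_pow, toAdd_one, two_nsmul]
      refine Prod.ext ?_ ?_
      · rw [Prod.fst_add, hx, add_zero]
        rfl
      · ext i
        rw [Prod.snd_add, Pi.add_apply]
        exact h2Z _
    have hkp : (k ^ u).toAdd.1 = 0 := by
      rw [toAdd_pow, Prod.smul_fst, nsmul_eq_mul, ZMod.natCast_self, zero_mul]
    have hkp2 : (k ^ u).toAdd.2 = k.toAdd.2 := by
      ext i
      rw [toAdd_pow, Prod.smul_snd, Pi.smul_apply]
      obtain ⟨b, rfl⟩ := hu
      rw [add_nsmul, one_nsmul, mul_nsmul, two_nsmul, h2Z, smul_zero, zero_add]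
    have hkne : k ^ u ≠ 1 := by
      intro h
      apply hi0
      rw [← hkp2, h]
      rfl
    have hs1 : Equiv.Perm.sign (MulAction.toPermHom (RG u a) (RG u a) (k ^ u)) = 1 := by
      have h5 : (MulAction.toPermHom (RG u a) (RG u a) (k ^ u)) ^ 2 = 1 := by
        rw [← map_pow, hsq _ hkp, map_one]
      rw [sign_of_sq h5]
      have h6 : (MulAction.toPermHom (RG u a) (RG u a) (k ^ u)).support = univ := by
        ext y
        rw [mem_support]
        simp only [mem_univ, iff_true]
        intro h7
        have h8 : k ^ u * y = y := h7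
        rw [mul_eq_right] at h8
        exact hkne h8
      rw [h6, card_univ, hcard, hc4]
      have : Even (u * (4 * c) / 2) := by
        have h9 : u * (4 * c) = 2 * (2 * (u * c)) := by ring
        rw [h9, Nat.mul_div_cancel_left _ (by norm_num)]
        exact even_two_mul _
      exact this.neg_one_pow
    have hs : Equiv.Perm.sign (MulAction.toPermHom (RG u a) (RG u a) k) = 1 := by
      rw [map_pow, map_pow] at hs1
      rcases Int.units_eq_one_or (Equiv.Perm.sign (MulAction.toPermHom (RG u a) (RG u a) k))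
        with h | h
      · exact h
      · rw [h, hu.neg_one_pow] at hs1
        exact absurd hs1 (by decide)
    refine ⟨u, fun y => decide (y.toAdd.2 i0 = 0), hu, fun q hq hqu => ?_, ?_, hs, fun y _ => ?_⟩
    · rw [hcard, hc4]
      have h5 := Nat.le_of_dvd hu0 hqu
      have h6 : q ≠ 2 := by
        rintro rfl
        exact absurd (odd_of_dvd hqu hu) (by decide)
      have h7 := hq.two_le
      have h8 : u * 4 ≤ u * (4 * c) := Nat.mul_le_mul_left _ (by omega)
      omega
    · rw [← map_pow, mul_comm, pow_mul, hsq _ hkp, map_one]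
    · have h5 : ((MulAction.toPermHom (RG u a) (RG u a) k) y).toAdd.2 i0
          = 1 + y.toAdd.2 i0 := by
        change (k * y).toAdd.2 i0 = _
        rw [toAdd_mul, Prod.snd_add, Pi.add_apply, hi1]
      simp only [h5]
      have : ∀ z : ZMod 2, decide (1 + z = 0) = !decide (z = 0) := by decide
      exact this _

theorem hasNice_regular (hu : Odd u) (ha : a ≠ 1) (hc : ¬ (u * 2 ^ a).Prime)
    (h1 : 1 < u * 2 ^ a) : HasNice (RG u a) := by
  refine ⟨RG u a, inferInstance, inferInstance, MulAction.toPermHom (RG u a) (RG u a),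
    fun x y => ⟨y * x⁻¹, ?_⟩, fun k => nice_regular u a hu ha hc h1 k⟩
  change y * x⁻¹ * x = y
  group

end regular

end Pool.Agent.H72.Exact
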